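import Pool.Agent.TH930.EBQ.Type

/-! The entropy barrier is broken. -/

set_option autoImplicit false

namespace Pool.Agent.TH930.EBQ

open Finset

lemma poly_exp {a : ℝ} (ha : 0 < a) : ∃ C : ℝ, 0 < C ∧ ∀ W : ℕ, (2 * (W : ℝ) + 1) ^ 4 ≤ C * Real.exp (a * W) := by
  refine ⟨(2 / a) ^ 4 * 24 * Real.exp (a / 2), by positivity, fun W => ?_⟩
  have hW : (0 : ℝ) ≤ W := Nat.cast_nonneg W
  set x : ℝ := (2 * W + 1) * a / 2 with hx
  have hx0 : 0 ≤ x := by positivity
  have h1 := Real.pow_div_factorial_le_exp x hx0 4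
  have h2 : x ^ 4 ≤ 24 * Real.exp x := by
    rw [div_le_iff₀ (by positivity)] at h1
    have : ((Nat.factorial 4 : ℕ) : ℝ) = 24 := by norm_num [Nat.factorial]
    rw [this] at h1
    linarith
  have h3 : (2 * (W : ℝ) + 1) ^ 4 = (2 / a) ^ 4 * x ^ 4 := by
    rw [hx, ← mul_pow]; congr 1; field_simp
  have h4 : Real.exp x = Real.exp (a / 2) * Real.exp (a * W) := by
    rw [← Real.exp_add]; congr 1; rw [hx]; ring
  rw [h3]
  calc (2 / a) ^ 4 * x ^ 4 ≤ (2 / a) ^ 4 * (24 * Real.exp x) := by gcongr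
    _ = _ := by rw [h4]; ring

/-- THE MAIN COUNTING THEOREM -/
theorem count_main : ∃ τ c C μ : ℝ, 0 < τ ∧ τ ≤ 1 / 4 ∧ 0 < c ∧ 0 < C ∧ 0 < μ ∧ μ ≤ 1 ∧
    ∀ k : ℤ, Odd k → ∀ W Q : ℕ, 1 ≤ Q → (Q : ℝ) ≤ Real.exp (μ * W) → |(k : ℝ)| ≤ Real.exp (μ * W) →
    ∀ (u : ℤ) (B : Finset ℤ), (∀ x ∈ B, |x - u| ≤ 2 ^ W ∧
      ∀ j ≤ W + ⌊τ * W⌋₊, 2 ^ j ≤ Q * 3 ^ ones (wd k j x)) →
      (B.card : ℝ) ≤ C * Real.exp (W * (Hh - c)) := by
  classical
  obtain ⟨τ, c, C, μ0, hτ0, hτ1, hc, hC, hμ00, hμ01, W1, hW1⟩ := type_final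
  obtain ⟨C', hC', hpoly⟩ := poly_exp (a := c * τ / 4) (by positivity)
  have hHh := Hh_pos
  have hlam := lam_pos
  set μ : ℝ := min μ0 (c * τ / (4 * (3 + lam))) with hμ
  have hμ0 : 0 < μ := lt_min hμ00 (by positivity)
  have hμ1 : μ ≤ μ0 := min_le_left _ _
  have hμ2 : (3 + lam) * μ ≤ c * τ / 4 := by
    have h1 : μ ≤ c * τ / (4 * (3 + lam)) := min_le_right _ _
    have h2 : (3 + lam) * μ ≤ (3 + lam) * (c * τ / (4 * (3 + lam))) :=
      mul_le_mul_of_nonneg_left h1 (by linarith)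
    have h3 : (3 + lam) * (c * τ / (4 * (3 + lam))) = c * τ / 4 := by field_simp
    linarith
  refine ⟨τ, c * τ / 2, max (C * C' * Real.exp (2 * c)) (3 * 2 ^ W1 * Real.exp (W1 * (c * τ / 2))), μ,
    hτ0, hτ1, by positivity,
    lt_max_of_lt_left (by positivity), hμ0, by linarith, ?_⟩
  intro k hk W Q hQ1 hQ hkμ u B hB
  have hWR : (0 : ℝ) ≤ W := Nat.cast_nonneg W
  rcases lt_or_ge W W1 with hsm | hbig
  · -- small `W`
    have h1 : (B.card : ℝ) ≤ 3 * 2 ^ W1 := by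
      have h2 : B ⊆ Icc (u - (2 : ℤ) ^ W) (u + 2 ^ W) := by
        intro x hx
        rw [mem_Icc]
        have := abs_le.1 (hB x hx).1
        constructor <;> linarith [this.1, this.2]
      have h3 := card_le_card h2
      rw [Int.card_Icc] at h3
      have h4 : (u + (2 : ℤ) ^ W + 1 - (u - (2 : ℤ) ^ W)).toNat ≤ 3 * 2 ^ W := by
        have : (1 : ℤ) ≤ 2 ^ W := one_le_pow₀ (by norm_num)
        have h5 : ((3 * 2 ^ W : ℕ) : ℤ) = 3 * 2 ^ W := by push_cast; rfl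
        omega
      have h6 : 3 * 2 ^ W ≤ 3 * 2 ^ W1 := Nat.mul_le_mul_left 3 (Nat.pow_le_pow_right (by norm_num) hsm.le)
      exact_mod_cast h3.trans (h4.trans h6)
    have h2 : (1 : ℝ) ≤ Real.exp (W1 * (c * τ / 2)) * Real.exp (W * (Hh - c * τ / 2)) := by
      rw [← Real.exp_add]
      apply Real.one_le_exp
      have h3 : (W : ℝ) ≤ W1 := by exact_mod_cast hsm.le
      have h4 : (W : ℝ) * (c * τ / 2) ≤ W1 * (c * τ / 2) := mul_le_mul_of_nonneg_right h3 (by positivity)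
      have h5 : 0 ≤ (W : ℝ) * Hh := by positivity
      linarith
    calc (B.card : ℝ) ≤ 3 * 2 ^ W1 * 1 := by linarith
      _ ≤ 3 * 2 ^ W1 * (Real.exp (W1 * (c * τ / 2)) * Real.exp (W * (Hh - c * τ / 2))) :=
          mul_le_mul_of_nonneg_left h2 (by positivity)
      _ = (3 * 2 ^ W1 * Real.exp (W1 * (c * τ / 2))) * Real.exp (W * (Hh - c * τ / 2)) := by ring
      _ ≤ _ := mul_le_mul_of_nonneg_right (le_max_right _ _) (Real.exp_pos _).le
  · obtain ⟨i, m, hWi, hi1, hi2, hty⟩ := hW1 μ hμ0 hμ1 k hk W Q hbig hQ1 hQ hkμ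
    set f : ℤ → ℕ × (ℕ × ℕ) := fun x => (ones (wd k i x), (ones (wd k (2 * m) ((T k)^[i] x)),
      ones (wd k i ((T k)^[W] x)))) with hf
    have hiW : i ≤ W := by omega
    have hmaps : ∀ x ∈ B, f x ∈ range (2 * W + 1) ×ˢ (range (2 * W + 1) ×ˢ range (2 * W + 1)) := by
      intro x _
      have l1 := ones_le_length (wd k i x)
      have l2 := ones_le_length (wd k (2 * m) ((T k)^[i] x))
      have l3 := ones_le_length (wd k i ((T k)^[W] x))
      rw [wd_length] at l1 l2 l3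
      rw [hf]
      simp only [mem_product, mem_range]
      omega
    have h1 := card_eq_sum_card_fiberwise hmaps
    have h2 : ∀ o ∈ range (2 * W + 1) ×ˢ (range (2 * W + 1) ×ˢ range (2 * W + 1)),
        ((B.filter (fun x => f x = o)).card : ℝ) ≤
          C * (i + 1) * Real.exp ((3 + lam) * μ * W) * Real.exp (W * Hh - c * i) := by
      intro o _
      apply hty o.1 o.2.1 o.2.2 u
      intro x hx
      rw [mem_filter] at hx
      obtain ⟨hx1, hx2⟩ := hx
      obtain ⟨a1, a2⟩ := hB x hx1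
      rw [← hx2]
      refine ⟨a1, fun j hj => a2 j ?_, rfl, rfl, rfl⟩
      have : i ≤ ⌊τ * (W : ℝ)⌋₊ := Nat.le_floor hi1
      omega
    have h3 : (B.card : ℝ) ≤ (2 * W + 1) ^ 3 *
        (C * (i + 1) * Real.exp ((3 + lam) * μ * W) * Real.exp (W * Hh - c * i)) := by
      rw [h1]
      push_cast
      refine (sum_le_card_nsmul _ _ _ h2).trans (le_of_eq ?_)
      rw [card_product, card_product, card_range, nsmul_eq_mul]
      push_cast
      ring
    have h4 : ((i : ℝ) + 1) ≤ 2 * W + 1 := by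
      have : (i : ℝ) ≤ W := by exact_mod_cast hiW
      linarith
    have h5 : Real.exp ((3 + lam) * μ * W) * Real.exp (W * Hh - c * i) ≤
        Real.exp (2 * c) * Real.exp (W * (Hh - 3 / 4 * (c * τ))) := by
      rw [← Real.exp_add, ← Real.exp_add]
      apply Real.exp_le_exp.2
      have h6 : c * (τ * W - 2) ≤ c * i := mul_le_mul_of_nonneg_left hi2 hc.le
      have h7 : (3 + lam) * μ * W ≤ c * τ / 4 * W := mul_le_mul_of_nonneg_right hμ2 hWR
      linarith
    calc (B.card : ℝ) ≤ (2 * W + 1) ^ 3 *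
            (C * (i + 1) * Real.exp ((3 + lam) * μ * W) * Real.exp (W * Hh - c * i)) := h3
      _ = (2 * W + 1) ^ 3 *
            (C * (i + 1) * (Real.exp ((3 + lam) * μ * W) * Real.exp (W * Hh - c * i))) := by ring
      _ ≤ (2 * W + 1) ^ 3 * (C * (2 * W + 1) *
            (Real.exp (2 * c) * Real.exp (W * (Hh - 3 / 4 * (c * τ))))) := by
          gcongr
      _ = (2 * (W : ℝ) + 1) ^ 4 * (C * Real.exp (2 * c) * Real.exp (W * (Hh - 3 / 4 * (c * τ)))) := by ring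
      _ ≤ (C' * Real.exp (c * τ / 4 * W)) * (C * Real.exp (2 * c) * Real.exp (W * (Hh - 3 / 4 * (c * τ)))) :=
          mul_le_mul_of_nonneg_right (hpoly W) (by positivity)
      _ = (C * C' * Real.exp (2 * c)) * Real.exp (W * (Hh - c * τ / 2)) := by
          have : Real.exp (W * (Hh - c * τ / 2)) =
              Real.exp (c * τ / 4 * W) * Real.exp (W * (Hh - 3 / 4 * (c * τ))) := by
            rw [← Real.exp_add]; congr 1; ring
          rw [this]; ring
      _ ≤ _ := mul_le_mul_of_nonneg_right (le_max_left _ _) (Real.exp_pos _).le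

end Pool.Agent.TH930.EBQ
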