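import Pool.Agent.TH930.EBQ.Four

/-! Mean square bounds. -/

set_option autoImplicit false

namespace Pool.Agent.TH930.EBQ

open Finset

/-- the last letters -/
lemma l2_top {i o R : ℕ} (hR : R ≤ 2 ^ i) {a : ℤ} (ha : Odd a) (S : Finset (List Bool))
    (hS : ∀ v ∈ S, v.length = i ∧ ones v = o) :
    ∑ ξ ∈ range R, ‖∑ v ∈ S, e (ξ * (((a * cw v : ℤ) : ℝ) / 2 ^ i))‖ ^ 2 ≤ 2 ^ i * S.card := by
  have h1 : ∑ ξ ∈ range R, ‖∑ v ∈ S, e (ξ * (((a * cw v : ℤ) : ℝ) / 2 ^ i))‖ ^ 2 ≤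
      ∑ ξ ∈ range (2 ^ i), ‖∑ v ∈ S, e (ξ * (((a * cw v : ℤ) : ℝ) / 2 ^ i))‖ ^ 2 := by
    apply sum_le_sum_of_subset_of_nonneg
    · intro x hx; rw [mem_range] at hx ⊢; omega
    · intro _ _ _; positivity
  refine h1.trans ?_
  have h2 := parseval S (fun v => a * (cw v : ℤ)) (N := 2 ^ i) (by positivity)
  push_cast at h2 ⊢
  rw [h2]
  apply mul_le_mul_of_nonneg_left _ (by positivity)
  have h3 : ((S ×ˢ S).filter (fun p => (2 : ℤ) ^ i ∣ a * (cw p.1 : ℤ) - a * (cw p.2 : ℤ))) ⊆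
      S.image (fun v => (v, v)) := by
    intro p hp
    rw [mem_filter, mem_product] at hp
    obtain ⟨⟨hp1, hp2⟩, hp3⟩ := hp
    rw [← mul_sub] at hp3
    have hc : IsCoprime ((2 : ℤ) ^ i) a := by
      apply IsCoprime.pow_left
      rw [Int.isCoprime_iff_gcd_eq_one]
      obtain ⟨t, rfl⟩ := ha
      have : Int.gcd 2 (2 * t + 1) = 1 := by
        rw [← Int.isCoprime_iff_gcd_eq_one]
        exact ⟨-t, 1, by ring⟩
      exact this
    have h4 := cw_inj2 (hS _ hp1).1 (hS _ hp2).1 ((hS _ hp1).2.trans (hS _ hp2).2.symm)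
      (hc.dvd_of_dvd_mul_left hp3)
    rw [mem_image]
    exact ⟨p.1, hp1, by rw [Prod.ext_iff]; exact ⟨rfl, h4⟩⟩
  exact_mod_cast (card_le_card h3).trans card_image_le

/-- the pairs of words whose constants agree modulo a power of `3` -/
lemma pairs_bot {i o K Q : ℕ} {a s k : ℤ} (h : 3 ^ o * a + k = 2 ^ K * s) (hk0 : k ≠ 0)
    (S : Finset (List Bool)) (hS : ∀ v ∈ S, v.length = i ∧ ones v = o ∧ cw v ≤ Q * i * 3 ^ o) :
    (((S ×ˢ S).filter (fun p => (3 : ℤ) ^ o ∣ s * (cw p.1 : ℤ) - s * (cw p.2 : ℤ))).card : ℝ) ≤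
      S.card * (2 * Q * |(k : ℝ)| * i + 1) := by
  classical
  have h3 : (0 : ℤ) < 3 ^ o := by positivity
  have key : ∀ u ∈ S, ((S.filter (fun v => (3 : ℤ) ^ o ∣ s * (cw u : ℤ) - s * (cw v : ℤ))).card : ℝ) ≤
      2 * Q * |(k : ℝ)| * i + 1 := by
    intro u hu
    have hdv : ∀ v ∈ S, (3 : ℤ) ^ o ∣ s * (cw u : ℤ) - s * (cw v : ℤ) →
        (3 : ℤ) ^ o ∣ k * ((cw u : ℤ) - cw v) := by
      intro v _ hv
      have e1 : k * ((cw u : ℤ) - cw v) = 2 ^ K * (s * (cw u : ℤ) - s * (cw v : ℤ)) -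
          3 ^ o * (a * ((cw u : ℤ) - cw v)) := by
        linear_combination ((cw u : ℤ) - cw v) * h
      rw [e1]
      exact dvd_sub (hv.mul_left _) (dvd_mul_right _ _)
    have hsub : (S.filter (fun v => (3 : ℤ) ^ o ∣ s * (cw u : ℤ) - s * (cw v : ℤ))).card ≤
        (Icc (-(Q * |k| * i)) (Q * |k| * i)).card := by
      apply card_le_card_of_injOn (fun v => k * ((cw u : ℤ) - cw v) / 3 ^ o)
      · intro v hv
        rw [mem_coe, mem_filter] at hv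
        obtain ⟨hvS, hv⟩ := hv
        obtain ⟨t, ht⟩ := hdv v hvS hv
        rw [mem_coe, mem_Icc]
        simp only
        rw [ht, Int.mul_ediv_cancel_left _ h3.ne', ← abs_le]
        have hu' : (cw u : ℤ) ≤ Q * i * 3 ^ o := by exact_mod_cast (hS u hu).2.2
        have hv' : (cw v : ℤ) ≤ Q * i * 3 ^ o := by exact_mod_cast (hS v hvS).2.2
        have hu0 : (0 : ℤ) ≤ cw u := Int.natCast_nonneg _
        have hv0 : (0 : ℤ) ≤ cw v := Int.natCast_nonneg _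
        have h5 : |(cw u : ℤ) - cw v| ≤ Q * i * 3 ^ o := by
          rw [abs_le]; constructor <;> linarith
        have h6 : 3 ^ o * |t| ≤ 3 ^ o * (Q * |k| * i) := by
          calc 3 ^ o * |t| = |k * ((cw u : ℤ) - cw v)| := by
                rw [ht, abs_mul, abs_of_pos h3]
            _ = |k| * |(cw u : ℤ) - cw v| := abs_mul _ _
            _ ≤ |k| * (Q * i * 3 ^ o) := mul_le_mul_of_nonneg_left h5 (abs_nonneg _)
            _ = _ := by ring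
        exact le_of_mul_le_mul_left h6 h3
      · intro v hv w hw hvw
        rw [mem_coe, mem_filter] at hv hw
        obtain ⟨hvS, hv⟩ := hv
        obtain ⟨hwS, hw⟩ := hw
        obtain ⟨t, ht⟩ := hdv v hvS hv
        obtain ⟨t', ht'⟩ := hdv w hwS hw
        simp only at hvw
        rw [ht, ht', Int.mul_ediv_cancel_left _ h3.ne', Int.mul_ediv_cancel_left _ h3.ne'] at hvw
        rw [hvw, ← ht'] at ht
        have h5 := mul_left_cancel₀ hk0 ht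
        have h6 : (cw v : ℤ) - cw w = 0 := by linarith
        apply cw_inj2 (hS v hvS).1 (hS w hwS).1 ((hS v hvS).2.1.trans (hS w hwS).2.1.symm)
        rw [h6]
        exact dvd_zero _
    have h7 : ((Icc (-(Q * |k| * i)) (Q * |k| * i)).card : ℝ) = 2 * Q * |(k : ℝ)| * i + 1 := by
      rw [Int.card_Icc]
      have h8 : ((Q * |k| * i + 1 - -(Q * |k| * i)).toNat : ℤ) = 2 * Q * |k| * i + 1 := by
        have h0 : (0 : ℤ) ≤ Q * |k| * i := by positivity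
        rw [Int.toNat_of_nonneg (by linarith)]
        ring
      have h9 : (((Q * |k| * i + 1 - -(Q * |k| * i)).toNat : ℤ) : ℝ) = ((2 * Q * |k| * i + 1 : ℤ) : ℝ) := by
        rw [h8]
      push_cast at h9
      rw [h9]
    rw [← h7]
    exact_mod_cast hsub
  have h4 : ((S ×ˢ S).filter (fun p => (3 : ℤ) ^ o ∣ s * (cw p.1 : ℤ) - s * (cw p.2 : ℤ))).card ≤
      ∑ u ∈ S, (S.filter (fun v => (3 : ℤ) ^ o ∣ s * (cw u : ℤ) - s * (cw v : ℤ))).card := by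
    rw [← card_sigma]
    apply card_le_card_of_injOn (fun p => (⟨p.1, p.2⟩ : (_ : List Bool) × List Bool))
    · intro p hp
      simp only [coe_filter, mem_product, Set.mem_ofPred_eq] at hp
      simp only [coe_sigma, Set.mem_sigma_iff, mem_coe, mem_filter]
      exact ⟨hp.1.1, hp.1.2, hp.2⟩
    · intro p _ q _ hpq
      simp only [Sigma.mk.injEq, heq_eq_eq] at hpq
      exact Prod.ext hpq.1 hpq.2
  calc (((S ×ˢ S).filter (fun p => (3 : ℤ) ^ o ∣ s * (cw p.1 : ℤ) - s * (cw p.2 : ℤ))).card : ℝ)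
      ≤ ∑ u ∈ S, ((S.filter (fun v => (3 : ℤ) ^ o ∣ s * (cw u : ℤ) - s * (cw v : ℤ))).card : ℝ) := by
        exact_mod_cast h4
    _ ≤ S.card • (2 * Q * |(k : ℝ)| * i + 1) := sum_le_card_nsmul _ _ _ key
    _ = _ := by rw [nsmul_eq_mul]

/-- the first letters -/
lemma l2_bot {i o K R Q : ℕ} {a k : ℤ} (h : (2 : ℤ) ^ K ∣ 3 ^ o * a + k) (hk0 : k ≠ 0)
    (hR : R ≤ 3 ^ o) (S : Finset (List Bool)) (hne : 1 ≤ S.card)
    (hS : ∀ v ∈ S, v.length = i ∧ ones v = o ∧ cw v ≤ Q * i * 3 ^ o)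
    (hsm : (S.card : ℝ) * (2 * Real.pi * R * |(k : ℝ)| * (Q * i)) ≤ 2 ^ K) :
    ∑ ξ ∈ range R, ‖∑ v ∈ S, e (ξ * (((a * cw v : ℤ) : ℝ) / 2 ^ K))‖ ^ 2 ≤
      3 ^ o * S.card * (4 * Q * |(k : ℝ)| * i + 4) := by
  obtain ⟨s, hs⟩ := h
  have h3 : (0 : ℝ) < 3 ^ o := by positivity
  have h2K : (0 : ℝ) < 2 ^ K := by positivity
  have hsR : (3 : ℝ) ^ o * a + k = 2 ^ K * s := by exact_mod_cast hs
  have hid : ∀ v : List Bool, ∀ ξ : ℕ, (ξ : ℝ) * (((a * cw v : ℤ) : ℝ) / 2 ^ K) =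
      ξ * (((s * cw v : ℤ) : ℝ) / ((3 ^ o : ℕ) : ℝ)) + -(ξ * k * cw v / (2 ^ K * 3 ^ o)) := by
    intro v ξ
    push_cast
    field_simp
    linear_combination (ξ * cw v : ℝ) * hsR
  have hA : ∀ ξ ∈ range R, ‖∑ v ∈ S, e (ξ * (((a * cw v : ℤ) : ℝ) / 2 ^ K))‖ ^ 2 ≤
      2 * ‖∑ v ∈ S, e (ξ * (((s * cw v : ℤ) : ℝ) / ((3 ^ o : ℕ) : ℝ)))‖ ^ 2 + 2 := by
    intro ξ hξ
    rw [mem_range] at hξ
    have hξR : (ξ : ℝ) ≤ R := by exact_mod_cast hξ.le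
    have h4 : ‖∑ v ∈ S, e (ξ * (((a * cw v : ℤ) : ℝ) / 2 ^ K))‖ ≤
        ‖∑ v ∈ S, e (ξ * (((s * cw v : ℤ) : ℝ) / ((3 ^ o : ℕ) : ℝ)))‖ + 1 := by
      have h5 : ∑ v ∈ S, e (ξ * (((a * cw v : ℤ) : ℝ) / 2 ^ K)) =
          ∑ v ∈ S, e (ξ * (((s * cw v : ℤ) : ℝ) / ((3 ^ o : ℕ) : ℝ))) +
          ∑ v ∈ S, e (ξ * (((s * cw v : ℤ) : ℝ) / ((3 ^ o : ℕ) : ℝ))) *
            (e (-(ξ * k * cw v / (2 ^ K * 3 ^ o))) - 1) := by
        rw [← sum_add_distrib]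
        apply sum_congr rfl
        intro v _
        rw [hid, e_add]
        ring
      rw [h5]
      refine (norm_add_le _ _).trans (add_le_add le_rfl ?_)
      have h6 : ∀ v ∈ S, ‖e (ξ * (((s * cw v : ℤ) : ℝ) / ((3 ^ o : ℕ) : ℝ))) *
            (e (-(ξ * k * cw v / (2 ^ K * 3 ^ o))) - 1)‖ ≤
            2 * Real.pi * R * |(k : ℝ)| * (Q * i) / 2 ^ K := by
        intro v hv
        rw [norm_mul, norm_e, one_mul]
        refine (norm_e_sub_one _).trans ?_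
        have hc : (cw v : ℝ) ≤ Q * i * 3 ^ o := by exact_mod_cast (hS v hv).2.2
        rw [abs_neg, abs_div, abs_mul, abs_mul, abs_of_nonneg (Nat.cast_nonneg ξ : (0 : ℝ) ≤ (ξ : ℝ)),
          abs_of_nonneg (Nat.cast_nonneg (cw v) : (0 : ℝ) ≤ (cw v : ℝ)), abs_of_pos (by positivity : (0 : ℝ) < 2 ^ K * 3 ^ o),
          mul_div_assoc', div_le_div_iff₀ (by positivity) h2K]
        have hpi := Real.pi_pos
        have h7 : (ξ : ℝ) * |(k : ℝ)| * cw v ≤ R * |(k : ℝ)| * (Q * i * 3 ^ o) := by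
          gcongr
        calc 2 * Real.pi * (ξ * |(k : ℝ)| * cw v) * 2 ^ K
            ≤ 2 * Real.pi * (R * |(k : ℝ)| * (Q * i * 3 ^ o)) * 2 ^ K := by gcongr
          _ = _ := by ring
      refine (norm_sum_le _ _).trans ((sum_le_card_nsmul _ _ _ h6).trans ?_)
      rw [nsmul_eq_mul, mul_div_assoc', div_le_one h2K]
      exact hsm
    have h8 := norm_nonneg (∑ v ∈ S, e (ξ * (((a * cw v : ℤ) : ℝ) / 2 ^ K)))
    have h9 := pow_le_pow_left₀ h8 h4 2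
    refine h9.trans ?_
    nlinarith [sq_nonneg (‖∑ v ∈ S, e (ξ * (((s * cw v : ℤ) : ℝ) / ((3 ^ o : ℕ) : ℝ)))‖ - 1)]
  have h10 : ∑ ξ ∈ range R, ‖∑ v ∈ S, e (ξ * (((s * cw v : ℤ) : ℝ) / ((3 ^ o : ℕ) : ℝ)))‖ ^ 2 ≤
      3 ^ o * (S.card * (2 * Q * |(k : ℝ)| * i + 1)) := by
    have h11 : ∑ ξ ∈ range R, ‖∑ v ∈ S, e (ξ * (((s * cw v : ℤ) : ℝ) / ((3 ^ o : ℕ) : ℝ)))‖ ^ 2 ≤
        ∑ ξ ∈ range (3 ^ o), ‖∑ v ∈ S, e (ξ * (((s * cw v : ℤ) : ℝ) / ((3 ^ o : ℕ) : ℝ)))‖ ^ 2 := by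
      apply sum_le_sum_of_subset_of_nonneg
      · intro x hx; rw [mem_range] at hx ⊢; omega
      · intro _ _ _; positivity
    refine h11.trans ?_
    rw [parseval S (fun v => s * (cw v : ℤ)) (N := 3 ^ o) (by positivity)]
    push_cast
    exact mul_le_mul_of_nonneg_left (pairs_bot hs hk0 S hS) h3.le
  calc ∑ ξ ∈ range R, ‖∑ v ∈ S, e (ξ * (((a * cw v : ℤ) : ℝ) / 2 ^ K))‖ ^ 2
      ≤ ∑ ξ ∈ range R, (2 * ‖∑ v ∈ S, e (ξ * (((s * cw v : ℤ) : ℝ) / ((3 ^ o : ℕ) : ℝ)))‖ ^ 2 + 2) :=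
        sum_le_sum hA
    _ = 2 * ∑ ξ ∈ range R, ‖∑ v ∈ S, e (ξ * (((s * cw v : ℤ) : ℝ) / ((3 ^ o : ℕ) : ℝ)))‖ ^ 2 +
        2 * R := by
        rw [sum_add_distrib, ← mul_sum, sum_const, card_range, nsmul_eq_mul]; ring
    _ ≤ 2 * (3 ^ o * (S.card * (2 * Q * |(k : ℝ)| * i + 1))) + 2 * 3 ^ o := by
        have : (R : ℝ) ≤ 3 ^ o := by exact_mod_cast hR
        linarith
    _ ≤ 3 ^ o * S.card * (4 * Q * |(k : ℝ)| * i + 4) := by
        have h12 : (1 : ℝ) ≤ S.card := by exact_mod_cast hne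
        nlinarith

end Pool.Agent.TH930.EBQ
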