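import Pool.Agent.TH930.EBQ.Carry
import Pool.Agent.TH930.EBQ.L2

/-! The exceptional frequencies. -/

set_option autoImplicit false

namespace Pool.Agent.TH930.EBQ

open Finset

lemma sin_sq_psi (x : ℝ) : Real.sin (Real.pi * x) ^ 2 = Real.sin (Real.pi * |psi x|) ^ 2 := by
  have h1 : Real.sin (Real.pi * x) ^ 2 = Real.sin (Real.pi * psi x) ^ 2 := by
    have h2 : Real.pi * psi x = Real.pi * x - (round x : ℤ) * Real.pi := by
      unfold psi; ring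
    rw [h2, Real.sin_sub_int_mul_pi, mul_pow, ← sq_abs ((-1 : ℝ) ^ (round x : ℤ)), abs_zpow]
    simp
  rw [h1]
  rcases abs_choice (psi x) with h | h
  · rw [h]
  · rw [h, mul_neg, Real.sin_neg, neg_sq]

lemma g_le {p q : ℝ} (hp : 0 < p) (hq : 0 < q) (hpq : p + q = 1) {x : ℝ} (hx : 1 / 16 ≤ |psi x|) :
    p ^ 2 + q ^ 2 + 2 * p * q * Real.cos (Real.pi * x) ^ 2 ≤ 1 - p * q / 32 := by
  have h1 : 1 / 8 ≤ Real.sin (Real.pi * |psi x|) := by
    have hpi := Real.pi_pos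
    have h2 := Real.mul_le_sin (x := Real.pi * |psi x|) (by positivity) (by
      have := abs_psi x
      nlinarith)
    have h3 : 2 / Real.pi * (Real.pi * |psi x|) = 2 * |psi x| := by field_simp
    rw [h3] at h2
    linarith
  have h2 : 1 / 64 ≤ Real.sin (Real.pi * x) ^ 2 := by
    rw [sin_sq_psi]; nlinarith
  have h3 := Real.sin_sq_add_cos_sq (Real.pi * x)
  have h4 : Real.cos (Real.pi * x) ^ 2 ≤ 1 - 1 / 64 := by linarith
  have hpq0 : 0 < p * q := by positivity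
  have h5 : p ^ 2 + q ^ 2 = 1 - 2 * (p * q) := by
    have : (p + q) ^ 2 = 1 := by rw [hpq]; norm_num
    nlinarith
  nlinarith

lemma g_le_one {p q : ℝ} (hp : 0 < p) (hq : 0 < q) (hpq : p + q = 1) (x : ℝ) :
    p ^ 2 + q ^ 2 + 2 * p * q * Real.cos x ^ 2 ≤ 1 := by
  have h3 := Real.cos_sq_le_one x
  have hpq0 : 0 < p * q := by positivity
  have h5 : p ^ 2 + q ^ 2 = 1 - 2 * (p * q) := by
    have : (p + q) ^ 2 = 1 := by rw [hpq]; norm_num
    nlinarith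
  nlinarith

lemma Gw_le {p q : ℝ} (hp : 0 < p) (hq : 0 < q) (hpq : p + q = 1) (m : ℕ) : ∀ (θ : ℝ) (r : ℕ)
    (v : List Bool), v ∈ words (2 * m) → Gw p q θ r v ≤ (1 - p * q / 32) ^ wh θ r v := by
  have hpq0 : 0 < p * q := by positivity
  have hpq1 : p * q ≤ 1 := by nlinarith
  induction m with
  | zero =>
    intro θ r v hv
    rw [mem_words, mul_zero, List.length_eq_zero_iff] at hv
    rw [hv, Gw_nil]; simp [wh]
  | succ m ih =>
    intro θ r v hv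
    rw [mem_words] at hv
    match v, hv with
    | (a :: b :: v), hv =>
      have hv' : v ∈ words (2 * m) := by
        rw [mem_words]
        simp only [List.length_cons] at hv
        omega
      rw [Gw_cons, wh_cons, pow_add]
      apply mul_le_mul _ (ih _ _ v hv') (Gw_pos hp hq m _ _ v hv').le (by
        apply pow_nonneg; linarith)
      split_ifs with h
      · rw [pow_one]; exact g_le hp hq hpq h
      · rw [pow_zero]; exact g_le_one hp hq hpq _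

/-- the exceptional frequencies -/
noncomputable def bad (p q : ℝ) (W m r s R : ℕ) (a : ℤ) : Finset ℕ := by
  classical
  exact (range R).filter (fun ξ : ℕ =>
    2 * (1 - p * q / 32) ^ (s + 1) * ((words (2 * m)).filter (fun v => ones v = r)).card <
      ∑ v ∈ (words (2 * m)).filter (fun v => ones v = r), Gw p q ((((ξ : ℤ) * a : ℤ) : ℝ) / 2 ^ W) r v)

lemma bad_count {p q : ℝ} (hp : 0 < p) (hq : 0 < q) (hpq : p + q = 1)
    {m i W r L R s : ℕ} {a k : ℤ} (hW : W = 2 * m + i) (hk : Odd k) (hRW : R ≤ 2 ^ W)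
    (ha : (2 : ℤ) ^ W ∣ 3 ^ L * a + k)
    (hrid : ∀ x d : ℤ, |x| ≤ 2 ^ i → |d| < R → (2 : ℤ) ^ W ∣ 3 ^ L * x + k * d → x = 0)
    {z : ℝ} (hz0 : 0 < z) (hz1 : z ≤ 1) :
    ((bad p q W m r s R a).card : ℝ) * ((1 - p * q / 32) ^ (s + 1) * z ^ (2 * s + 1)) ≤
      (1 + 12 * z) ^ m := by
  classical
  have hpq0 : 0 < p * q := by positivity
  have hpq1 : p * q ≤ 1 := by nlinarith
  set gs : ℝ := 1 - p * q / 32 with hgs
  have hgs0 : 0 < gs := by rw [hgs]; linarith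
  have hgs1 : gs ≤ 1 := by rw [hgs]; linarith
  set S := (words (2 * m)).filter (fun v => ones v = r) with hS
  rcases S.eq_empty_or_nonempty with hSe | hSne
  · have : bad p q W m r s R a = ∅ := by
      unfold bad
      rw [← hS, hSe]
      simp
    rw [this]
    simp only [card_empty, Nat.cast_zero, zero_mul]
    positivity
  have hc0 : (0 : ℝ) < S.card := by exact_mod_cast hSne.card_pos
  set B := bad p q W m r s R a with hB
  have hBR : B ⊆ range R := by rw [hB]; unfold bad; exact filter_subset _ _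
  -- every bad frequency has many paths with few white blocks
  have h1 : ∀ ξ ∈ B, gs ^ (s + 1) * S.card ≤
      ((S.filter (fun v => wh ((((ξ : ℤ) * a : ℤ) : ℝ) / 2 ^ W) r v ≤ s)).card : ℝ) := by
    intro ξ hξ
    rw [hB] at hξ
    unfold bad at hξ
    rw [mem_filter, ← hS, ← hgs] at hξ
    have h2 : ∑ v ∈ S, Gw p q ((((ξ : ℤ) * a : ℤ) : ℝ) / 2 ^ W) r v ≤
        ∑ v ∈ S, ((if wh ((((ξ : ℤ) * a : ℤ) : ℝ) / 2 ^ W) r v ≤ s then (1 : ℝ) else 0) + gs ^ (s + 1)) := by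
      apply sum_le_sum
      intro v hv
      rw [hS, mem_filter] at hv
      have h3 := Gw_le hp hq hpq m ((((ξ : ℤ) * a : ℤ) : ℝ) / 2 ^ W) r v hv.1
      rw [← hgs] at h3
      split_ifs with h
      · have h4 : gs ^ wh ((((ξ : ℤ) * a : ℤ) : ℝ) / 2 ^ W) r v ≤ 1 := pow_le_one₀ hgs0.le hgs1
        have h5 : 0 < gs ^ (s + 1) := by positivity
        linarith
      · have h4 : gs ^ wh ((((ξ : ℤ) * a : ℤ) : ℝ) / 2 ^ W) r v ≤ gs ^ (s + 1) :=
          pow_le_pow_of_le_one hgs0.le hgs1 (by omega)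
        linarith
    rw [sum_add_distrib, sum_const, nsmul_eq_mul, ← sum_filter, sum_const, nsmul_eq_mul, mul_one] at h2
    linarith [hξ.2]
  have h2 : (B.card : ℝ) * (gs ^ (s + 1) * S.card) ≤
      ∑ ξ ∈ B, ((S.filter (fun v => wh ((((ξ : ℤ) * a : ℤ) : ℝ) / 2 ^ W) r v ≤ s)).card : ℝ) := by
    have := Finset.card_nsmul_le_sum B _ _ h1
    rwa [nsmul_eq_mul] at this
  have h3 : ∑ ξ ∈ B, ((S.filter (fun v => wh ((((ξ : ℤ) * a : ℤ) : ℝ) / 2 ^ W) r v ≤ s)).card : ℝ) ≤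
      ∑ v ∈ S, (((range R).filter (fun ξ : ℕ => wh ((((ξ : ℤ) * a : ℤ) : ℝ) / 2 ^ W) r v ≤ s)).card : ℝ) := by
    have e1 : ∀ ξ ∈ range R, ((S.filter (fun v => wh ((((ξ : ℤ) * a : ℤ) : ℝ) / 2 ^ W) r v ≤ s)).card : ℝ) =
        ∑ v ∈ S, if wh ((((ξ : ℤ) * a : ℤ) : ℝ) / 2 ^ W) r v ≤ s then (1 : ℝ) else 0 := by
      intro ξ _
      rw [← sum_filter, sum_const, nsmul_eq_mul, mul_one]
    calc ∑ ξ ∈ B, ((S.filter (fun v => wh ((((ξ : ℤ) * a : ℤ) : ℝ) / 2 ^ W) r v ≤ s)).card : ℝ)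
        ≤ ∑ ξ ∈ range R, ((S.filter (fun v => wh ((((ξ : ℤ) * a : ℤ) : ℝ) / 2 ^ W) r v ≤ s)).card : ℝ) :=
          sum_le_sum_of_subset_of_nonneg hBR (fun _ _ _ => by positivity)
      _ = ∑ ξ ∈ range R, ∑ v ∈ S, (if wh ((((ξ : ℤ) * a : ℤ) : ℝ) / 2 ^ W) r v ≤ s then (1 : ℝ) else 0) :=
          sum_congr rfl e1
      _ = ∑ v ∈ S, ∑ ξ ∈ range R, (if wh ((((ξ : ℤ) * a : ℤ) : ℝ) / 2 ^ W) r v ≤ s then (1 : ℝ) else 0) :=
          sum_comm
      _ = _ := by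
          apply sum_congr rfl
          intro v _
          rw [← sum_filter, sum_const, nsmul_eq_mul, mul_one]
  have h4 : ∀ v ∈ S, (((range R).filter (fun ξ : ℕ => wh ((((ξ : ℤ) * a : ℤ) : ℝ) / 2 ^ W) r v ≤ s)).card : ℝ)
      ≤ (1 + 12 * z) ^ m / z ^ (2 * s + 1) := by
    intro v hv
    rw [hS, mem_filter] at hv
    rw [le_div_iff₀ (by positivity)]
    exact count_white hW hk hRW ha hrid hv.1 hv.2 hz0 hz1
  have h5 := sum_le_card_nsmul S _ _ h4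
  rw [nsmul_eq_mul] at h5
  have h6 := (h2.trans h3).trans h5
  have h7 : (B.card : ℝ) * gs ^ (s + 1) ≤ (1 + 12 * z) ^ m / z ^ (2 * s + 1) := by
    have : (B.card : ℝ) * gs ^ (s + 1) * S.card ≤ (1 + 12 * z) ^ m / z ^ (2 * s + 1) * S.card := by
      linarith
    exact le_of_mul_le_mul_right this hc0
  rw [le_div_iff₀ (by positivity)] at h7
  linarith

lemma phase_id (ξ kk g0 c1 c2 c3 t u A B : ℝ) (hA : A ≠ 0) (hB : B ≠ 0) :
    ξ * (-kk * (3 * g0) * (t * u * c1 + B * (u * c2 + A * c3)) / (A * B * B)) =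
      ξ * (-kk * (3 * g0) * (t * u) * c1 / (A * B * B)) +
        (3 * (ξ * (-kk * g0 * u) / (A * B)) * c2 + ξ * (-kk * (3 * g0) * c3 / B)) := by
  field_simp
  ring

lemma sum_split {R : ℕ} {Bd : Finset ℕ} (hBd : Bd ⊆ range R) (A1 A2 A3 : ℕ → ℝ)
    (n1 : ∀ ξ, 0 ≤ A1 ξ) (n3 : ∀ ξ, 0 ≤ A3 ξ) {c1 c2 c3 G X1 X3 Y : ℝ}
    (t1 : ∀ ξ, A1 ξ ≤ c1) (t2 : ∀ ξ, A2 ξ ≤ c2) (t3 : ∀ ξ, A3 ξ ≤ c3)
    (p1 : 0 ≤ c1) (p2 : 0 ≤ c2) (p3 : 0 ≤ c3) (pG : 0 ≤ G) (pX : 0 ≤ X1)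
    (hG : ∀ ξ ∈ range R \ Bd, A2 ξ ≤ G) (h1 : ∑ ξ ∈ range R, A1 ξ ^ 2 ≤ X1)
    (h3 : ∑ ξ ∈ range R, A3 ξ ^ 2 ≤ X3) (hY : (Bd.card : ℝ) ≤ Y) :
    ∑ ξ ∈ range R, A2 ξ * (A1 ξ * A3 ξ) ≤ G * (√X1 * √X3) + Y * (c1 * c2 * c3) := by
  rw [← sum_sdiff hBd]
  apply add_le_add
  · calc ∑ ξ ∈ range R \ Bd, A2 ξ * (A1 ξ * A3 ξ)
        ≤ ∑ ξ ∈ range R \ Bd, G * (A1 ξ * A3 ξ) := by
          apply sum_le_sum
          intro ξ hξ
          exact mul_le_mul_of_nonneg_right (hG ξ hξ) (mul_nonneg (n1 ξ) (n3 ξ))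
      _ ≤ ∑ ξ ∈ range R, G * (A1 ξ * A3 ξ) := by
          apply sum_le_sum_of_subset_of_nonneg sdiff_subset
          intro ξ _ _
          exact mul_nonneg pG (mul_nonneg (n1 ξ) (n3 ξ))
      _ = G * ∑ ξ ∈ range R, A1 ξ * A3 ξ := by rw [mul_sum]
      _ ≤ G * (√X1 * √X3) := by
          apply mul_le_mul_of_nonneg_left _ pG
          have hcs := Finset.sum_mul_sq_le_sq_mul_sq (range R) A1 A3
          rw [← Real.sqrt_mul pX]
          apply Real.le_sqrt_of_sq_le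
          refine hcs.trans ?_
          exact mul_le_mul h1 h3 (sum_nonneg fun _ _ => sq_nonneg _) pX
  · calc ∑ ξ ∈ Bd, A2 ξ * (A1 ξ * A3 ξ) ≤ ∑ ξ ∈ Bd, (c1 * c2 * c3) := by
          apply sum_le_sum
          intro ξ _
          calc A2 ξ * (A1 ξ * A3 ξ) ≤ c2 * (c1 * c3) := by
                apply mul_le_mul (t2 ξ) _ (mul_nonneg (n1 ξ) (n3 ξ)) p2
                exact mul_le_mul (t1 ξ) (t3 ξ) (n3 ξ) p1
            _ = _ := by ring
      _ = Bd.card * (c1 * c2 * c3) := by rw [sum_const, nsmul_eq_mul]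
      _ ≤ _ := mul_le_mul_of_nonneg_right hY (mul_nonneg (mul_nonneg p1 p2) p3)

/-- the integer which inverts a power of `3` -/
lemma exists_inv {k : ℤ} (hk : Odd k) {K : ℕ} (hK1 : 1 ≤ K) (o1 om o2 : ℕ) :
    ∃ g0 : ℤ, (2 : ℤ) ^ K ∣ 3 ^ (o1 + om + o2) * (3 * g0) - 1 ∧
      (2 : ℤ) ^ K ∣ 3 ^ o1 * (-k * (3 * g0) * 3 ^ (om + o2)) + k ∧
      (2 : ℤ) ^ K ∣ 3 ^ (o1 + om + 1) * (-k * g0 * 3 ^ o2) + k ∧ Odd (-k * (3 * g0)) := by
  obtain ⟨g0, hg0⟩ : ∃ g0 : ℤ, (2 : ℤ) ^ K ∣ 3 ^ (o1 + om + o2) * (3 * g0) - 1 := by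
    have hc : IsCoprime ((3 : ℤ) ^ (o1 + om + o2 + 1)) (2 ^ K) := by
      apply IsCoprime.pow
      rw [Int.isCoprime_iff_gcd_eq_one]; norm_num
    obtain ⟨u, w, huw⟩ := hc
    exact ⟨u, -w, by rw [pow_succ] at huw; linear_combination huw⟩
  have hgodd : Odd (3 * g0) := by
    rw [← Int.not_even_iff_odd]
    intro he
    have h2K : (2 : ℤ) ∣ 3 ^ (o1 + om + o2) * (3 * g0) - 1 := dvd_trans (dvd_pow_self 2 (by omega)) hg0
    obtain ⟨t, ht⟩ := he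
    obtain ⟨u, hu⟩ := h2K
    rw [ht] at hu
    have : 2 * (3 ^ (o1 + om + o2) * t - u) = 1 := by linear_combination hu
    omega
  refine ⟨g0, hg0, ?_, ?_, (Odd.neg hk).mul hgodd⟩
  · have : 3 ^ o1 * (-k * (3 * g0) * 3 ^ (om + o2)) + k = -k * (3 ^ (o1 + om + o2) * (3 * g0) - 1) := by
      rw [show o1 + om + o2 = o1 + (om + o2) by ring, pow_add 3 o1]; ring
    rw [this]; exact hg0.mul_left _
  · have : 3 ^ (o1 + om + 1) * (-k * g0 * 3 ^ o2) + k = -k * (3 ^ (o1 + om + o2) * (3 * g0) - 1) := by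
      rw [pow_add 3 (o1 + om) o2, pow_succ]; ring
    rw [this]
    exact hg0.mul_left _

/-- the factorisation of the exponential sum -/
lemma factor {i m W K o1 om o2 : ℕ} (hW : W = 2 * m + i) (hK : K = W + i) (k g0 : ℤ)
    (S1 S2 S3 : Finset (List Bool)) (h1 : ∀ v ∈ S1, v.length = i ∧ ones v = o1)
    (h2 : ∀ v ∈ S2, v.length = 2 * m ∧ ones v = om) (h3 : ∀ v ∈ S3, v.length = i ∧ ones v = o2)
    (ξ : ℕ) :
    ‖∑ v ∈ (S1 ×ˢ (S2 ×ˢ S3)).image (fun t => t.1 ++ (t.2.1 ++ t.2.2)),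
        e (ξ * (((-k * (3 * g0) * cw v : ℤ) : ℝ) / 2 ^ K))‖ =
      ‖∑ v ∈ S2, e (3 * ((((ξ : ℤ) * (-k * g0 * 3 ^ o2) : ℤ) : ℝ) / 2 ^ W) * cw v)‖ *
        (‖∑ v ∈ S1, e (ξ * (((-k * (3 * g0) * 3 ^ (om + o2) * cw v : ℤ) : ℝ) / 2 ^ K))‖ *
         ‖∑ v ∈ S3, e (ξ * (((-k * (3 * g0) * cw v : ℤ) : ℝ) / 2 ^ i))‖) := by
  have hinj : Set.InjOn (fun t : List Bool × (List Bool × List Bool) => t.1 ++ (t.2.1 ++ t.2.2))
      (S1 ×ˢ (S2 ×ˢ S3) : Finset _) := by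
    intro t ht u hu htu
    rw [mem_coe, mem_product, mem_product] at ht hu
    simp only at htu
    have l1 : t.1.length = u.1.length := by rw [(h1 _ ht.1).1, (h1 _ hu.1).1]
    have l2 : t.2.1.length = u.2.1.length := by rw [(h2 _ ht.2.1).1, (h2 _ hu.2.1).1]
    obtain ⟨e1, e2⟩ := List.append_inj htu l1
    obtain ⟨e3, e4⟩ := List.append_inj e2 l2
    exact Prod.ext e1 (Prod.ext e3 e4)
  rw [← norm_mul, ← norm_mul]
  congr 1
  rw [sum_image hinj, sum_product]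
  have e1 : ∀ X Y Z : ℂ, X * (Y * Z) = Y * (X * Z) := by intro X Y Z; ring
  rw [e1, sum_mul]
  apply sum_congr rfl
  intro v1 hv1
  rw [sum_product, sum_mul_sum, mul_sum]
  apply sum_congr rfl
  intro v2 hv2
  rw [mul_sum]
  apply sum_congr rfl
  intro v3 hv3
  simp only
  rw [← e_add, ← e_add]
  congr 1
  rw [cw_append, cw_append, ones_append, (h1 _ hv1).1, (h2 _ hv2).1, (h2 _ hv2).2, (h3 _ hv3).2]
  have p1 : (2 : ℝ) ^ K = 2 ^ W * 2 ^ i := by rw [hK, pow_add]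
  have p2 : (2 : ℝ) ^ W = 2 ^ (2 * m) * 2 ^ i := by rw [hW, pow_add]
  have p3 : (2 : ℝ) ^ i ≠ 0 := by positivity
  have p4 : (2 : ℝ) ^ (2 * m) ≠ 0 := by positivity
  rw [p1, p2]
  push_cast
  rw [pow_add (3 : ℝ) om o2]
  exact phase_id _ _ _ _ _ _ _ _ _ _ p4 p3

/-- THE BOUND FOR ONE TYPE -/
theorem type_bound {p q : ℝ} (hp : 0 < p) (hq : 0 < q) (hpq : p + q = 1) {k : ℤ} (hk : Odd k)
    {i m W K R Q o1 om o2 s : ℕ} (hi : 1 ≤ i) (hW : W = 2 * m + i) (hK : K = W + i) (hR0 : 0 < R)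
    (hR : 8 * R ≤ 2 ^ i) (hR3 : R ≤ 3 ^ o1) (hom : om ≤ 2 * m)
    (hsm : ((2 : ℝ) ^ i) * (2 * Real.pi * R * |(k : ℝ)| * (Q * i)) ≤ 2 ^ K)
    (hrid : ∀ x d : ℤ, |x| ≤ 2 ^ i → |d| < R → (2 : ℤ) ^ W ∣ 3 ^ (o1 + om + 1) * x + k * d → x = 0)
    {z : ℝ} (hz0 : 0 < z) (hz1 : z ≤ 1) (S1 S2 S3 : Finset (List Bool))
    (h1 : ∀ v ∈ S1, v.length = i ∧ ones v = o1 ∧ Pre Q v)
    (h2 : S2 = (words (2 * m)).filter (fun v => ones v = om))
    (h3 : ∀ v ∈ S3, v.length = i ∧ ones v = o2) (hne : 1 ≤ S1.card)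
    (u : ℤ) (B : Finset ℤ) (hB : ∀ x ∈ B, |x - u| ≤ 2 ^ W ∧ ∃ v1 ∈ S1, ∃ v2 ∈ S2, ∃ v3 ∈ S3,
      wd k K x = v1 ++ (v2 ++ v3)) :
    (B.card : ℝ) ≤ 4 / R * (√(2 * (1 - p * q / 32) ^ (s + 1) * S2.card / (p ^ om * q ^ (2 * m - om))) *
      (√(3 ^ o1 * S1.card * (4 * Q * |(k : ℝ)| * i + 4)) * √(2 ^ i * S3.card)) +
      (1 + 12 * z) ^ m / ((1 - p * q / 32) ^ (s + 1) * z ^ (2 * s + 1)) *
        (S1.card * S2.card * S3.card)) := by
  classical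
  have hpq0 : 0 < p * q := mul_pos hp hq
  have hpq1 : p * q ≤ 1 := by nlinarith
  have hgs0 : (0 : ℝ) < 1 - p * q / 32 := by linarith
  have hk0 : k ≠ 0 := by rintro rfl; simp at hk
  obtain ⟨g0, hgo, h1a, h2a, h3a⟩ := exists_inv hk (K := K) (by omega) o1 om o2
  have h2a' : (2 : ℤ) ^ W ∣ 3 ^ (o1 + om + 1) * (-k * g0 * 3 ^ o2) + k :=
    dvd_trans (pow_dvd_pow 2 (by omega)) h2a
  have h2' : ∀ v ∈ S2, v.length = 2 * m ∧ ones v = om := by
    intro v hv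
    rw [h2, mem_filter, mem_words] at hv
    exact hv
  have hSK : (S1 ×ˢ (S2 ×ˢ S3)).image (fun t => t.1 ++ (t.2.1 ++ t.2.2)) ⊆ words K := by
    intro v hv
    rw [mem_image] at hv
    obtain ⟨t, ht, rfl⟩ := hv
    rw [mem_product, mem_product] at ht
    rw [mem_words]
    simp only [List.length_append]
    rw [(h1 _ ht.1).1, (h2' _ ht.2.1).1, (h3 _ ht.2.2).1]
    omega
  have hSo : ∀ v ∈ (S1 ×ˢ (S2 ×ˢ S3)).image (fun t => t.1 ++ (t.2.1 ++ t.2.2)),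
      ones v = o1 + om + o2 := by
    intro v hv
    rw [mem_image] at hv
    obtain ⟨t, ht, rfl⟩ := hv
    rw [mem_product, mem_product] at ht
    simp only [ones_append]
    rw [(h1 _ ht.1).2.1, (h2' _ ht.2.1).2, (h3 _ ht.2.2).2]
    omega
  have hcount := count_four hk (K := K) hR0 _ hSK hSo hgo u B (by
    intro x hx
    obtain ⟨hx1, v1, hv1, v2, hv2, v3, hv3, hw⟩ := hB x hx
    constructor
    · have h8 : (8 * R : ℤ) ≤ 2 ^ i := by exact_mod_cast hR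
      rw [hK, pow_add]
      exact mul_le_mul hx1 h8 (by positivity) (by positivity)
    · rw [hw, mem_image]
      exact ⟨(v1, (v2, v3)), by simp [hv1, hv2, hv3], rfl⟩)
  refine hcount.trans (mul_le_mul_of_nonneg_left ?_ (by positivity))
  rw [sum_congr rfl (fun ξ _ => factor hW hK k g0 S1 S2 S3
    (fun v hv => ⟨(h1 v hv).1, (h1 v hv).2.1⟩) h2' h3 ξ)]
  have tr : ∀ (S : Finset (List Bool)) (f : List Bool → ℝ), ‖∑ v ∈ S, e (f v)‖ ≤ S.card := by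
    intro S f
    refine (norm_sum_le _ _).trans ?_
    rw [sum_congr rfl (fun v _ => norm_e (f v)), sum_const, nsmul_eq_mul, mul_one]
  have hRi : R ≤ 2 ^ i := by omega
  have hRW : R ≤ 2 ^ W := hRi.trans (Nat.pow_le_pow_right (by norm_num) (by omega))
  have hP0 : 0 < p ^ om * q ^ (2 * m - om) := mul_pos (pow_pos hp _) (pow_pos hq _)
  apply sum_split (Bd := bad p q W m om s R (-k * g0 * 3 ^ o2))
    (by unfold bad; exact filter_subset _ _) _ _ _ (fun ξ => norm_nonneg _) (fun ξ => norm_nonneg _)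
    (fun ξ => tr _ _) (fun ξ => tr _ _) (fun ξ => tr _ _) (Nat.cast_nonneg _) (Nat.cast_nonneg _)
    (Nat.cast_nonneg _) (Real.sqrt_nonneg _) (by positivity)
  · intro ξ hξ
    rw [mem_sdiff] at hξ
    apply Real.le_sqrt_of_sq_le
    rw [le_div_iff₀ hP0]
    have h4 := mid_bound hp hq m om ((((ξ : ℤ) * (-k * g0 * 3 ^ o2) : ℤ) : ℝ) / 2 ^ W) hom
    rw [← h2] at h4
    refine h4.trans ?_
    by_contra hcon
    push Not at hcon
    apply hξ.2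
    unfold bad
    rw [mem_filter]
    refine ⟨hξ.1, ?_⟩
    rw [← h2]
    exact hcon
  · apply l2_bot h1a hk0 hR3 S1 hne (fun v hv => by
      obtain ⟨q1, q2, q3⟩ := h1 v hv
      refine ⟨q1, q2, ?_⟩
      have := cw_le q3
      rwa [q1, q2] at this) (by
      refine le_trans ?_ hsm
      apply mul_le_mul_of_nonneg_right _ (by positivity)
      have : S1.card ≤ (words i).card := card_le_card (fun v hv => mem_words.2 (h1 v hv).1)
      rw [card_words] at this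
      exact_mod_cast this)
  · exact l2_top hRi h3a S3 h3
  · rw [le_div_iff₀ (mul_pos (pow_pos hgs0 _) (pow_pos hz0 _))]
    exact bad_count hp hq hpq (r := om) (s := s) hW hk hRW h2a' hrid hz0 hz1

end Pool.Agent.TH930.EBQ
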