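import Pool.Agent.TH930.EBQ.Four

/-! The sums over the middle letters. -/

set_option autoImplicit false

namespace Pool.Agent.TH930.EBQ

open Finset

/-- the product of the moduli of the mixed blocks -/
noncomputable def Pw : ℝ → ℕ → List Bool → ℝ
  | θ, r, (a :: b :: v) =>
    (if a ≠ b then |Real.cos (Real.pi * (3 ^ r * θ))| else 1) * Pw (4 * θ) (r - ones [a, b]) v
  | _, _, _ => 1

/-- the product of the conditional mean squares -/
noncomputable def Gw (p q : ℝ) : ℝ → ℕ → List Bool → ℝ
  | θ, r, (a :: b :: v) =>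
    (p ^ 2 + q ^ 2 + 2 * p * q * Real.cos (Real.pi * (3 ^ r * θ)) ^ 2) *
      Gw p q (4 * θ) (r - ones [a, b]) v
  | _, _, _ => 1

/-- the probability of a word -/
noncomputable def Pr (p q : ℝ) : List Bool → ℝ
  | [] => 1
  | (b :: v) => (if b then p else q) * Pr p q v

lemma Pw_nil (θ : ℝ) (r : ℕ) : Pw θ r [] = 1 := by simp [Pw]

lemma Pw_cons (θ : ℝ) (r : ℕ) (a b : Bool) (v : List Bool) : Pw θ r (a :: b :: v) =
    (if a ≠ b then |Real.cos (Real.pi * (3 ^ r * θ))| else 1) * Pw (4 * θ) (r - ones [a, b]) v := rfl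

lemma Gw_nil (p q θ : ℝ) (r : ℕ) : Gw p q θ r [] = 1 := by simp [Gw]

lemma Gw_cons (p q θ : ℝ) (r : ℕ) (a b : Bool) (v : List Bool) : Gw p q θ r (a :: b :: v) =
    (p ^ 2 + q ^ 2 + 2 * p * q * Real.cos (Real.pi * (3 ^ r * θ)) ^ 2) *
      Gw p q (4 * θ) (r - ones [a, b]) v := rfl

lemma Pr_pos {p q : ℝ} (hp : 0 < p) (hq : 0 < q) (v : List Bool) : 0 < Pr p q v := by
  induction v with
  | nil => simp [Pr]
  | cons b v ih =>
    simp only [Pr]
    cases b <;> simp <;> positivity

lemma Pr_eq (p q : ℝ) (v : List Bool) : Pr p q v = p ^ ones v * q ^ (v.length - ones v) := by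
  induction v with
  | nil => simp [Pr]
  | cons b v ih =>
    have h1 := ones_le_length v
    simp only [Pr]
    cases b
    · simp only [Bool.false_eq_true, if_false, ones_cons_false, List.length_cons]
      rw [ih, show v.length + 1 - ones v = (v.length - ones v) + 1 by omega, pow_succ]
      ring
    · simp only [if_true, ones_cons_true, List.length_cons]
      rw [ih, show v.length + 1 - (ones v + 1) = v.length - ones v by omega, pow_succ]
      ring

lemma sum_words_two {α : Type*} [AddCommMonoid α] (m : ℕ) (f : List Bool → α) :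
    ∑ v ∈ words (2 * (m + 1)), f v = ∑ v ∈ words (2 * m),
      ((f (true :: true :: v) + f (true :: false :: v)) +
        (f (false :: true :: v) + f (false :: false :: v))) := by
  rw [show 2 * (m + 1) = (2 * m + 1) + 1 by ring, sum_words_succ, sum_words_succ]
  apply sum_congr rfl
  intro v _
  rw [add_add_add_comm]

lemma g_pos {p q : ℝ} (hp : 0 < p) (hq : 0 < q) (x : ℝ) :
    0 < p ^ 2 + q ^ 2 + 2 * p * q * Real.cos x ^ 2 := by positivity

lemma Gw_pos {p q : ℝ} (hp : 0 < p) (hq : 0 < q) : ∀ (m : ℕ) (θ : ℝ) (r : ℕ) (v : List Bool),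
    v ∈ words (2 * m) → 0 < Gw p q θ r v := by
  intro m
  induction m with
  | zero =>
    intro θ r v hv
    rw [mem_words, List.length_eq_zero_iff.eq] at hv
    · rw [hv, Gw_nil]; exact one_pos
  | succ m ih =>
    intro θ r v hv
    rw [mem_words] at hv
    match v, hv with
    | (a :: b :: v), hv =>
      rw [Gw_cons]
      apply mul_pos (g_pos hp hq _)
      apply ih
      rw [mem_words]
      simp only [List.length_cons] at hv
      omega

lemma martingale {p q : ℝ} (hp : 0 < p) (hq : 0 < q) : ∀ (m : ℕ) (θ : ℝ) (r : ℕ),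
    ∑ v ∈ words (2 * m), Pr p q v * Pw θ r v ^ 2 / Gw p q θ r v = (p + q) ^ (0 * m) := by
  intro m
  induction m with
  | zero => intro θ r; simp [words, Pr, Pw_nil, Gw_nil]
  | succ m ih =>
    intro θ r
    rw [sum_words_two]
    set c : ℝ := Real.cos (Real.pi * (3 ^ r * θ)) with hc
    set g : ℝ := p ^ 2 + q ^ 2 + 2 * p * q * c ^ 2 with hg
    have hg0 : 0 < g := g_pos hp hq _
    have h1 : ∀ v ∈ words (2 * m),
        ((Pr p q (true :: true :: v) * Pw θ r (true :: true :: v) ^ 2 / Gw p q θ r (true :: true :: v) +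
          Pr p q (true :: false :: v) * Pw θ r (true :: false :: v) ^ 2 / Gw p q θ r (true :: false :: v)) +
        (Pr p q (false :: true :: v) * Pw θ r (false :: true :: v) ^ 2 / Gw p q θ r (false :: true :: v) +
          Pr p q (false :: false :: v) * Pw θ r (false :: false :: v) ^ 2 / Gw p q θ r (false :: false :: v)))
        = p ^ 2 / g * (Pr p q v * Pw (4 * θ) (r - 2) v ^ 2 / Gw p q (4 * θ) (r - 2) v) +
          2 * p * q * c ^ 2 / g * (Pr p q v * Pw (4 * θ) (r - 1) v ^ 2 / Gw p q (4 * θ) (r - 1) v) +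
          q ^ 2 / g * (Pr p q v * Pw (4 * θ) r v ^ 2 / Gw p q (4 * θ) r v) := by
      intro v hv
      have g1 := (Gw_pos hp hq m (4 * θ) (r - 2) v hv).ne'
      have g2 := (Gw_pos hp hq m (4 * θ) (r - 1) v hv).ne'
      have g3 := (Gw_pos hp hq m (4 * θ) r v hv).ne'
      have g0 := hg0.ne'
      have o1 : ones [true, true] = 2 := rfl
      have o2 : ones [true, false] = 1 := rfl
      have o3 : ones [false, true] = 1 := rfl
      have o4 : ones [false, false] = 0 := rfl
      simp only [Pw_cons, Gw_cons, Pr, o1, o2, o3, o4, ne_eq, not_true_eq_false, if_false, if_true,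
        reduceCtorEq, not_false_eq_true, Bool.false_eq_true, Nat.sub_zero, mul_pow, sq_abs, one_pow,
        one_mul, Bool.true_eq_false]
      rw [← hc, ← hg]
      field_simp
      ring
    rw [sum_congr rfl h1, sum_add_distrib, sum_add_distrib, ← mul_sum, ← mul_sum, ← mul_sum, ih, ih, ih]
    simp only [zero_mul, pow_zero, mul_one]
    rw [← add_div, ← add_div, div_eq_one_iff_eq hg0.ne', hg]
    ring

/-- Cauchy-Schwarz with the conditional mean squares -/
lemma cauchy {p q : ℝ} (hp : 0 < p) (hq : 0 < q) (m : ℕ) (θ : ℝ) (r : ℕ) (S : Finset (List Bool))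
    (hS : S ⊆ words (2 * m)) :
    (∑ v ∈ S, Pr p q v * Pw θ r v) ^ 2 ≤ ∑ v ∈ S, Pr p q v * Gw p q θ r v := by
  have h1 := Finset.sum_sq_le_sum_mul_sum_of_sq_eq_mul S
    (r := fun v => Pr p q v * Pw θ r v)
    (f := fun v => Pr p q v * Pw θ r v ^ 2 / Gw p q θ r v) (g := fun v => Pr p q v * Gw p q θ r v)
    (fun v hv => div_nonneg (mul_nonneg (Pr_pos hp hq v).le (sq_nonneg _))
      (Gw_pos hp hq m θ r v (hS hv)).le)
    (fun v hv => mul_nonneg (Pr_pos hp hq v).le (Gw_pos hp hq m θ r v (hS hv)).le)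
    (fun v hv => by
      have := (Gw_pos hp hq m θ r v (hS hv)).ne'
      field_simp)
  have h2 : ∑ v ∈ S, Pr p q v * Pw θ r v ^ 2 / Gw p q θ r v ≤ 1 := by
    have h3 := martingale hp hq m θ r
    simp only [zero_mul, pow_zero] at h3
    rw [← h3]
    apply sum_le_sum_of_subset_of_nonneg hS
    intro v hv _
    exact div_nonneg (mul_nonneg (Pr_pos hp hq v).le (sq_nonneg _)) (Gw_pos hp hq m θ r v hv).le
  have h4 : 0 ≤ ∑ v ∈ S, Pr p q v * Gw p q θ r v :=
    sum_nonneg fun v hv => mul_nonneg (Pr_pos hp hq v).le (Gw_pos hp hq m θ r v (hS hv)).le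
  exact h1.trans (mul_le_of_le_one_left h4 h2)

lemma shift_bound {m c r : ℕ} {θ : ℝ} (z : ℕ → ℂ)
    (ih : ∀ r : ℕ, ‖∑ v ∈ words m, if ones v = r then e (3 * θ * cw v) else 0‖ ≤
      ∑ v ∈ words m, if ones v = r then Pw θ r v else 0) :
    ‖∑ v ∈ words m, if ones v + c = r then z (ones v) * e (3 * θ * cw v) else 0‖ ≤
      ∑ v ∈ words m, if ones v + c = r then ‖z (r - c)‖ * Pw θ (r - c) v else 0 := by
  rcases le_or_gt c r with h | h
  · obtain ⟨s, rfl⟩ := Nat.exists_eq_add_of_le' h
    have e1 : ∀ v : List Bool, (ones v + c = s + c) ↔ ones v = s := by intro v; omega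
    simp only [e1, Nat.add_sub_cancel]
    have h1 : ∀ v ∈ words m, (if ones v = s then z (ones v) * e (3 * θ * cw v) else 0) =
        z s * (if ones v = s then e (3 * θ * cw v) else 0) := by
      intro v _
      split_ifs with hv
      · rw [hv]
      · rw [mul_zero]
    have h2 : ∀ v ∈ words m, (if ones v = s then ‖z s‖ * Pw θ s v else 0) =
        ‖z s‖ * (if ones v = s then Pw θ s v else 0) := by
      intro v _
      split_ifs with hv
      · rfl
      · rw [mul_zero]
    rw [sum_congr rfl h1, sum_congr rfl h2, ← mul_sum, ← mul_sum, norm_mul]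
    exact mul_le_mul_of_nonneg_left (ih s) (norm_nonneg _)
  · have e1 : ∀ v : List Bool, (ones v + c = r) ↔ False := by
      intro v; constructor
      · intro h1; omega
      · exact False.elim
    simp [e1]

lemma mid_le (m : ℕ) : ∀ (θ : ℝ) (r : ℕ),
    ‖∑ v ∈ words (2 * m), if ones v = r then e (3 * θ * cw v) else 0‖ ≤
      ∑ v ∈ words (2 * m), if ones v = r then Pw θ r v else 0 := by
  induction m with
  | zero =>
    intro θ r
    simp only [mul_zero, words, sum_singleton, ones_nil, Pw_nil, cw_nil, Nat.cast_zero, e_zero]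
    split_ifs
    · simp
    · simp
  | succ m ih =>
    intro θ r
    rw [sum_words_two, sum_words_two]
    have o1 : ones [true, true] = 2 := rfl
    have o2 : ones [true, false] = 1 := rfl
    have o3 : ones [false, true] = 1 := rfl
    have o4 : ones [false, false] = 0 := rfl
    set z1 : ℕ → ℂ := fun s => e (3 * θ * (5 * 3 ^ s)) with hz1
    set z2 : ℕ → ℂ := fun s => e (3 * θ * 3 ^ s) + e (3 * θ * (2 * 3 ^ s)) with hz2
    have h1 : ∀ v ∈ words (2 * m),
        (((if ones (true :: true :: v) = r then e (3 * θ * cw (true :: true :: v)) else 0) +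
          (if ones (true :: false :: v) = r then e (3 * θ * cw (true :: false :: v)) else 0)) +
         ((if ones (false :: true :: v) = r then e (3 * θ * cw (false :: true :: v)) else 0) +
          (if ones (false :: false :: v) = r then e (3 * θ * cw (false :: false :: v)) else 0)))
        = ((if ones v + 2 = r then z1 (ones v) * e (3 * (4 * θ) * cw v) else 0) +
          (if ones v + 1 = r then z2 (ones v) * e (3 * (4 * θ) * cw v) else 0)) +
          (if ones v + 0 = r then (fun _ => (1 : ℂ)) (ones v) * e (3 * (4 * θ) * cw v) else 0) := by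
      intro v _
      simp only [ones_cons_true, ones_cons_false, cw_cons_true, cw_cons_false, add_zero, one_mul]
      have a1 : e (3 * θ * ((3 ^ (ones v + 1) + 2 * (3 ^ ones v + 2 * cw v) : ℕ) : ℝ)) =
          z1 (ones v) * e (3 * (4 * θ) * cw v) := by
        rw [hz1]; simp only; rw [← e_add]; congr 1; push_cast; ring
      have a2 : e (3 * θ * ((3 ^ ones v + 2 * (2 * cw v) : ℕ) : ℝ)) +
          e (3 * θ * ((2 * (3 ^ ones v + 2 * cw v) : ℕ) : ℝ)) =
          z2 (ones v) * e (3 * (4 * θ) * cw v) := by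
        rw [hz2]; simp only; rw [add_mul, ← e_add, ← e_add]
        congr 1 <;> congr 1 <;> push_cast <;> ring
      have a3 : e (3 * θ * ((2 * (2 * cw v) : ℕ) : ℝ)) = e (3 * (4 * θ) * cw v) := by
        congr 1; push_cast; ring
      have e2 : ones v + 1 + 1 = ones v + 2 := rfl
      rw [e2, a1, a3, ← a2]
      split_ifs <;> first | omega | ring
    have h2 : ∀ v ∈ words (2 * m),
        (((if ones (true :: true :: v) = r then Pw θ r (true :: true :: v) else 0) +
          (if ones (true :: false :: v) = r then Pw θ r (true :: false :: v) else 0)) +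
         ((if ones (false :: true :: v) = r then Pw θ r (false :: true :: v) else 0) +
          (if ones (false :: false :: v) = r then Pw θ r (false :: false :: v) else 0)))
        = ((if ones v + 2 = r then 1 * Pw (4 * θ) (r - 2) v else 0) +
          (if ones v + 1 = r then (2 * |Real.cos (Real.pi * (3 ^ r * θ))|) * Pw (4 * θ) (r - 1) v else 0)) +
          (if ones v + 0 = r then 1 * Pw (4 * θ) (r - 0) v else 0) := by
      intro v _
      simp only [ones_cons_true, ones_cons_false, Pw_cons, o1, o2, o3, o4, ne_eq, not_true_eq_false,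
        if_false, if_true, reduceCtorEq, not_false_eq_true, add_zero, Nat.sub_zero,
        Bool.true_eq_false, one_mul]
      have e2 : ones v + 1 + 1 = ones v + 2 := rfl
      rw [e2]
      split_ifs <;> first | omega | ring
    rw [sum_congr rfl h1, sum_congr rfl h2, sum_add_distrib, sum_add_distrib, sum_add_distrib,
      sum_add_distrib]
    have b1 := shift_bound (m := 2 * m) (c := 2) (r := r) z1 (ih (4 * θ))
    have b2 := shift_bound (m := 2 * m) (c := 1) (r := r) z2 (ih (4 * θ))
    have b3 := shift_bound (m := 2 * m) (c := 0) (r := r) (fun _ => (1 : ℂ)) (ih (4 * θ))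
    have n1 : ‖z1 (r - 2)‖ = 1 := norm_e _
    rw [n1] at b1
    rw [norm_one] at b3
    have b2' : ‖∑ v ∈ words (2 * m), if ones v + 1 = r then z2 (ones v) * e (3 * (4 * θ) * cw v) else 0‖ ≤
        ∑ v ∈ words (2 * m), if ones v + 1 = r then
          (2 * |Real.cos (Real.pi * (3 ^ r * θ))|) * Pw (4 * θ) (r - 1) v else 0 := by
      refine b2.trans (le_of_eq (sum_congr rfl fun v _ => ?_))
      split_ifs with hv
      · have n2 : ‖z2 (r - 1)‖ = 2 * |Real.cos (Real.pi * (3 ^ r * θ))| := by
          have e3 : z2 (r - 1) = e (3 * θ * 3 ^ (r - 1)) * (1 + e (3 ^ r * θ)) := by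
            rw [hz2]; simp only
            rw [mul_add, mul_one, ← e_add]
            congr 2
            have e4 : (3 : ℝ) ^ r = 3 * 3 ^ (r - 1) := by
              rw [← pow_succ']; congr 1; omega
            rw [e4]; ring
          rw [e3, norm_mul, norm_e, one_mul, norm_one_add_e]
        rw [n2]
      · rfl
    refine (norm_add_le _ _).trans (add_le_add ((norm_add_le _ _).trans (add_le_add b1 b2')) ?_)
    simpa using b3

/-- THE BOUND FOR THE MIDDLE LETTERS -/
lemma mid_bound {p q : ℝ} (hp : 0 < p) (hq : 0 < q) (m r : ℕ) (θ : ℝ) (hr : r ≤ 2 * m) :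
    ‖∑ v ∈ (words (2 * m)).filter (fun v => ones v = r), e (3 * θ * cw v)‖ ^ 2 *
      (p ^ r * q ^ (2 * m - r)) ≤
      ∑ v ∈ (words (2 * m)).filter (fun v => ones v = r), Gw p q θ r v := by
  set S := (words (2 * m)).filter (fun v => ones v = r) with hS
  set P : ℝ := p ^ r * q ^ (2 * m - r) with hP
  have hP0 : 0 < P := by positivity
  have h1 := mid_le m θ r
  rw [← sum_filter, ← sum_filter, ← hS] at h1
  have h2 := cauchy hp hq m θ r S (filter_subset _ _)
  have h3 : ∀ v ∈ S, Pr p q v = P := by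
    intro v hv
    rw [hS, mem_filter, mem_words] at hv
    rw [Pr_eq, hv.1, hv.2]
  have h4 : ∑ v ∈ S, Pr p q v * Pw θ r v = P * ∑ v ∈ S, Pw θ r v := by
    rw [mul_sum]; exact sum_congr rfl fun v hv => by rw [h3 v hv]
  have h5 : ∑ v ∈ S, Pr p q v * Gw p q θ r v = P * ∑ v ∈ S, Gw p q θ r v := by
    rw [mul_sum]; exact sum_congr rfl fun v hv => by rw [h3 v hv]
  rw [h4, h5] at h2
  have h6 : ‖∑ v ∈ S, e (3 * θ * cw v)‖ ^ 2 ≤ (∑ v ∈ S, Pw θ r v) ^ 2 :=
    pow_le_pow_left₀ (norm_nonneg _) h1 2
  have h7 : P * ((∑ v ∈ S, Pw θ r v) ^ 2 * P) ≤ P * ∑ v ∈ S, Gw p q θ r v := by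
    calc P * ((∑ v ∈ S, Pw θ r v) ^ 2 * P) = (P * ∑ v ∈ S, Pw θ r v) ^ 2 := by ring
      _ ≤ _ := h2
  have h8 := le_of_mul_le_mul_left h7 hP0
  exact (mul_le_mul_of_nonneg_right h6 hP0.le).trans h8

end Pool.Agent.TH930.EBQ
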