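import Pool.Agent.TH930.EBQ.CS

/-! Counting the frequencies with few white blocks by their carries. -/

set_option autoImplicit false

namespace Pool.Agent.TH930.EBQ

open Finset

/-- the signed distance to the nearest integer -/
noncomputable def psi (x : ℝ) : ℝ := x - round x

lemma abs_psi (x : ℝ) : |psi x| ≤ 1 / 2 := abs_sub_round x

open Classical in
/-- the number of white blocks -/
noncomputable def wh : ℝ → ℕ → List Bool → ℕ
  | θ, r, (a :: b :: v) =>
    (if 1 / 16 ≤ |psi (3 ^ r * θ)| then 1 else 0) + wh (4 * θ) (r - ones [a, b]) v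
  | _, _, _ => 0

/-- the carries -/
noncomputable def car : ℝ → ℕ → List Bool → List ℤ
  | θ, r, (a :: b :: v) =>
    (4 * round (3 ^ r * θ) - 3 ^ ones [a, b] * round (3 ^ (r - ones [a, b]) * (4 * θ))) ::
      car (4 * θ) (r - ones [a, b]) v
  | _, _, _ => []

open Classical in
lemma wh_cons (θ : ℝ) (r : ℕ) (a b : Bool) (v : List Bool) : wh θ r (a :: b :: v) =
    (if 1 / 16 ≤ |psi (3 ^ r * θ)| then 1 else 0) + wh (4 * θ) (r - ones [a, b]) v := rfl

lemma car_cons (θ : ℝ) (r : ℕ) (a b : Bool) (v : List Bool) : car θ r (a :: b :: v) =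
    (4 * round (3 ^ r * θ) - 3 ^ ones [a, b] * round (3 ^ (r - ones [a, b]) * (4 * θ))) ::
      car (4 * θ) (r - ones [a, b]) v := rfl

/-- number of nonzero entries -/
def nz (c : List ℤ) : ℕ := (c.filter (fun x => x ≠ 0)).length

@[simp] lemma nz_nil : nz [] = 0 := rfl

lemma nz_cons (x : ℤ) (c : List ℤ) : nz (x :: c) = (if x = 0 then 0 else 1) + nz c := by
  unfold nz
  by_cases h : x = 0
  · simp [h]
  · simp [h]; ring

/-- the lists with entries in `[-6, 6]` -/
noncomputable def cl : ℕ → Finset (List ℤ)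
  | 0 => {[]}
  | m + 1 => ((Icc (-6 : ℤ) 6) ×ˢ cl m).image (fun p => p.1 :: p.2)

lemma sum_cl (z : ℝ) (m : ℕ) : ∑ c ∈ cl m, z ^ nz c = (1 + 12 * z) ^ m := by
  induction m with
  | zero => simp [cl]
  | succ m ih =>
    rw [cl, sum_image, sum_product]
    · have h1 : ∀ x ∈ Icc (-6 : ℤ) 6, ∑ c ∈ cl m, z ^ nz (x :: c) =
          (if x = 0 then 1 else z) * (1 + 12 * z) ^ m := by
        intro x _
        rw [← ih, mul_sum]
        apply sum_congr rfl
        intro c _
        rw [nz_cons]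
        split_ifs
        · rw [zero_add, one_mul]
        · rw [pow_add, pow_one]
      simp only
      rw [sum_congr rfl h1, ← sum_mul, pow_succ, mul_comm]
      congr 1
      have h2 : Icc (-6 : ℤ) 6 = {-6, -5, -4, -3, -2, -1, 0, 1, 2, 3, 4, 5, 6} := by decide
      rw [h2]
      simp
      ring
    · intro p _ q _ h
      simp only [List.cons.injEq] at h
      exact Prod.ext h.1 h.2

lemma cl_cons {m : ℕ} {x : ℤ} {c : List ℤ} (hx : |x| ≤ 6) (hc : c ∈ cl m) : x :: c ∈ cl (m + 1) := by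
  rw [cl, mem_image]
  refine ⟨(x, c), ?_, rfl⟩
  rw [mem_product, mem_Icc, ← abs_le]
  exact ⟨hx, hc⟩

/-- one carry -/
lemma carry_eq {θ : ℝ} {r u : ℕ} (hu : u ≤ r) :
    ((4 * round (3 ^ r * θ) - 3 ^ u * round (3 ^ (r - u) * (4 * θ)) : ℤ) : ℝ) =
      3 ^ u * psi (3 ^ (r - u) * (4 * θ)) - 4 * psi (3 ^ r * θ) := by
  unfold psi
  push_cast
  have h : (3 : ℝ) ^ r = 3 ^ u * 3 ^ (r - u) := by rw [← pow_add]; congr 1; omega
  rw [h]
  ring

lemma ones_two (a b : Bool) : ones [a, b] ≤ 2 := by cases a <;> cases b <;> simp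

lemma car_mem (m : ℕ) : ∀ (θ : ℝ) (r : ℕ) (v : List Bool), v ∈ words (2 * m) → ones v = r →
    car θ r v ∈ cl m := by
  induction m with
  | zero =>
    intro θ r v hv _
    rw [mem_words, mul_zero, List.length_eq_zero_iff] at hv
    rw [hv]; simp [car, cl]
  | succ m ih =>
    intro θ r v hv ho
    rw [mem_words] at hv
    match v, hv, ho with
    | (a :: b :: v), hv, ho =>
      have h1 : ones (a :: b :: v) = ones [a, b] + ones v := ones_append [a, b] v
      have hu : ones [a, b] ≤ r := by omega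
      rw [car_cons]
      apply cl_cons
      · have h2 := carry_eq (θ := θ) hu
        have h3 := abs_psi (3 ^ (r - ones [a, b]) * (4 * θ))
        have h4 := abs_psi (3 ^ r * θ)
        have h5 : ((3 : ℝ) ^ ones [a, b]) ≤ 9 := by
          calc (3 : ℝ) ^ ones [a, b] ≤ 3 ^ 2 := pow_le_pow_right₀ (by norm_num) (ones_two a b)
            _ = 9 := by norm_num
        have h6 : |((4 * round (3 ^ r * θ) - 3 ^ ones [a, b] * round (3 ^ (r - ones [a, b]) * (4 * θ)) : ℤ) : ℝ)|
            < 7 := by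
          rw [h2]
          have h7 : |(3 : ℝ) ^ ones [a, b] * psi (3 ^ (r - ones [a, b]) * (4 * θ))| ≤ 9 * (1 / 2) := by
            rw [abs_mul, abs_of_pos (by positivity : (0 : ℝ) < 3 ^ ones [a, b])]
            exact mul_le_mul h5 h3 (abs_nonneg _) (by norm_num)
          have h8 : |4 * psi (3 ^ r * θ)| ≤ 4 * (1 / 2) := by
            rw [abs_mul, abs_of_pos (by norm_num : (0 : ℝ) < 4)]
            linarith
          have := abs_sub ((3 : ℝ) ^ ones [a, b] * psi (3 ^ (r - ones [a, b]) * (4 * θ))) (4 * psi (3 ^ r * θ))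
          linarith
        have h9 : |4 * round (3 ^ r * θ) - 3 ^ ones [a, b] * round (3 ^ (r - ones [a, b]) * (4 * θ))| < 7 := by
          exact_mod_cast h6
        omega
      · apply ih
        · rw [mem_words]
          simp only [List.length_cons] at hv
          omega
        · omega

lemma nz_le (m : ℕ) : ∀ (θ : ℝ) (r : ℕ) (v : List Bool), v ∈ words (2 * m) → ones v = r →
    nz (car θ r v) ≤ 2 * wh θ r v + 1 ∧ (0 < m → 1 / 16 ≤ |psi (3 ^ r * θ)| →
      nz (car θ r v) ≤ 2 * wh θ r v) := by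
  induction m with
  | zero =>
    intro θ r v hv _
    rw [mem_words, mul_zero, List.length_eq_zero_iff] at hv
    rw [hv]; simp [car]
  | succ m ih =>
    intro θ r v hv ho
    rw [mem_words] at hv
    match v, hv, ho with
    | (a :: b :: v), hv, ho =>
      have h1 : ones (a :: b :: v) = ones [a, b] + ones v := ones_append [a, b] v
      have hu : ones [a, b] ≤ r := by omega
      have hv' : v ∈ words (2 * m) := by
        rw [mem_words]
        simp only [List.length_cons] at hv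
        omega
      obtain ⟨i1, i2⟩ := ih (4 * θ) (r - ones [a, b]) v hv' (by omega)
      rw [car_cons, nz_cons, wh_cons]
      by_cases hw : 1 / 16 ≤ |psi (3 ^ r * θ)|
      · rw [if_pos hw]
        constructor
        · split_ifs <;> omega
        · intro _ _
          split_ifs <;> omega
      · rw [if_neg hw]
        refine ⟨?_, fun _ h => absurd h hw⟩
        rcases Nat.eq_zero_or_pos m with hm | hm
        · have : nz (car (4 * θ) (r - ones [a, b]) v) = 0 := by
            rw [hm, mem_words, mul_zero, List.length_eq_zero_iff] at hv'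
            rw [hv']; rfl
          rw [this]
          split_ifs <;> omega
        · by_cases hw' : 1 / 16 ≤ |psi (3 ^ (r - ones [a, b]) * (4 * θ))|
          · have := i2 hm hw'
            split_ifs <;> omega
          · have h2 := carry_eq (θ := θ) hu
            push Not at hw hw'
            have h5 : ((3 : ℝ) ^ ones [a, b]) ≤ 9 := by
              calc (3 : ℝ) ^ ones [a, b] ≤ 3 ^ 2 := pow_le_pow_right₀ (by norm_num) (ones_two a b)
                _ = 9 := by norm_num
            have h6 : |((4 * round (3 ^ r * θ) - 3 ^ ones [a, b] * round (3 ^ (r - ones [a, b]) * (4 * θ)) : ℤ) : ℝ)|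
                < 1 := by
              rw [h2]
              have h7 : |(3 : ℝ) ^ ones [a, b] * psi (3 ^ (r - ones [a, b]) * (4 * θ))| ≤ 9 * (1 / 16) := by
                rw [abs_mul, abs_of_pos (by positivity : (0 : ℝ) < 3 ^ ones [a, b])]
                exact mul_le_mul h5 hw'.le (abs_nonneg _) (by norm_num)
              have h8 : |4 * psi (3 ^ r * θ)| ≤ 4 * (1 / 16) := by
                rw [abs_mul, abs_of_pos (by norm_num : (0 : ℝ) < 4)]
                linarith
              have := abs_sub ((3 : ℝ) ^ ones [a, b] * psi (3 ^ (r - ones [a, b]) * (4 * θ))) (4 * psi (3 ^ r * θ))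
              linarith
            have h9 : |4 * round (3 ^ r * θ) - 3 ^ ones [a, b] * round (3 ^ (r - ones [a, b]) * (4 * θ))| < 1 := by
              exact_mod_cast h6
            rw [Int.abs_lt_one_iff] at h9
            rw [if_pos h9]
            omega

/-- equal carries -/
lemma car_eq (m : ℕ) : ∀ (θ θ' : ℝ) (r : ℕ) (v : List Bool), v ∈ words (2 * m) → ones v = r →
    car θ r v = car θ' r v →
    3 ^ r * (psi (4 ^ m * θ) - psi (4 ^ m * θ')) = 4 ^ m * (psi (3 ^ r * θ) - psi (3 ^ r * θ')) := by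
  induction m with
  | zero =>
    intro θ θ' r v hv ho _
    rw [mem_words, mul_zero, List.length_eq_zero_iff] at hv
    rw [hv, ones_nil] at ho
    rw [← ho]; simp
  | succ m ih =>
    intro θ θ' r v hv ho hc
    rw [mem_words] at hv
    match v, hv, ho, hc with
    | (a :: b :: v), hv, ho, hc =>
      have h1 : ones (a :: b :: v) = ones [a, b] + ones v := ones_append [a, b] v
      have hu : ones [a, b] ≤ r := by omega
      have hv' : v ∈ words (2 * m) := by
        rw [mem_words]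
        simp only [List.length_cons] at hv
        omega
      rw [car_cons, car_cons, List.cons.injEq] at hc
      have h2 := ih (4 * θ) (4 * θ') (r - ones [a, b]) v hv' (by omega) hc.2
      have h3 := carry_eq (θ := θ) hu
      have h4 := carry_eq (θ := θ') hu
      rw [hc.1, h4] at h3
      have h5 : (3 : ℝ) ^ r = 3 ^ ones [a, b] * 3 ^ (r - ones [a, b]) := by
        rw [← pow_add]; congr 1; omega
      have e1 : (4 : ℝ) ^ (m + 1) * θ = 4 ^ m * (4 * θ) := by ring
      have e2 : (4 : ℝ) ^ (m + 1) * θ' = 4 ^ m * (4 * θ') := by ring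
      rw [e1, e2]
      have h6 : (3 : ℝ) ^ r * (psi (4 ^ m * (4 * θ)) - psi (4 ^ m * (4 * θ'))) =
          3 ^ ones [a, b] * (3 ^ (r - ones [a, b]) * (psi (4 ^ m * (4 * θ)) - psi (4 ^ m * (4 * θ')))) := by
        rw [h5]; ring
      rw [h6, h2]
      rw [pow_succ]
      linear_combination (-(4 : ℝ) ^ m) * h3

/-- two frequencies with equal carries -/
lemma car_end {m i W r : ℕ} (hW : W = 2 * m + i) {b b' : ℤ} {v : List Bool} (hv : v ∈ words (2 * m))
    (ho : ones v = r) (hc : car ((b : ℝ) / 2 ^ W) r v = car ((b' : ℝ) / 2 ^ W) r v) :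
    ∃ x : ℤ, |x| ≤ 2 ^ i ∧ (2 : ℤ) ^ W ∣ x - (b - b') := by
  have h1 := car_eq m _ _ r v hv ho hc
  have hW2 : (2 : ℝ) ^ W = 4 ^ m * 2 ^ i := by
    rw [hW, pow_add, pow_mul]; norm_num
  have h4m : (0 : ℝ) < 4 ^ m := by positivity
  have h2i : (0 : ℝ) < 2 ^ i := by positivity
  have h2W : (0 : ℝ) < 2 ^ W := by positivity
  have e1 : ∀ b : ℤ, (4 : ℝ) ^ m * ((b : ℝ) / 2 ^ W) = b / 2 ^ i := by
    intro b; rw [hW2]; field_simp
  rw [e1, e1] at h1
  set n : ℤ := round ((b : ℝ) / 2 ^ i) with hn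
  set n' : ℤ := round ((b' : ℝ) / 2 ^ i) with hn'
  set N : ℤ := round (3 ^ r * ((b : ℝ) / 2 ^ W)) with hN
  set N' : ℤ := round (3 ^ r * ((b' : ℝ) / 2 ^ W)) with hN'
  set x : ℤ := (b - 2 ^ i * n) - (b' - 2 ^ i * n') with hx
  have hpb : psi ((b : ℝ) / 2 ^ i) = ((b - 2 ^ i * n : ℤ) : ℝ) / 2 ^ i := by
    unfold psi; rw [← hn]; push_cast; field_simp
  have hpb' : psi ((b' : ℝ) / 2 ^ i) = ((b' - 2 ^ i * n' : ℤ) : ℝ) / 2 ^ i := by
    unfold psi; rw [← hn']; push_cast; field_simp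
  have hxr : psi ((b : ℝ) / 2 ^ i) - psi ((b' : ℝ) / 2 ^ i) = (x : ℝ) / 2 ^ i := by
    rw [hpb, hpb', hx]; push_cast; ring
  refine ⟨x, ?_, ?_⟩
  · have h2 := abs_sub (psi ((b : ℝ) / 2 ^ i)) (psi ((b' : ℝ) / 2 ^ i))
    have h3 := abs_psi ((b : ℝ) / 2 ^ i)
    have h4 := abs_psi ((b' : ℝ) / 2 ^ i)
    rw [hxr, abs_div, abs_of_pos h2i] at h2
    have h5 : |(x : ℝ)| / 2 ^ i ≤ 1 := by linarith
    rw [div_le_one h2i] at h5
    exact_mod_cast h5
  · rw [hxr] at h1
    have h2 : psi (3 ^ r * ((b : ℝ) / 2 ^ W)) - psi (3 ^ r * ((b' : ℝ) / 2 ^ W)) =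
        ((3 ^ r * (b - b') - 2 ^ W * (N - N') : ℤ) : ℝ) / 2 ^ W := by
      unfold psi; rw [← hN, ← hN']; push_cast; field_simp; ring
    rw [h2] at h1
    have h3 : (3 : ℝ) ^ r * x = ((3 ^ r * (b - b') - 2 ^ W * (N - N') : ℤ) : ℝ) := by
      have h4 : (3 : ℝ) ^ r * (x / 2 ^ i) * 2 ^ W =
          4 ^ m * (((3 ^ r * (b - b') - 2 ^ W * (N - N') : ℤ) : ℝ) / 2 ^ W) * 2 ^ W := by rw [h1]
      have h5 : (3 : ℝ) ^ r * (x / 2 ^ i) * 2 ^ W = 4 ^ m * (3 ^ r * x) := by
        rw [hW2]; field_simp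
      have h6 : 4 ^ m * (((3 ^ r * (b - b') - 2 ^ W * (N - N') : ℤ) : ℝ) / 2 ^ W) * 2 ^ W =
          4 ^ m * ((3 ^ r * (b - b') - 2 ^ W * (N - N') : ℤ) : ℝ) := by
        field_simp
      rw [h5, h6] at h4
      exact mul_left_cancel₀ h4m.ne' h4
    have h4 : (3 : ℤ) ^ r * x = 3 ^ r * (b - b') - 2 ^ W * (N - N') := by exact_mod_cast h3
    have h5 : (2 : ℤ) ^ W ∣ 3 ^ r * (x - (b - b')) := ⟨-(N - N'), by linear_combination h4⟩
    have hc : IsCoprime ((2 : ℤ) ^ W) (3 ^ r) := by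
      apply IsCoprime.pow
      rw [Int.isCoprime_iff_gcd_eq_one]; norm_num
    exact hc.dvd_of_dvd_mul_left h5

/-- THE NUMBER OF FREQUENCIES WITH FEW WHITE BLOCKS ON A PATH -/
lemma count_white {m i W r L R s : ℕ} {a k : ℤ} (hW : W = 2 * m + i) (hk : Odd k) (hRW : R ≤ 2 ^ W)
    (ha : (2 : ℤ) ^ W ∣ 3 ^ L * a + k)
    (hrid : ∀ x d : ℤ, |x| ≤ 2 ^ i → |d| < R → (2 : ℤ) ^ W ∣ 3 ^ L * x + k * d → x = 0)
    {v : List Bool} (hv : v ∈ words (2 * m)) (ho : ones v = r) {z : ℝ} (hz0 : 0 < z) (hz1 : z ≤ 1) :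
    (((range R).filter (fun ξ : ℕ => wh ((((ξ : ℤ) * a : ℤ) : ℝ) / 2 ^ W) r v ≤ s)).card : ℝ) *
      z ^ (2 * s + 1) ≤ (1 + 12 * z) ^ m := by
  classical
  set B := (range R).filter (fun ξ : ℕ => wh ((((ξ : ℤ) * a : ℤ) : ℝ) / 2 ^ W) r v ≤ s) with hB
  set C : ℕ → List ℤ := fun ξ => car ((((ξ : ℤ) * a : ℤ) : ℝ) / 2 ^ W) r v with hC
  have hinj : Set.InjOn C B := by
    intro ξ hξ η hη h
    rw [hB, mem_coe, mem_filter, mem_range] at hξ hη
    obtain ⟨x, hx1, hx2⟩ := car_end hW hv ho h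
    have h1 : (2 : ℤ) ^ W ∣ 3 ^ L * x + k * ((ξ : ℤ) - η) := by
      have e1 : 3 ^ L * x + k * ((ξ : ℤ) - η) =
          3 ^ L * (x - ((ξ : ℤ) * a - (η : ℤ) * a)) + ((ξ : ℤ) - η) * (3 ^ L * a + k) := by ring
      rw [e1]
      exact dvd_add (hx2.mul_left _) (ha.mul_left _)
    have h2 : |(ξ : ℤ) - η| < R := by
      have a1 : (ξ : ℤ) < R := by exact_mod_cast hξ.1
      have a2 : (η : ℤ) < R := by exact_mod_cast hη.1
      rw [abs_lt]; constructor <;> omega
    have h3 := hrid x _ hx1 h2 h1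
    rw [h3, mul_zero, zero_add] at h1
    have hc : IsCoprime ((2 : ℤ) ^ W) k := by
      apply IsCoprime.pow_left
      obtain ⟨t, rfl⟩ := hk
      exact ⟨-t, 1, by ring⟩
    have h4 := hc.dvd_of_dvd_mul_left h1
    have h5 : (ξ : ℤ) - η = 0 := by
      apply Int.eq_zero_of_abs_lt_dvd h4
      have : (R : ℤ) ≤ 2 ^ W := by exact_mod_cast hRW
      omega
    omega
  have h1 : ∑ c ∈ B.image C, z ^ nz c ≤ (1 + 12 * z) ^ m := by
    rw [← sum_cl]
    apply sum_le_sum_of_subset_of_nonneg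
    · intro c hc
      rw [mem_image] at hc
      obtain ⟨ξ, -, rfl⟩ := hc
      exact car_mem m _ r v hv ho
    · intro c _ _; positivity
  rw [sum_image hinj] at h1
  refine le_trans ?_ h1
  have h2 : ∀ ξ ∈ B, z ^ (2 * s + 1) ≤ z ^ nz (C ξ) := by
    intro ξ hξ
    rw [hB, mem_filter] at hξ
    apply pow_le_pow_of_le_one hz0.le hz1
    have := (nz_le m ((((ξ : ℤ) * a : ℤ) : ℝ) / 2 ^ W) r v hv ho).1
    rw [hC]
    simp only
    omega
  have h3 := Finset.card_nsmul_le_sum B (fun ξ => z ^ nz (C ξ)) _ h2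
  rwa [nsmul_eq_mul] at h3

end Pool.Agent.TH930.EBQ
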