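import Pool.Agent.H547R3.Sub.Merge

/-! No conspiracies between powers of `2` and powers of `3`. -/

set_option autoImplicit false

namespace Pool.Agent.TH930.EBQ

open Finset

/-- the form of the theorem of Ridout which is needed -/
theorem no_conspiracy : ∃ ε : ℝ, 0 < ε ∧ ∃ N0 : ℕ, ∀ W : ℕ, N0 ≤ W → ∀ (L i R : ℕ) (k : ℤ),
    (W : ℝ) / 4 ≤ L → (L : ℝ) ≤ 4 * W → (2 : ℝ) ^ i ≤ 2 ^ W * Real.exp (-(1 / 4 * W)) →
    |(k : ℝ)| * R ≤ Real.exp (ε * W) →
    ∀ x d : ℤ, |x| ≤ 2 ^ i → |d| < R → (2 : ℤ) ^ W ∣ 3 ^ L * x + k * d → x = 0 := by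
  haveI : Fact (Nat.Prime 3) := ⟨by norm_num⟩
  haveI : Fact (Nat.Prime 2) := ⟨by norm_num⟩
  obtain ⟨ε, hε, N0, h⟩ := Pool.Agent.H547R3.Sub.merge (p := 3) (q := 2) (by norm_num) 1 (1 / 4)
    (by norm_num)
  refine ⟨ε, hε, N0, ?_⟩
  intro W hW L i R k hL1 hL2 hi hkR x d hx hd hdvd
  have h3L : (0 : ℤ) < 3 ^ L := by positivity
  have h3LR : (0 : ℝ) < 3 ^ L := by positivity
  have hWn : (0 : ℝ) ≤ W := Nat.cast_nonneg W
  have h1 := h W hW L W (fun _ => 0) (fun _ => 0) (by linarith) (by linarith)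
    (fun _ => by push_cast; linarith) (fun _ => by push_cast; linarith) (fun _ => k * d)
    (fun _ => by
      push_cast
      rw [abs_mul]
      refine le_trans ?_ hkR
      apply mul_le_mul_of_nonneg_left _ (abs_nonneg _)
      have : |d| ≤ R := hd.le
      exact_mod_cast this)
    (3 ^ L * x) (by exact_mod_cast dvd_mul_right _ _) (by simpa using hdvd) (by
      push_cast
      rw [abs_mul, abs_of_pos h3LR]
      have h2 : |(x : ℝ)| ≤ 2 ^ i := by exact_mod_cast hx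
      calc (3 : ℝ) ^ L * |(x : ℝ)| ≤ 3 ^ L * (2 ^ W * Real.exp (-(1 / 4 * W))) :=
            mul_le_mul_of_nonneg_left (h2.trans hi) h3LR.le
        _ = _ := by ring)
  rcases mul_eq_zero.1 h1 with h2 | h2
  · exact absurd h2 h3L.ne'
  · exact h2

end Pool.Agent.TH930.EBQ
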