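import Pool.Agent.TH930.EBQ.Bad
import Pool.Agent.TH930.EBQ.Rid

/-! The entropy bounds. -/

set_option autoImplicit false

namespace Pool.Agent.TH930.EBQ

open Finset

/-- `log 2 / log 3` -/
noncomputable def kap : ℝ := Real.log 2 / Real.log 3

/-- the entropy (in nats) -/
noncomputable def Hh : ℝ := Real.binEntropy kap

/-- the slope of the entropy -/
noncomputable def lam : ℝ := Real.log kap - Real.log (1 - kap)

lemma log3_pos : 0 < Real.log 3 := Real.log_pos (by norm_num)
lemma log2_pos : 0 < Real.log 2 := Real.log_pos (by norm_num)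

lemma kap_mul : kap * Real.log 3 = Real.log 2 := by
  unfold kap; rw [div_mul_cancel₀ _ log3_pos.ne']

lemma kap_pos : 0 < kap := div_pos log2_pos log3_pos

lemma kap_lt_one : kap < 1 := by
  unfold kap
  rw [div_lt_one log3_pos]
  exact Real.log_lt_log (by norm_num) (by norm_num)

lemma kap_gt_half : 1 / 2 < kap := by
  unfold kap
  rw [lt_div_iff₀ log3_pos]
  have h : Real.log 3 < Real.log 4 := Real.log_lt_log (by norm_num) (by norm_num)
  have h2 : Real.log 4 = 2 * Real.log 2 := by
    rw [show (4 : ℝ) = 2 ^ 2 by norm_num, Real.log_pow]; norm_num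
  linarith

lemma lam_pos : 0 < lam := by
  unfold lam
  have h1 := kap_gt_half
  have h2 := kap_lt_one
  have : Real.log (1 - kap) < Real.log kap := Real.log_lt_log (by linarith) (by linarith)
  linarith

lemma Hh_lt : Hh < Real.log 2 := by
  unfold Hh
  rw [Real.binEntropy_lt_log_two]
  have := kap_gt_half
  norm_num
  linarith

lemma Hh_pos : 0 < Hh := Real.binEntropy_pos kap_pos kap_lt_one

lemma Hh_eq : Hh = -(kap * Real.log kap) - (1 - kap) * Real.log (1 - kap) := by
  unfold Hh Real.binEntropy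
  rw [Real.log_inv, Real.log_inv]
  ring

lemma P_exp {n o : ℕ} (ho : o ≤ n) :
    kap ^ o * (1 - kap) ^ (n - o) = Real.exp (-(n * Hh) + (o - kap * n) * lam) := by
  have h1 := kap_pos
  have h2 : 0 < 1 - kap := by linarith [kap_lt_one]
  have e1 : kap ^ o * (1 - kap) ^ (n - o) =
      Real.exp (o * Real.log kap + (n - o : ℕ) * Real.log (1 - kap)) := by
    rw [Real.exp_add, ← Real.log_pow, ← Real.log_pow, Real.exp_log (by positivity),
      Real.exp_log (by positivity)]
  rw [e1]
  congr 1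
  rw [Nat.cast_sub ho, Hh_eq]
  unfold lam
  ring

lemma sum_Pr (p q : ℝ) (n : ℕ) : ∑ v ∈ words n, Pr p q v = (p + q) ^ n := by
  induction n with
  | zero => simp [words, Pr]
  | succ n ih =>
    rw [sum_words_succ]
    simp only [Pr, if_true, Bool.false_eq_true, if_false]
    rw [sum_add_distrib, ← mul_sum, ← mul_sum, ih]
    ring

/-- the exponential Chebyshev inequality -/
lemma card_cheb {n o : ℕ} (S : Finset (List Bool)) (hS : ∀ v ∈ S, v.length = n ∧ ones v = o)
    {t : ℝ} (ht0 : 0 ≤ t) (ht1 : t ≤ 1) (ho : o ≤ n) :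
    (S.card : ℝ) ≤ Real.exp (n * Hh - (o - kap * n) * lam - t * (o - kap * n) + t ^ 2 * n) := by
  have h1 := kap_pos
  have h2 : 0 < 1 - kap := by linarith [kap_lt_one]
  have h3 : (S.card : ℝ) * ((kap * Real.exp t) ^ o * (1 - kap) ^ (n - o)) ≤
      (kap * Real.exp t + (1 - kap)) ^ n := by
    rw [← sum_Pr]
    have h4 : ∀ v ∈ S, (kap * Real.exp t) ^ o * (1 - kap) ^ (n - o) ≤
        Pr (kap * Real.exp t) (1 - kap) v := by
      intro v hv
      rw [Pr_eq, (hS v hv).1, (hS v hv).2]
    have h5 := Finset.card_nsmul_le_sum S _ _ h4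
    rw [nsmul_eq_mul] at h5
    refine h5.trans ?_
    apply sum_le_sum_of_subset_of_nonneg (fun v hv => mem_words.2 (hS v hv).1)
    intro v _ _
    exact (Pr_pos (by positivity) h2 v).le
  have h6 : (kap * Real.exp t + (1 - kap)) ^ n ≤ Real.exp (n * (kap * (t + t ^ 2))) := by
    have h7 : kap * Real.exp t + (1 - kap) ≤ Real.exp (kap * (t + t ^ 2)) := by
      have h8 : Real.exp t ≤ 1 + t + t ^ 2 := by
        have h9 := Real.abs_exp_sub_one_sub_id_le (x := t) (by rw [abs_of_nonneg ht0]; exact ht1)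
        have h10 := (abs_le.1 h9).2
        linarith
      have h9 := Real.add_one_le_exp (kap * (t + t ^ 2))
      nlinarith
    rw [Real.exp_nat_mul]
    exact pow_le_pow_left₀ (by positivity) h7 n
  have h7 : (kap * Real.exp t) ^ o * (1 - kap) ^ (n - o) =
      Real.exp (t * o + (-(n * Hh) + (o - kap * n) * lam)) := by
    rw [mul_pow, mul_right_comm, P_exp ho, ← Real.exp_nat_mul, ← Real.exp_add]
    congr 1
    ring
  rw [h7] at h3
  have h8 := h3.trans h6
  rw [← le_div_iff₀ (Real.exp_pos _), ← Real.exp_sub] at h8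
  refine h8.trans (Real.exp_le_exp.2 ?_)
  have h9 : kap * t ^ 2 * n ≤ t ^ 2 * n := by
    have : 0 ≤ t ^ 2 * n := by positivity
    nlinarith [kap_lt_one]
  nlinarith

lemma card_le_U {n o : ℕ} (S : Finset (List Bool)) (hS : ∀ v ∈ S, v.length = n ∧ ones v = o)
    (ho : o ≤ n) : (S.card : ℝ) ≤ Real.exp (n * Hh - (o - kap * n) * lam) := by
  have := card_cheb S hS (t := 0) le_rfl zero_le_one ho
  simpa using this

lemma dev_ge {n o Q : ℕ} (hQ : 1 ≤ Q) (h : 2 ^ n ≤ Q * 3 ^ o) :
    -(Real.log Q / Real.log 3) ≤ (o : ℝ) - kap * n := by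
  have hQR : (0 : ℝ) < Q := by exact_mod_cast hQ
  have h1 : (n : ℝ) * Real.log 2 ≤ Real.log Q + o * Real.log 3 := by
    have h2 : ((2 : ℝ) ^ n) ≤ Q * 3 ^ o := by exact_mod_cast h
    have h3 := Real.log_le_log (by positivity) h2
    rwa [Real.log_mul hQR.ne' (by positivity), Real.log_pow, Real.log_pow] at h3
  rw [← kap_mul] at h1
  have h5 : (kap * n - o) * Real.log 3 ≤ Real.log Q := by linarith
  have h6 : kap * n - o ≤ Real.log Q / Real.log 3 := by
    rw [le_div_iff₀ log3_pos]; exact h5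
  linarith

lemma pow3_exp (n o : ℕ) : (3 : ℝ) ^ o = Real.exp (n * Real.log 2 + (o - kap * n) * Real.log 3) := by
  have h : (n : ℝ) * Real.log 2 + (o - kap * n) * Real.log 3 = o * Real.log 3 := by
    rw [← kap_mul]; ring
  rw [h, Real.exp_nat_mul, Real.exp_log (by norm_num)]

lemma pow2_exp (n : ℕ) : (2 : ℝ) ^ n = Real.exp (n * Real.log 2) := by
  rw [Real.exp_nat_mul, Real.exp_log (by norm_num)]

lemma four_div {i G R : ℕ} (hR : 8 * G * R = 2 ^ i) :
    (4 : ℝ) / R = 32 * G * Real.exp (-(i * Real.log 2)) := by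
  have h1 : (8 : ℝ) * G * R = 2 ^ i := by exact_mod_cast hR
  rw [Real.exp_neg, ← pow2_exp, ← h1]
  have h2 : (0 : ℝ) < 2 ^ i := by positivity
  have : (R : ℝ) ≠ 0 := by
    intro h0
    rw [h0, mul_zero] at h1
    linarith
  have : (G : ℝ) ≠ 0 := by
    intro h0
    rw [h0, mul_zero, zero_mul] at h1
    linarith
  field_simp
  norm_num

/-- the main term of the bound for one type -/
lemma good_le {i m W R G Q o1 om o2 s : ℕ} {k : ℤ} {gs D : ℝ} (hgs : 0 < gs) (hW : W = 2 * m + i)
    (hR : 8 * G * R = 2 ^ i) (hom : om ≤ 2 * m) (S1 S2 S3 : Finset (List Bool))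
    (c1 : (S1.card : ℝ) ≤ Real.exp (i * Hh - (o1 - kap * i) * lam))
    (c2 : (S2.card : ℝ) ≤ Real.exp ((2 * m : ℕ) * Hh - (om - kap * (2 * m : ℕ)) * lam))
    (c3 : (S3.card : ℝ) ≤ Real.exp (i * Hh - (o2 - kap * i) * lam))
    (dW : -D ≤ ((o1 + om : ℕ) : ℝ) - kap * W) (dK : -D ≤ ((o1 + om + o2 : ℕ) : ℝ) - kap * (W + i : ℕ)) :
    4 / R * (√(2 * gs ^ (s + 1) * S2.card / (kap ^ om * (1 - kap) ^ (2 * m - om))) *
      (√(3 ^ o1 * S1.card * (4 * Q * |(k : ℝ)| * i + 4)) * √(2 ^ i * S3.card))) ≤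
    32 * G * Real.exp (D * lam) * Real.exp (W * Hh) *
      (√(2 * gs ^ (s + 1) * (4 * Q * |(k : ℝ)| * i + 4)) *
        Real.exp ((o1 - kap * i) * ((lam + Real.log 3) / 2))) := by
  have hlam := lam_pos
  have hl3 := log3_pos
  have hP : 0 < kap ^ om * (1 - kap) ^ (2 * m - om) := by
    rw [P_exp hom]; exact Real.exp_pos _
  set Q0 : ℝ := 2 * gs ^ (s + 1) with hQ
  have hQ0 : 0 < Q0 := by positivity
  set E : ℝ := 4 * Q * |(k : ℝ)| * i + 4 with hE
  have hE0 : 0 < E := by positivity
  have h4R := four_div hR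
  rw [h4R, ← Real.sqrt_mul (by positivity), ← Real.sqrt_mul (by positivity)]
  -- the square
  have hsq : Q0 * S2.card / (kap ^ om * (1 - kap) ^ (2 * m - om)) * (3 ^ o1 * S1.card * E * (2 ^ i * S3.card)) ≤
      (Q0 * E) * Real.exp (i * Real.log 2 + D * lam + W * Hh + (o1 - kap * i) * ((lam + Real.log 3) / 2)) ^ 2 := by
    rw [P_exp hom, pow3_exp i o1, pow2_exp i]
    calc Q0 * S2.card / Real.exp (-((2 * m : ℕ) * Hh) + (om - kap * (2 * m : ℕ)) * lam) *
        (Real.exp (i * Real.log 2 + (o1 - kap * i) * Real.log 3) * S1.card * E *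
          (Real.exp (i * Real.log 2) * S3.card))
        ≤ Q0 * Real.exp ((2 * m : ℕ) * Hh - (om - kap * (2 * m : ℕ)) * lam) /
          Real.exp (-((2 * m : ℕ) * Hh) + (om - kap * (2 * m : ℕ)) * lam) *
        (Real.exp (i * Real.log 2 + (o1 - kap * i) * Real.log 3) *
          Real.exp (i * Hh - (o1 - kap * i) * lam) * E *
          (Real.exp (i * Real.log 2) * Real.exp (i * Hh - (o2 - kap * i) * lam))) := by gcongr
      _ = (Q0 * E) * Real.exp (2 * (i * Real.log 2) + 2 * (W * Hh) - (((o1 + om : ℕ) : ℝ) - kap * W) * lam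
          - (((o1 + om + o2 : ℕ) : ℝ) - kap * (W + i : ℕ)) * lam + (o1 - kap * i) * (lam + Real.log 3)) := by
          rw [mul_div_assoc, ← Real.exp_sub]
          have e1 : ∀ a b c d x : ℝ, Q0 * Real.exp a * (Real.exp b * Real.exp c * E *
              (Real.exp d * Real.exp x)) = (Q0 * E) * Real.exp (a + b + c + d + x) := by
            intro a b c d x
            rw [Real.exp_add, Real.exp_add, Real.exp_add, Real.exp_add]
            ring
          rw [e1]
          congr 2
          rw [hW]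
          push_cast
          ring
      _ ≤ (Q0 * E) * Real.exp (2 * (i * Real.log 2 + D * lam + W * Hh +
            (o1 - kap * i) * ((lam + Real.log 3) / 2))) := by
          apply mul_le_mul_of_nonneg_left _ (by positivity)
          apply Real.exp_le_exp.2
          nlinarith
      _ = _ := by
          rw [← Real.exp_nat_mul]
          push_cast
          rfl
  have h1 := Real.sqrt_le_sqrt hsq
  rw [Real.sqrt_mul (mul_pos hQ0 hE0).le, Real.sqrt_sq (Real.exp_pos _).le] at h1
  calc 32 * G * Real.exp (-(i * Real.log 2)) * √(Q0 * S2.card / (kap ^ om * (1 - kap) ^ (2 * m - om)) *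
        (3 ^ o1 * S1.card * E * (2 ^ i * S3.card)))
      ≤ 32 * G * Real.exp (-(i * Real.log 2)) * (√(Q0 * E) *
        Real.exp (i * Real.log 2 + D * lam + W * Hh + (o1 - kap * i) * ((lam + Real.log 3) / 2))) :=
        mul_le_mul_of_nonneg_left h1 (by positivity)
    _ = _ := by
        have e1 : Real.exp (-(i * Real.log 2)) * Real.exp (i * Real.log 2 + D * lam + W * Hh +
            (o1 - kap * i) * ((lam + Real.log 3) / 2)) = Real.exp (D * lam) * Real.exp (W * Hh) *
            Real.exp ((o1 - kap * i) * ((lam + Real.log 3) / 2)) := by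
          rw [← Real.exp_add, ← Real.exp_add, ← Real.exp_add]
          congr 1
          ring
        linear_combination (32 * G * √(Q0 * E)) * e1

/-- the contribution of the exceptional frequencies -/
lemma bad_le {i m W R G o1 om o2 : ℕ} {D : ℝ} (hW : W = 2 * m + i)
    (hR : 8 * G * R = 2 ^ i) (S1 S2 S3 : Finset (List Bool)) {Y : ℝ} (hY : 0 ≤ Y)
    (c1 : (S1.card : ℝ) ≤ Real.exp (i * Hh - (o1 - kap * i) * lam))
    (c2 : (S2.card : ℝ) ≤ Real.exp ((2 * m : ℕ) * Hh - (om - kap * (2 * m : ℕ)) * lam))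
    (c3 : (S3.card : ℝ) ≤ Real.exp (i * Hh - (o2 - kap * i) * lam))
    (dK : -D ≤ ((o1 + om + o2 : ℕ) : ℝ) - kap * (W + i : ℕ)) :
    4 / R * (Y * (S1.card * S2.card * S3.card)) ≤
    32 * G * Real.exp (D * lam) * Real.exp (W * Hh) * (Y * Real.exp (-(i * (Real.log 2 - Hh)))) := by
  have hlam := lam_pos
  have h4R := four_div hR
  rw [h4R]
  calc 32 * G * Real.exp (-(i * Real.log 2)) * (Y * (S1.card * S2.card * S3.card))
      ≤ 32 * G * Real.exp (-(i * Real.log 2)) * (Y * (Real.exp (i * Hh - (o1 - kap * i) * lam) *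
        Real.exp ((2 * m : ℕ) * Hh - (om - kap * (2 * m : ℕ)) * lam) *
        Real.exp (i * Hh - (o2 - kap * i) * lam))) := by gcongr
    _ = 32 * G * Y * Real.exp (-(i * Real.log 2) + (W + i) * Hh -
        (((o1 + om + o2 : ℕ) : ℝ) - kap * (W + i : ℕ)) * lam) := by
        have e1 : ∀ a b c d : ℝ, 32 * G * Real.exp a * (Y * (Real.exp b * Real.exp c * Real.exp d)) =
            32 * G * Y * Real.exp (a + b + c + d) := by
          intro a b c d
          rw [Real.exp_add, Real.exp_add, Real.exp_add]; ring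
        rw [e1]
        congr 2
        rw [hW]
        push_cast
        ring
    _ ≤ 32 * G * Y * Real.exp (D * lam + W * Hh + -(i * (Real.log 2 - Hh))) := by
        apply mul_le_mul_of_nonneg_left _ (by positivity)
        apply Real.exp_le_exp.2
        nlinarith
    _ = _ := by rw [Real.exp_add, Real.exp_add]; ring

end Pool.Agent.TH930.EBQ
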