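import Pool.Agent.TH930.EBQ.Words

/-! Exponential sums over parity words. -/

set_option autoImplicit false

namespace Pool.Agent.TH930.EBQ

open Finset

/-- `e(x) = exp(2 π i x)` -/
noncomputable def e (x : ℝ) : ℂ := Complex.exp (Complex.I * ((2 * Real.pi * x : ℝ) : ℂ))

lemma e_zero : e 0 = 1 := by simp [e]

lemma e_add (x y : ℝ) : e (x + y) = e x * e y := by
  unfold e
  rw [← Complex.exp_add]
  congr 1
  push_cast
  ring

lemma norm_e (x : ℝ) : ‖e x‖ = 1 := by
  unfold e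
  rw [mul_comm]
  exact Complex.norm_exp_ofReal_mul_I _

lemma conj_e (x : ℝ) : (starRingEnd ℂ) (e x) = e (-x) := by
  unfold e
  rw [← Complex.exp_conj]
  congr 1
  rw [map_mul, Complex.conj_I, Complex.conj_ofReal]
  push_cast
  ring

lemma e_re (x : ℝ) : (e x).re = Real.cos (2 * Real.pi * x) := by
  unfold e
  rw [mul_comm]
  exact Complex.exp_ofReal_mul_I_re _

lemma e_int (n : ℤ) : e n = 1 := by
  unfold e
  rw [Complex.exp_eq_one_iff]
  refine ⟨n, ?_⟩
  push_cast
  ring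

lemma e_eq_one {x : ℝ} (h : e x = 1) : ∃ n : ℤ, x = n := by
  unfold e at h
  rw [Complex.exp_eq_one_iff] at h
  obtain ⟨n, hn⟩ := h
  refine ⟨n, ?_⟩
  have h1 : Complex.I * ((2 * Real.pi * x : ℝ) : ℂ) = Complex.I * ((2 * Real.pi * n : ℝ) : ℂ) := by
    rw [hn]; push_cast; ring
  have h2 := mul_left_cancel₀ Complex.I_ne_zero h1
  have h3 : 2 * Real.pi * x = 2 * Real.pi * n := by exact_mod_cast h2
  have h4 : (2 : ℝ) * Real.pi ≠ 0 := by positivity
  exact mul_left_cancel₀ h4 h3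

lemma e_sub_int (x : ℝ) (n : ℤ) : e (x - n) = e x := by
  have : e x = e (x - n) * e n := by rw [← e_add]; congr 1; ring
  rw [this, e_int, mul_one]

lemma e_congr {x y : ℝ} (h : ∃ n : ℤ, x - y = n) : e x = e y := by
  obtain ⟨n, hn⟩ := h
  have : x = y + n := by linarith
  rw [this, e_add, e_int, mul_one]

lemma e_nat_mul (n : ℕ) (x : ℝ) : e (n * x) = e x ^ n := by
  induction n with
  | zero => simp [e_zero]
  | succ n ih =>
    rw [pow_succ, ← ih, ← e_add]
    congr 1
    push_cast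
    ring

lemma norm_e_sub_one (x : ℝ) : ‖e x - 1‖ ≤ 2 * Real.pi * |x| := by
  have h := Real.norm_exp_I_mul_ofReal_sub_one_le (x := 2 * Real.pi * x)
  unfold e
  refine h.trans ?_
  rw [Real.norm_eq_abs, abs_mul, abs_of_pos (by positivity : (0 : ℝ) < 2 * Real.pi)]

lemma norm_one_add_e (x : ℝ) : ‖1 + e x‖ = 2 * |Real.cos (Real.pi * x)| := by
  have h : 1 + e x = e (x / 2) * ((2 * Real.cos (Real.pi * x) : ℝ) : ℂ) := by
    have h1 : e x = e (x / 2) * e (x / 2) := by rw [← e_add]; congr 1; ring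
    have h2 : (1 : ℂ) = e (x / 2) * e (-(x / 2)) := by
      rw [← e_add, add_neg_cancel, e_zero]
    have h3 : e (-(x / 2)) + e (x / 2) = ((2 * Real.cos (Real.pi * x) : ℝ) : ℂ) := by
      have h4 : 2 * Real.pi * (x / 2) = Real.pi * x := by ring
      rw [← conj_e, add_comm, Complex.add_conj, e_re, h4]
    rw [← h3, mul_add, ← h2, ← h1]
  rw [h, norm_mul, norm_e, one_mul, Complex.norm_real, Real.norm_eq_abs, abs_mul,
    abs_of_pos (by norm_num : (0 : ℝ) < 2)]

/-- orthogonality -/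
lemma sum_e {N : ℕ} (hN : 0 < N) (d : ℤ) :
    ∑ ξ ∈ range N, e (ξ * (d / N)) = if (N : ℤ) ∣ d then (N : ℂ) else 0 := by
  have hN0 : (N : ℝ) ≠ 0 := by positivity
  simp_rw [e_nat_mul]
  split_ifs with h
  · obtain ⟨t, rfl⟩ := h
    have : (((N : ℤ) * t : ℤ) : ℝ) / N = t := by push_cast; field_simp
    rw [this, e_int]
    simp
  · have h1 : e ((d : ℝ) / N) ≠ 1 := by
      intro h2
      obtain ⟨n, hn⟩ := e_eq_one h2
      apply h
      refine ⟨n, ?_⟩
      rw [div_eq_iff hN0] at hn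
      have : (d : ℝ) = (((N : ℤ) * n : ℤ) : ℝ) := by rw [hn]; push_cast; ring
      exact_mod_cast this
    rw [geom_sum_eq h1]
    have h2 : e ((d : ℝ) / N) ^ N = 1 := by
      rw [← e_nat_mul]
      have : (N : ℝ) * ((d : ℝ) / N) = d := by field_simp
      rw [this, e_int]
    rw [h2, sub_self, zero_div]

lemma normSq_sum {ι : Type*} (S : Finset ι) (a : ι → ℝ) :
    ((‖∑ v ∈ S, e (a v)‖ ^ 2 : ℝ) : ℂ) = ∑ u ∈ S, ∑ v ∈ S, e (a u - a v) := by
  rw [← Complex.normSq_eq_norm_sq, Complex.normSq_eq_conj_mul_self, map_sum, mul_comm, sum_mul_sum]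
  apply sum_congr rfl
  intro u _
  apply sum_congr rfl
  intro v _
  rw [conj_e, ← e_add]
  congr 1

/-- Parseval -/
lemma parseval {ι : Type*} (S : Finset ι) (a : ι → ℤ) {N : ℕ} (hN : 0 < N) :
    ∑ ξ ∈ range N, ‖∑ v ∈ S, e (ξ * (a v / N))‖ ^ 2 =
      N * (((S ×ˢ S).filter (fun p => (N : ℤ) ∣ a p.1 - a p.2)).card : ℝ) := by
  have h : ((∑ ξ ∈ range N, ‖∑ v ∈ S, e (ξ * (a v / N))‖ ^ 2 : ℝ) : ℂ) =
      ((N * (((S ×ˢ S).filter (fun p => (N : ℤ) ∣ a p.1 - a p.2)).card : ℝ) : ℝ) : ℂ) := by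
    push_cast
    have h1 : ∀ ξ ∈ range N, ((‖∑ v ∈ S, e (ξ * (a v / N))‖ : ℝ) : ℂ) ^ 2 =
        ∑ p ∈ S ×ˢ S, e (ξ * (((a p.1 - a p.2 : ℤ) : ℝ) / N)) := by
      intro ξ _
      have := normSq_sum S (fun v => (ξ : ℝ) * ((a v : ℝ) / N))
      push_cast at this
      rw [this, sum_product]
      apply sum_congr rfl
      intro u _
      apply sum_congr rfl
      intro v _
      congr 1
      push_cast
      ring
    rw [sum_congr rfl h1, sum_comm]
    have h2 : ∀ p ∈ S ×ˢ S, ∑ ξ ∈ range N, e (ξ * (((a p.1 - a p.2 : ℤ) : ℝ) / N)) =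
        if (N : ℤ) ∣ a p.1 - a p.2 then (N : ℂ) else 0 := by
      intro p _
      exact sum_e hN _
    rw [sum_congr rfl h2, ← sum_filter, sum_const, nsmul_eq_mul, mul_comm]
  exact_mod_cast h

/-- the majorant of short intervals -/
lemma fejer {R : ℕ} {x : ℝ} (hx : R * |x| ≤ 1 / 8) :
    (R : ℝ) ^ 2 / 2 ≤ ‖∑ r ∈ range R, e (r * x)‖ ^ 2 := by
  have h1 : ∀ r ∈ range R, √2 / 2 ≤ (e (r * x)).re := by
    intro r hr
    rw [mem_range] at hr
    rw [e_re, ← Real.cos_pi_div_four, ← Real.cos_abs (2 * Real.pi * (r * x))]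
    have hrR : (r : ℝ) ≤ R := by exact_mod_cast hr.le
    have h2 : |2 * Real.pi * (r * x)| ≤ Real.pi / 4 := by
      rw [abs_mul, abs_mul (r : ℝ), abs_of_pos (by positivity : (0 : ℝ) < 2 * Real.pi),
        abs_of_nonneg (Nat.cast_nonneg r)]
      have h3 : (r : ℝ) * |x| ≤ R * |x| := mul_le_mul_of_nonneg_right hrR (abs_nonneg x)
      have hpi := Real.pi_pos
      nlinarith
    apply Real.cos_le_cos_of_nonneg_of_le_pi (abs_nonneg _) _ h2
    have hpi := Real.pi_pos
    linarith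
  have h2 : R * (√2 / 2) ≤ (∑ r ∈ range R, e (r * x)).re := by
    rw [Complex.re_sum]
    have := Finset.card_nsmul_le_sum (range R) (fun r => (e (r * x)).re) (√2 / 2) h1
    rwa [card_range, nsmul_eq_mul] at this
  have h3 : (R : ℝ) * (√2 / 2) ≤ ‖∑ r ∈ range R, e (r * x)‖ :=
    h2.trans (Complex.re_le_norm _)
  have h4 : (0 : ℝ) ≤ R * (√2 / 2) := by positivity
  calc (R : ℝ) ^ 2 / 2 = (R * (√2 / 2)) ^ 2 := by
        rw [mul_pow, div_pow, Real.sq_sqrt (by norm_num)]; ring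
    _ ≤ _ := pow_le_pow_left₀ h4 h3 2

lemma sum_abs_sub (G : ℤ → ℝ) (hG0 : ∀ x, 0 ≤ G x) (hG : ∀ x, G (-x) = G x) (R : ℕ) {r : ℕ}
    (hr : r ∈ range R) :
    ∑ s ∈ range R, G ((r : ℤ) - s) ≤ 2 * ∑ ξ ∈ range R, G ξ := by
  rw [mem_range] at hr
  rw [← sum_filter_add_sum_filter_not (range R) (fun s => s ≤ r), two_mul]
  apply add_le_add
  · calc ∑ s ∈ (range R).filter (fun s => s ≤ r), G ((r : ℤ) - s)
        = ∑ s ∈ (range R).filter (fun s => s ≤ r), G ((r - s : ℕ) : ℤ) := by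
          apply sum_congr rfl
          intro s hs
          rw [mem_filter] at hs
          congr 1
          omega
      _ = ∑ ξ ∈ ((range R).filter (fun s => s ≤ r)).image (fun s => r - s), G (ξ : ℤ) := by
          rw [sum_image]
          intro a ha b hb hab
          simp only [coe_filter, mem_range, Set.mem_ofPred_eq] at ha hb
          simp only at hab
          omega
      _ ≤ _ := by
          apply sum_le_sum_of_subset_of_nonneg
          · intro ξ hξ
            rw [mem_image] at hξ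
            obtain ⟨s, hs, rfl⟩ := hξ
            rw [mem_range]; omega
          · intro ξ _ _; exact hG0 _
  · calc ∑ s ∈ (range R).filter (fun s => ¬ s ≤ r), G ((r : ℤ) - s)
        = ∑ s ∈ (range R).filter (fun s => ¬ s ≤ r), G ((s - r : ℕ) : ℤ) := by
          apply sum_congr rfl
          intro s hs
          rw [mem_filter] at hs
          rw [← hG]
          congr 1
          omega
      _ = ∑ ξ ∈ ((range R).filter (fun s => ¬ s ≤ r)).image (fun s => s - r), G (ξ : ℤ) := by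
          rw [sum_image]
          intro a ha b hb hab
          simp only [coe_filter, mem_range, Set.mem_ofPred_eq] at ha hb
          simp only at hab
          omega
      _ ≤ _ := by
          apply sum_le_sum_of_subset_of_nonneg
          · intro ξ hξ
            rw [mem_image] at hξ
            obtain ⟨s, hs, rfl⟩ := hξ
            rw [mem_filter, mem_range] at hs
            rw [mem_range]; omega
          · intro ξ _ _; exact hG0 _

/-- the residue of an integer with a given parity word -/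
lemma wd_residue {k : ℤ} (hk : Odd k) {K o : ℕ} {g x : ℤ} (hg : (2 : ℤ) ^ K ∣ 3 ^ o * g - 1)
    (ho : ones (wd k K x) = o) : (2 : ℤ) ^ K ∣ x - (-k * g) * cw (wd k K x) := by
  have h1 : (2 : ℤ) ^ K ∣ 3 ^ o * x + k * cw (wd k K x) := by
    rw [← ho, ← iter_eq hk]
    exact dvd_mul_right _ _
  have h2 : x - (-k * g) * cw (wd k K x) =
      g * (3 ^ o * x + k * cw (wd k K x)) - x * (3 ^ o * g - 1) := by ring
  rw [h2]
  exact dvd_sub (h1.mul_left g) (hg.mul_left x)

/-- THE COUNT OF SMALL INTEGERS WITH PARITY WORD IN A SET -/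
lemma count_four {k : ℤ} (hk : Odd k) {K R o : ℕ} (hR : 0 < R) (S : Finset (List Bool))
    (hSK : S ⊆ words K) (hSo : ∀ v ∈ S, ones v = o) {g : ℤ} (hg : (2 : ℤ) ^ K ∣ 3 ^ o * g - 1)
    (u : ℤ) (B : Finset ℤ) (hB : ∀ x ∈ B, |x - u| * (8 * R) ≤ 2 ^ K ∧ wd k K x ∈ S) :
    (B.card : ℝ) ≤ 4 / R * ∑ ξ ∈ range R, ‖∑ v ∈ S, e (ξ * (((-k * g * cw v : ℤ) : ℝ) / 2 ^ K))‖ := by
  classical
  have hRR : (0 : ℝ) < R := by exact_mod_cast hR
  have h2K : (0 : ℝ) < 2 ^ K := by positivity
  have h2Kz : (0 : ℤ) < 2 ^ K := by positivity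
  set c : ℝ → ℝ := fun x => ‖∑ r ∈ range R, e (r * ((x - u) / 2 ^ K))‖ ^ 2 with hc
  set F : ℤ → ℂ := fun ξ => ∑ v ∈ S, e (ξ * (((-k * g * cw v : ℤ) : ℝ) / 2 ^ K)) with hF
  -- the residues
  set res : ℤ → ℕ := fun x => (x % 2 ^ K).toNat with hres
  have hres1 : ∀ x : ℤ, ((res x : ℕ) : ℤ) = x % 2 ^ K := by
    intro x
    rw [hres]
    exact Int.toNat_of_nonneg (Int.emod_nonneg _ h2Kz.ne')
  have hres2 : ∀ x : ℤ, (2 : ℤ) ^ K ∣ (res x : ℤ) - x := by
    intro x
    rw [hres1]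
    exact (Int.dvd_self_sub_emod (x := x) (m := 2 ^ K)).neg_right |> fun h => by
      rwa [neg_sub] at h
  have hcper : ∀ x y : ℤ, (2 : ℤ) ^ K ∣ x - y → c x = c y := by
    intro x y h
    rw [hc]
    simp only
    congr 2
    apply sum_congr rfl
    intro r _
    apply e_congr
    obtain ⟨t, ht⟩ := h
    refine ⟨r * t, ?_⟩
    have : (x : ℝ) - y = 2 ^ K * t := by exact_mod_cast ht
    have e1 : (r : ℝ) * (((x : ℝ) - u) / 2 ^ K) - r * (((y : ℝ) - u) / 2 ^ K) =
        r * (((x : ℝ) - y) / 2 ^ K) := by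
      ring
    rw [e1, this]
    push_cast
    field_simp
  -- lower bound
  have hlow : (B.card : ℝ) * ((R : ℝ) ^ 2 / 2) ≤
      ∑ x ∈ range (2 ^ K), if wd k K (x : ℤ) ∈ S then c x else 0 := by
    have h1 : (B.card : ℝ) * ((R : ℝ) ^ 2 / 2) ≤ ∑ x ∈ B, c (x : ℝ) := by
      have := Finset.card_nsmul_le_sum B (fun x : ℤ => c (x : ℝ)) ((R : ℝ) ^ 2 / 2) (by
        intro x hx
        apply fejer
        obtain ⟨hx1, -⟩ := hB x hx
        have hx2 : |(x : ℝ) - u| * (8 * R) ≤ 2 ^ K := by exact_mod_cast hx1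
        rw [abs_div, abs_of_pos h2K, mul_div_assoc', div_le_iff₀ h2K]
        linarith)
      rwa [nsmul_eq_mul] at this
    refine h1.trans ?_
    have h2 : ∑ x ∈ B, c (x : ℝ) = ∑ x ∈ B.image res, c ((x : ℕ) : ℝ) := by
      rw [sum_image]
      · apply sum_congr rfl
        intro x _
        have := hcper (res x) x (hres2 x)
        rw [Int.cast_natCast] at this
        exact this.symm
      · intro x hx y hy hxy
        have h3 : (2 : ℤ) ^ K ∣ x - y := by
          have a1 := hres2 x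
          have a2 := hres2 y
          rw [hxy] at a1
          have := dvd_sub a2 a1
          rwa [show ((res y : ℕ) : ℤ) - y - ((res y : ℕ) - x) = x - y by ring] at this
        have h4 : x - y = 0 := by
          apply Int.eq_zero_of_abs_lt_dvd h3
          obtain ⟨hx1, -⟩ := hB x hx
          obtain ⟨hy1, -⟩ := hB y hy
          have hR1 : (1 : ℤ) ≤ R := by exact_mod_cast hR
          have hx0 := abs_nonneg (x - u)
          have hy0 := abs_nonneg (y - u)
          have h5 := abs_sub (x - u) (y - u)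
          rw [sub_sub_sub_cancel_right] at h5
          nlinarith
        omega
    rw [h2, ← sum_filter]
    apply sum_le_sum_of_subset_of_nonneg
    · intro n hn
      rw [mem_image] at hn
      obtain ⟨x, hx, rfl⟩ := hn
      rw [mem_filter, mem_range]
      constructor
      · have : ((res x : ℕ) : ℤ) < 2 ^ K := by
          rw [hres1]; exact Int.emod_lt_of_pos _ h2Kz
        exact_mod_cast this
      · rw [wd_congr hk (hres2 x)]
        exact (hB x hx).2
    · intro x _ _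
      positivity
  -- upper bound
  have hup : (∑ x ∈ range (2 ^ K), if wd k K (x : ℤ) ∈ S then c x else 0) ≤
      ∑ r ∈ range R, ∑ s ∈ range R, ‖F ((r : ℤ) - s)‖ := by
    have h1 : ∀ ξ : ℤ, (∑ x ∈ range (2 ^ K), if wd k K (x : ℤ) ∈ S then e (ξ * ((x : ℝ) / 2 ^ K)) else 0)
        = F ξ := by
      intro ξ
      have h2 : ∀ x ∈ range (2 ^ K), (if wd k K (x : ℤ) ∈ S then e (ξ * ((x : ℝ) / 2 ^ K)) else 0) =
          (fun v : List Bool => if v ∈ S then e (ξ * (((-k * g * cw v : ℤ) : ℝ) / 2 ^ K)) else 0)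
            (wd k K (x : ℤ)) := by
        intro x _
        simp only
        split_ifs with h
        · apply e_congr
          obtain ⟨t, ht⟩ := wd_residue hk (x := (x : ℤ)) hg (hSo _ h)
          refine ⟨ξ * t, ?_⟩
          have e1 : (x : ℝ) - ((-k * g * cw (wd k K (x : ℤ)) : ℤ) : ℝ) = 2 ^ K * t := by
            exact_mod_cast ht
          rw [← mul_sub, ← sub_div, e1]
          push_cast
          field_simp
        · rfl
      rw [sum_congr rfl h2]
      refine (sum_wd hk K (fun v : List Bool =>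
        if v ∈ S then e (ξ * (((-k * g * cw v : ℤ) : ℝ) / 2 ^ K)) else 0)).trans ?_
      rw [← sum_filter]
      apply sum_congr _ (fun _ _ => rfl)
      ext v
      rw [mem_filter]
      exact ⟨fun h => h.2, fun h => ⟨hSK h, h⟩⟩
    have h3 : ((∑ x ∈ range (2 ^ K), if wd k K (x : ℤ) ∈ S then c x else 0 : ℝ) : ℂ) =
        ∑ r ∈ range R, ∑ s ∈ range R,
          F ((r : ℤ) - s) * e (-((((r : ℤ) - s : ℤ) : ℝ) * ((u : ℝ) / 2 ^ K))) := by
      have h4 : ∀ r ∈ range R, ∀ s ∈ range R,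
          F ((r : ℤ) - s) * e (-((((r : ℤ) - s : ℤ) : ℝ) * ((u : ℝ) / 2 ^ K))) = ∑ x ∈ range (2 ^ K),
          if wd k K (x : ℤ) ∈ S then e ((((r : ℤ) - s : ℤ) : ℝ) * (((x : ℝ) - u) / 2 ^ K)) else 0 := by
        intro r _ s _
        rw [← h1, sum_mul]
        apply sum_congr rfl
        intro x _
        split_ifs
        · rw [← e_add]
          congr 1
          ring
        · rw [zero_mul]
      rw [sum_congr rfl (fun r hr => sum_congr rfl (fun s hs => h4 r hr s hs))]
      have h5 : ∀ r ∈ range R, (∑ s ∈ range R, ∑ x ∈ range (2 ^ K),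
          if wd k K (x : ℤ) ∈ S then e ((((r : ℤ) - s : ℤ) : ℝ) * (((x : ℝ) - u) / 2 ^ K)) else 0) =
          ∑ x ∈ range (2 ^ K), ∑ s ∈ range R,
          if wd k K (x : ℤ) ∈ S then e ((((r : ℤ) - s : ℤ) : ℝ) * (((x : ℝ) - u) / 2 ^ K)) else 0 :=
        fun r _ => sum_comm
      rw [sum_congr rfl h5, sum_comm]
      push_cast
      apply sum_congr rfl
      intro x _
      split_ifs with h
      · have := normSq_sum (range R) (fun r : ℕ => (r : ℝ) * (((x : ℝ) - u) / 2 ^ K))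
        rw [hc]
        simp only
        rw [this]
        apply sum_congr rfl
        intro r _
        apply sum_congr rfl
        intro s _
        congr 1
        ring
      · simp
    have h6 : ((∑ x ∈ range (2 ^ K), if wd k K (x : ℤ) ∈ S then c x else 0 : ℝ)) =
        ‖∑ r ∈ range R, ∑ s ∈ range R,
          F ((r : ℤ) - s) * e (-((((r : ℤ) - s : ℤ) : ℝ) * ((u : ℝ) / 2 ^ K)))‖ := by
      rw [← h3, Complex.norm_real, Real.norm_of_nonneg]
      apply sum_nonneg
      intro x _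
      split_ifs
      · positivity
      · exact le_rfl
    rw [h6]
    refine (norm_sum_le _ _).trans (sum_le_sum fun r _ => (norm_sum_le _ _).trans (le_of_eq ?_))
    apply sum_congr rfl
    intro s _
    rw [norm_mul, norm_e, mul_one]
  have hFneg : ∀ ξ : ℤ, ‖F (-ξ)‖ = ‖F ξ‖ := by
    intro ξ
    have : F (-ξ) = (starRingEnd ℂ) (F ξ) := by
      rw [hF]
      simp only
      rw [map_sum]
      apply sum_congr rfl
      intro v _
      rw [conj_e]
      congr 1
      push_cast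
      ring
    rw [this, RCLike.norm_conj]
  have h7 : ∑ r ∈ range R, ∑ s ∈ range R, ‖F ((r : ℤ) - s)‖ ≤ R * (2 * ∑ ξ ∈ range R, ‖F (ξ : ℤ)‖) := by
    have := Finset.sum_le_card_nsmul (range R) (fun r => ∑ s ∈ range R, ‖F ((r : ℤ) - s)‖)
      (2 * ∑ ξ ∈ range R, ‖F (ξ : ℤ)‖) (fun r hr => sum_abs_sub (fun x => ‖F x‖)
        (fun x => norm_nonneg _) hFneg R hr)
    rwa [card_range, nsmul_eq_mul] at this
  have h8 := (hlow.trans hup).trans h7
  have h9 : (B.card : ℝ) * R ^ 2 ≤ (4 * ∑ ξ ∈ range R, ‖F (ξ : ℤ)‖) * R := by linarith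
  rw [div_mul_eq_mul_div, le_div_iff₀ hRR]
  have h10 : (B.card : ℝ) * R * R ≤ (4 * ∑ ξ ∈ range R, ‖F (ξ : ℤ)‖) * R := by
    calc (B.card : ℝ) * R * R = (B.card : ℝ) * R ^ 2 := by ring
      _ ≤ _ := h9
  have h11 := le_of_mul_le_mul_right h10 hRR
  simpa [hF] using h11

end Pool.Agent.TH930.EBQ
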