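import Pool.Agent.TH930.EBQ.Const

/-! The bound for one type, all constants chosen. -/

set_option autoImplicit false

namespace Pool.Agent.TH930.EBQ

open Finset

lemma wd_take (k : ℤ) {n j : ℕ} (hj : j ≤ n) (x : ℤ) : (wd k n x).take j = wd k j x := by
  obtain ⟨b, rfl⟩ := Nat.exists_eq_add_of_le hj
  rw [wd_append, List.take_append_of_le_length (by simp)]
  rw [List.take_of_length_le (by simp)]

/-- congruent integers in a short interval -/
lemma card_cong {N : ℤ} (hN : 0 < N) (u : ℤ) (B : Finset ℤ) (h : ∀ x ∈ B, |x - u| ≤ N)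
    (hc : ∀ x ∈ B, ∀ y ∈ B, N ∣ x - y) : B.card ≤ 5 := by
  rcases B.eq_empty_or_nonempty with h0 | ⟨x0, hx0⟩
  · rw [h0]; simp
  · have h1 : B.card ≤ (Icc (-2 : ℤ) 2).card := by
      apply card_le_card_of_injOn (fun x => (x - x0) / N)
      · intro x hx
        rw [mem_coe] at hx
        obtain ⟨t, ht⟩ := hc x hx x0 hx0
        rw [mem_coe, mem_Icc, ← abs_le]
        simp only
        rw [ht, Int.mul_ediv_cancel_left _ hN.ne']
        have h2 : N * |t| ≤ N * 2 := by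
          have e1 : N * |t| = |x - x0| := by rw [ht, abs_mul, abs_of_pos hN]
          rw [e1]
          have := abs_sub (x - u) (x0 - u)
          rw [sub_sub_sub_cancel_right] at this
          have := h x hx
          have := h x0 hx0
          linarith
        exact le_of_mul_le_mul_left h2 hN
      · intro x hx y hy hxy
        rw [mem_coe] at hx hy
        obtain ⟨t, ht⟩ := hc x hx x0 hx0
        obtain ⟨w, hu⟩ := hc y hy x0 hx0
        simp only at hxy
        rw [ht, hu, Int.mul_ediv_cancel_left _ hN.ne', Int.mul_ediv_cancel_left _ hN.ne'] at hxy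
        rw [hxy, ← hu] at ht
        linarith
    simpa using h1

lemma trivial_count {k : ℤ} (hk : Odd k) {i m W : ℕ} (hW : W = 2 * m + i) (S1 S2 : Finset (List Bool))
    (u : ℤ) (B : Finset ℤ)
    (hB : ∀ x ∈ B, |x - u| ≤ 2 ^ W ∧ wd k i x ∈ S1 ∧ wd k (2 * m) ((T k)^[i] x) ∈ S2) :
    (B.card : ℝ) ≤ 5 * (S1.card * S2.card) := by
  classical
  have h1 : B.card ≤ 5 * (B.image (fun x => (wd k i x, wd k (2 * m) ((T k)^[i] x)))).card := by
    apply Finset.card_le_mul_card_image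
    intro a _
    apply card_cong (N := 2 ^ W) (by positivity) u
    · intro x hx
      rw [mem_filter] at hx
      exact (hB x hx.1).1
    · intro x hx y hy
      rw [mem_filter] at hx hy
      apply wd_inj hk
      have e1 : W = i + 2 * m := by omega
      have h2 := hx.2.trans hy.2.symm
      rw [Prod.mk.injEq] at h2
      rw [e1, wd_append, wd_append, h2.1, h2.2]
  have h2 : (B.image (fun x => (wd k i x, wd k (2 * m) ((T k)^[i] x)))).card ≤ (S1 ×ˢ S2).card := by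
    apply card_le_card
    intro a ha
    rw [mem_image] at ha
    obtain ⟨x, hx, rfl⟩ := ha
    rw [mem_product]
    exact (hB x hx).2
  rw [card_product] at h2
  have h3 : B.card ≤ 5 * (S1.card * S2.card) := h1.trans (Nat.mul_le_mul_left 5 h2)
  exact_mod_cast h3

lemma gs_pow {gs : ℝ} (h : 0 < gs) (n : ℕ) : gs ^ n = Real.exp (-(-Real.log gs * n)) := by
  have : Real.exp (-(-Real.log gs * n)) = Real.exp (n * Real.log gs) := by
    congr 1; ring
  rw [this, Real.exp_nat_mul, Real.exp_log h]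

lemma good_final {gs σ η c D kk : ℝ} {i s : ℕ} (hgs0 : 0 < gs) (hgs1 : gs < 1)
    (hs2 : σ * i < s + 1) (hkk : 0 ≤ kk)
    (hηe : η * ((lam + Real.log 3) / 2) = -Real.log gs * σ / 4) (hD : D ≤ η * i)
    (hci : c * i ≤ -Real.log gs * σ / 4 * i) :
    √(2 * gs ^ (s + 1) * (4 * kk * i + 4)) * Real.exp (D * ((lam + Real.log 3) / 2)) ≤
      16 * (kk + 1) * (i + 1) * Real.exp (-(c * i)) := by
  have hl : 0 < -Real.log gs := by linarith [Real.log_neg hgs0 hgs1]
  set lgs : ℝ := -Real.log gs with hlgs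
  have hii : (0 : ℝ) ≤ i := Nat.cast_nonneg i
  have hki : 0 ≤ kk * i := mul_nonneg hkk hii
  have hlam := lam_pos
  have hl3 := log3_pos
  have g3 : 2 * (4 * kk * i + 4) ≤ 16 * (kk + 1) * (i + 1) := by nlinarith
  have g4 : (1 : ℝ) ≤ 16 * (kk + 1) * (i + 1) := by nlinarith
  have g1 : √(2 * gs ^ (s + 1) * (4 * kk * i + 4)) ≤
      16 * (kk + 1) * (i + 1) * Real.exp (-(lgs * σ / 2 * i)) := by
    apply Real.sqrt_le_iff.2
    constructor
    · positivity
    · have g2 : gs ^ (s + 1) ≤ Real.exp (-(lgs * σ / 2 * i)) ^ 2 := by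
        rw [gs_pow hgs0, ← hlgs, ← Real.exp_nat_mul]
        apply Real.exp_le_exp.2
        push_cast
        have : lgs * (σ * i) ≤ lgs * (s + 1) := mul_le_mul_of_nonneg_left hs2.le hl.le
        linarith
      have g5 : 2 * (4 * kk * i + 4) ≤ (16 * (kk + 1) * (i + 1)) ^ 2 := by
        rw [sq]
        have : 16 * (kk + 1) * (i + 1) * 1 ≤ 16 * (kk + 1) * (i + 1) * (16 * (kk + 1) * (i + 1)) :=
          mul_le_mul_of_nonneg_left g4 (by linarith)
        linarith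
      calc 2 * gs ^ (s + 1) * (4 * kk * i + 4) = (2 * (4 * kk * i + 4)) * gs ^ (s + 1) := by ring
        _ ≤ (16 * (kk + 1) * (i + 1)) ^ 2 * Real.exp (-(lgs * σ / 2 * i)) ^ 2 :=
            mul_le_mul g5 g2 (by positivity) (by positivity)
        _ = _ := by ring
  have g6 : Real.exp (D * ((lam + Real.log 3) / 2)) ≤ Real.exp (lgs * σ / 4 * i) := by
    apply Real.exp_le_exp.2
    calc D * ((lam + Real.log 3) / 2) ≤ (η * i) * ((lam + Real.log 3) / 2) :=
          mul_le_mul_of_nonneg_right hD (by linarith)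
      _ = η * ((lam + Real.log 3) / 2) * i := by ring
      _ = _ := by rw [hηe]
  calc √(2 * gs ^ (s + 1) * (4 * kk * i + 4)) * Real.exp (D * ((lam + Real.log 3) / 2))
      ≤ (16 * (kk + 1) * (i + 1) * Real.exp (-(lgs * σ / 2 * i))) * Real.exp (lgs * σ / 4 * i) :=
        mul_le_mul g1 g6 (Real.exp_pos _).le (by positivity)
    _ = 16 * (kk + 1) * (i + 1) * Real.exp (-(lgs * σ / 4 * i)) := by
        rw [mul_assoc, ← Real.exp_add]; congr 2; ring
    _ ≤ _ := by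
        apply mul_le_mul_of_nonneg_left _ (by linarith)
        apply Real.exp_le_exp.2
        linarith

lemma bad_final {gs z σ δ c : ℝ} {i s m : ℕ} (hgs0 : 0 < gs) (hgs1 : gs < 1) (hz0 : 0 < z)
    (hz1 : z < 1) (hσe : σ * (-Real.log gs + 2 * -Real.log z) = δ / 3) (hs1 : (s : ℝ) ≤ σ * i)
    (hm : (12 * z) * m ≤ δ * (i + 2) / 3) (hci : c * i ≤ δ / 3 * i) :
    (1 + 12 * z) ^ m / (gs ^ (s + 1) * z ^ (2 * s + 1)) * Real.exp (-(i * δ)) ≤
      Real.exp (2 * δ / 3 + -Real.log gs + -Real.log z) * (i + 1) * Real.exp (-(c * i)) := by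
  have hl : 0 < -Real.log gs := by linarith [Real.log_neg hgs0 hgs1]
  have hl' : 0 < -Real.log z := by linarith [Real.log_neg hz0 hz1]
  have hii : (0 : ℝ) ≤ i := Nat.cast_nonneg i
  have g1 : (1 + 12 * z) ^ m ≤ Real.exp (δ * (i + 2) / 3) := by
    have g2 : 1 + 12 * z ≤ Real.exp (12 * z) := by
      have := Real.add_one_le_exp (12 * z)
      linarith
    calc (1 + 12 * z) ^ m ≤ Real.exp (12 * z) ^ m := pow_le_pow_left₀ (by positivity) g2 m
      _ = Real.exp ((12 * z) * m) := by rw [← Real.exp_nat_mul]; congr 1; ring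
      _ ≤ _ := Real.exp_le_exp.2 hm
  rw [gs_pow hgs0, gs_pow hz0, ← Real.exp_add]
  push_cast
  set lgs : ℝ := -Real.log gs with hlgs
  set lz : ℝ := -Real.log z with hlz
  have g3 : (s : ℝ) * (lgs + 2 * lz) ≤ σ * i * (lgs + 2 * lz) :=
    mul_le_mul_of_nonneg_right hs1 (by linarith)
  have g4 : σ * i * (lgs + 2 * lz) = δ / 3 * i := by
    calc σ * i * (lgs + 2 * lz) = σ * (lgs + 2 * lz) * i := by ring
      _ = _ := by rw [hσe]
  calc (1 + 12 * z) ^ m / Real.exp (-(lgs * (s + 1)) + -(lz * (2 * s + 1))) * Real.exp (-(i * δ))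
      ≤ Real.exp (δ * (i + 2) / 3) / Real.exp (-(lgs * (s + 1)) + -(lz * (2 * s + 1))) *
        Real.exp (-(i * δ)) := by
        apply mul_le_mul_of_nonneg_right _ (Real.exp_pos _).le
        exact div_le_div_of_nonneg_right g1 (Real.exp_pos _).le
    _ = Real.exp (δ * (i + 2) / 3 - (-(lgs * (s + 1)) + -(lz * (2 * s + 1))) + -(i * δ)) := by
        rw [← Real.exp_sub, ← Real.exp_add]
    _ ≤ Real.exp (2 * δ / 3 + lgs + lz + -(c * i)) := by
        apply Real.exp_le_exp.2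
        linarith
    _ = Real.exp (2 * δ / 3 + lgs + lz) * Real.exp (-(c * i)) := by rw [← Real.exp_add]
    _ ≤ _ := by
        apply mul_le_mul_of_nonneg_right _ (Real.exp_pos _).le
        have : 0 < Real.exp (2 * δ / 3 + lgs + lz) := Real.exp_pos _
        nlinarith

lemma small_final {i W K R : ℕ} {kk : ℝ} (hkk : 0 ≤ kk) (hK : K = W + i) (hR8 : 8 * R ≤ 2 ^ i)
    (hiW : (i : ℝ) ≤ W / 4) (h2 : 2 * Real.pi * kk ≤ Real.exp (Real.log 2 / 2 * W)) :
    ((2 : ℝ) ^ i) * (2 * Real.pi * R * kk * i) ≤ 2 ^ K := by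
  have hl2 := log2_pos
  have hR8R : (8 : ℝ) * R ≤ 2 ^ i := by exact_mod_cast hR8
  have hR0 : (0 : ℝ) ≤ R := Nat.cast_nonneg R
  have hRR : (R : ℝ) ≤ 2 ^ i := by linarith
  have hii : (0 : ℝ) ≤ i := Nat.cast_nonneg i
  have g1 : (i : ℝ) ≤ 2 ^ i := by exact_mod_cast (Nat.lt_two_pow_self (n := i)).le
  have g2 : (2 : ℝ) ^ i * 2 ^ i ≤ Real.exp (Real.log 2 / 2 * W) := by
    rw [pow2_exp, ← Real.exp_add]
    apply Real.exp_le_exp.2
    have : (i : ℝ) * Real.log 2 ≤ W / 4 * Real.log 2 := mul_le_mul_of_nonneg_right hiW hl2.le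
    linarith
  have g3 : (2 : ℝ) ^ K = Real.exp (Real.log 2 / 2 * W) * Real.exp (Real.log 2 / 2 * W) * 2 ^ i := by
    rw [hK, pow_add, pow2_exp W, ← Real.exp_add]
    congr 2
    ring
  rw [g3]
  have hpi := Real.pi_pos
  calc (2 : ℝ) ^ i * (2 * Real.pi * R * kk * i)
      = (2 * Real.pi * kk) * (R * i) * 2 ^ i := by ring
    _ ≤ (2 * Real.pi * kk) * (2 ^ i * 2 ^ i) * 2 ^ i := by gcongr
    _ ≤ Real.exp (Real.log 2 / 2 * W) * Real.exp (Real.log 2 / 2 * W) * 2 ^ i := by gcongr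

lemma rid_cond1 {i W : ℕ} (hiW : (i : ℝ) ≤ W / 4) : (2 : ℝ) ^ i ≤ 2 ^ W * Real.exp (-(1 / 4 * W)) := by
  rw [pow2_exp, pow2_exp, ← Real.exp_add]
  apply Real.exp_le_exp.2
  have h := Real.log_two_gt_d9
  have hW : (0 : ℝ) ≤ W := Nat.cast_nonneg W
  have h1 : (i : ℝ) * Real.log 2 ≤ W / 4 * Real.log 2 := mul_le_mul_of_nonneg_right hiW (by linarith)
  have h2 : (W : ℝ) * (1 / 3) ≤ W * Real.log 2 := mul_le_mul_of_nonneg_left (by linarith) hW
  linarith

lemma rid_cond2 {i W R : ℕ} {ε τ kk : ℝ} (hτ2 : τ ≤ ε) (hRR : (R : ℝ) ≤ 2 ^ i)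
    (hi1 : (i : ℝ) ≤ τ * W) (h1 : kk ≤ Real.exp (ε * (1 - Real.log 2) * W)) :
    kk * R ≤ Real.exp (ε * W) := by
  have hl2 := log2_pos
  have hW : (0 : ℝ) ≤ W := Nat.cast_nonneg W
  have g1 : (R : ℝ) ≤ Real.exp (i * Real.log 2) := by rw [← pow2_exp]; exact hRR
  have hR0 : (0 : ℝ) ≤ R := Nat.cast_nonneg R
  calc kk * R ≤ Real.exp (ε * (1 - Real.log 2) * W) * Real.exp (i * Real.log 2) :=
        mul_le_mul h1 g1 hR0 (Real.exp_pos _).le
    _ = Real.exp (ε * (1 - Real.log 2) * W + i * Real.log 2) := by rw [← Real.exp_add]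
    _ ≤ Real.exp (ε * W) := by
        apply Real.exp_le_exp.2
        have g3 : τ * W ≤ ε * W := mul_le_mul_of_nonneg_right hτ2 hW
        have g2 : (i : ℝ) * Real.log 2 ≤ (ε * W) * Real.log 2 :=
          mul_le_mul_of_nonneg_right (by linarith) hl2.le
        linarith

lemma rid_cond3 {o W : ℕ} {D : ℝ} (h : -D ≤ (o : ℝ) - kap * W) (hD : D ≤ W / 8) :
    (W : ℝ) / 4 ≤ ((o + 1 : ℕ) : ℝ) := by
  push_cast
  have h2 := kap_gt_half
  have hW : (0 : ℝ) ≤ W := Nat.cast_nonneg W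
  have h3 : 1 / 2 * (W : ℝ) ≤ kap * W := mul_le_mul_of_nonneg_right h2.le hW
  linarith

lemma m_bound {i m W : ℕ} {z τ δ : ℝ} (hWi : W = 2 * m + i) (hτ0 : 0 < τ) (hτ1 : τ ≤ 1 / 4)
    (hδ0 : 0 < δ) (hz2 : z ≤ τ * δ / 18) (hi2 : τ * W - 2 ≤ i) : (12 * z) * m ≤ δ * (i + 2) / 3 := by
  have hm0 : (0 : ℝ) ≤ m := Nat.cast_nonneg m
  have hi0 : (0 : ℝ) ≤ i := Nat.cast_nonneg i
  have h1 : (2 * m + i : ℝ) = W := by exact_mod_cast hWi.symm
  have h4 : 2 * (m : ℝ) * τ ≤ i + 2 := by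
    rw [← h1] at hi2
    have : 0 ≤ τ * i := mul_nonneg hτ0.le hi0
    linarith
  calc (12 * z) * m ≤ (12 * (τ * δ / 18)) * m := by
        apply mul_le_mul_of_nonneg_right _ hm0
        linarith
    _ = δ / 3 * (2 * m * τ) := by ring
    _ ≤ δ / 3 * (i + 2) := mul_le_mul_of_nonneg_left h4 (by linarith)
    _ = _ := by ring

lemma atyp_final {i m W o1 om : ℕ} {t η c D : ℝ} (hWi : W = 2 * m + i) (ht0 : 0 < t) (ht2 : t ≤ η / 2)
    (dW : -D ≤ ((o1 + om : ℕ) : ℝ) - kap * W) (hD : η * i < (o1 : ℝ) - kap * i)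
    (hci3 : c * i ≤ t * η / 2 * i) {a b : ℝ} (ha0 : 0 ≤ b)
    (ha : a ≤ Real.exp (i * Hh - (o1 - kap * i) * lam - t * (o1 - kap * i) + t ^ 2 * i))
    (hb : b ≤ Real.exp ((2 * m : ℕ) * Hh - (om - kap * (2 * m : ℕ)) * lam)) :
    a * b ≤ Real.exp (D * lam) * Real.exp (W * Hh - c * i) := by
  have hlam := lam_pos
  have hii : (0 : ℝ) ≤ i := Nat.cast_nonneg i
  calc a * b ≤
      Real.exp (i * Hh - (o1 - kap * i) * lam - t * (o1 - kap * i) + t ^ 2 * i) *
      Real.exp ((2 * m : ℕ) * Hh - (om - kap * (2 * m : ℕ)) * lam) :=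
        mul_le_mul ha hb ha0 (Real.exp_pos _).le
    _ = Real.exp (W * Hh - (((o1 + om : ℕ) : ℝ) - kap * W) * lam - t * (o1 - kap * i) + t ^ 2 * i) := by
        rw [← Real.exp_add]
        congr 1
        rw [hWi]
        push_cast
        ring
    _ ≤ Real.exp (D * lam + (W * Hh - c * i)) := by
        apply Real.exp_le_exp.2
        have g1 : t * (η * i) ≤ t * (o1 - kap * i) := mul_le_mul_of_nonneg_left hD.le ht0.le
        have g2 : t ^ 2 * i ≤ t * (η / 2) * i := by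
          rw [sq]
          apply mul_le_mul_of_nonneg_right _ hii
          exact mul_le_mul_of_nonneg_left ht2 ht0.le
        have g3 : -D * lam ≤ (((o1 + om : ℕ) : ℝ) - kap * W) * lam :=
          mul_le_mul_of_nonneg_right dW hlam.le
        linarith
    _ = _ := by rw [Real.exp_add]

lemma exists_i {τ : ℝ} {W : ℕ} (hτ0 : 0 < τ) (hτ1 : τ ≤ 1 / 4) (h3 : 5 ≤ τ * (W : ℝ)) :
    ∃ i m : ℕ, W = 2 * m + i ∧ (i : ℝ) ≤ τ * W ∧ τ * W - 2 ≤ i := by
  have hW0 : (0 : ℝ) ≤ W := Nat.cast_nonneg W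
  set i0 := ⌊τ * (W : ℝ)⌋₊ with hi0
  have a1 : (i0 : ℝ) ≤ τ * W := Nat.floor_le (by positivity)
  have a2 : τ * W < i0 + 1 := Nat.lt_floor_add_one _
  have a3 : (i0 : ℝ) ≤ W := by nlinarith
  have a4 : i0 ≤ W := by exact_mod_cast a3
  have a5 : 1 ≤ i0 := Nat.le_floor (by push_cast; linarith)
  rcases Nat.even_or_odd' (W - i0) with ⟨m, hm | hm⟩
  · exact ⟨i0, m, by omega, a1, by linarith⟩
  · refine ⟨i0 - 1, m + 1, by omega, ?_, ?_⟩
    · rw [Nat.cast_sub a5]; push_cast; linarith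
    · rw [Nat.cast_sub a5]; push_cast; linarith

lemma tendsto_exp_nat {a : ℝ} (ha : 0 < a) (b : ℝ) : ∀ᶠ W : ℕ in Filter.atTop, b ≤ Real.exp (a * W) := by
  have h1 : Filter.Tendsto (fun W : ℕ => Real.exp (a * W)) Filter.atTop Filter.atTop := by
    apply Real.tendsto_exp_atTop.comp
    exact Filter.Tendsto.const_mul_atTop ha tendsto_natCast_atTop_atTop
  exact h1.eventually_ge_atTop _

/-- one type, the constants given -/
theorem type_step {k : ℤ} (hk : Odd k) {τ ε gs δ z σ η t c μ : ℝ} (hτ0 : 0 < τ) (hτ1 : τ ≤ 1 / 4)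
    (hτ2 : τ ≤ ε) (hgs : gs = 1 - kap * (1 - kap) / 32) (hgs0 : 0 < gs) (hgs1 : gs < 1)
    (hδ : δ = Real.log 2 - Hh) (hδ0 : 0 < δ) (hz0 : 0 < z) (hz1 : z ≤ 1 / 2)
    (hz2 : z ≤ τ * δ / 18) (hσ0 : 0 < σ)
    (hσe : σ * (-Real.log gs + 2 * -Real.log z) = δ / 3)
    (hηe : η * ((lam + Real.log 3) / 2) = -Real.log gs * σ / 4) (ht0 : 0 < t) (ht1 : t ≤ 1 / 2)
    (ht2 : t ≤ η / 2) (hc1 : c ≤ δ / 3) (hc2 : c ≤ -Real.log gs * σ / 4) (hc3 : c ≤ t * η / 2)
    (hμ0 : 0 < μ) (hμ1 : μ ≤ ε * (1 - Real.log 2)) (hμ2 : μ ≤ 1 / 8) (hμ3 : μ ≤ τ / 4)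
    {N0 W Q : ℕ} (hWN : N0 ≤ W)
    (hrid : ∀ W : ℕ, N0 ≤ W → ∀ (L i R : ℕ) (k : ℤ),
      (W : ℝ) / 4 ≤ L → (L : ℝ) ≤ 4 * W → (2 : ℝ) ^ i ≤ 2 ^ W * Real.exp (-(1 / 4 * W)) →
      |(k : ℝ)| * R ≤ Real.exp (ε * W) →
      ∀ x d : ℤ, |x| ≤ 2 ^ i → |d| < R → (2 : ℤ) ^ W ∣ 3 ^ L * x + k * d → x = 0)
    (hQ1 : 1 ≤ Q) (hQ : (Q : ℝ) ≤ Real.exp (μ * W)) (hkμ : |(k : ℝ)| ≤ Real.exp (μ * W))
    (h2 : 2 * Real.pi * Real.exp (2 * μ * W) ≤ Real.exp (Real.log 2 / 2 * W)) (h3 : 16 ≤ τ * (W : ℝ))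
    {i m : ℕ} (hWi : W = 2 * m + i) (hi1 : (i : ℝ) ≤ τ * W) (hi2 : τ * W - 2 ≤ i)
    (o1 om o2 : ℕ) (u : ℤ) (B : Finset ℤ) (hB : ∀ x ∈ B, |x - u| ≤ 2 ^ W ∧
      (∀ j ≤ W + i, 2 ^ j ≤ Q * 3 ^ ones (wd k j x)) ∧ ones (wd k i x) = o1 ∧
      ones (wd k (2 * m) ((T k)^[i] x)) = om ∧ ones (wd k i ((T k)^[W] x)) = o2) :
    (B.card : ℝ) ≤ (64 * (32 + Real.exp (2 * δ / 3 + -Real.log gs + -Real.log z)) + 5) * (i + 1) *
      Real.exp ((3 + lam) * μ * W) * Real.exp (W * Hh - c * i) := by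
  classical
  have hkp := kap_pos
  have hk1 := kap_lt_one
  have hlam := lam_pos
  have hl3 := log3_pos
  have hq0 : 0 < 1 - kap := by linarith
  have hpq : kap + (1 - kap) = 1 := by ring
  have hW0 : (0 : ℝ) ≤ W := Nat.cast_nonneg W
  have hi3R : (3 : ℝ) ≤ i := by linarith
  have hi3 : 3 ≤ i := by exact_mod_cast hi3R
  have hiW : (i : ℝ) ≤ W / 4 := by
    have : τ * W ≤ 1 / 4 * W := mul_le_mul_of_nonneg_right hτ1 hW0
    linarith
  have hii : (0 : ℝ) ≤ i := Nat.cast_nonneg i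
  set C0 : ℝ := Real.exp (2 * δ / 3 + -Real.log gs + -Real.log z) with hC0
  have hC00 : 0 < C0 := Real.exp_pos _
  have hkk0 := abs_nonneg (k : ℝ)
  have hQR : (1 : ℝ) ≤ Q := by exact_mod_cast hQ1
  have hQ0 : (0 : ℝ) < Q := by linarith
  have hlogQ : Real.log Q ≤ μ * W := by
    rw [Real.log_le_iff_le_exp hQ0]; exact hQ
  have hlogQ0 : 0 ≤ Real.log Q := Real.log_nonneg hQR
  set D : ℝ := Real.log Q / Real.log 3 with hD
  have hD0 : 0 ≤ D := by positivity
  have hl31 : 1 ≤ Real.log 3 := by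
    rw [Real.le_log_iff_exp_le (by norm_num)]
    have := Real.exp_one_lt_d9
    linarith
  have hDμ : D ≤ μ * W := by
    rw [hD, div_le_iff₀ hl3]
    have : μ * W * 1 ≤ μ * W * Real.log 3 := mul_le_mul_of_nonneg_left hl31 (by positivity)
    linarith
  have hkQ : Q * |(k : ℝ)| ≤ Real.exp (2 * μ * W) := by
    calc Q * |(k : ℝ)| ≤ Real.exp (μ * W) * Real.exp (μ * W) := mul_le_mul hQ hkμ hkk0 (Real.exp_pos _).le
      _ = _ := by rw [← Real.exp_add]; congr 1; ring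
  have hkQ0 : 0 ≤ Q * |(k : ℝ)| := by positivity
  have hDl : Real.exp (D * lam) ≤ Real.exp (lam * μ * W) := by
    apply Real.exp_le_exp.2
    calc D * lam ≤ (μ * W) * lam := mul_le_mul_of_nonneg_right hDμ hlam.le
      _ = _ := by ring
  set K := W + i with hK
  rcases B.eq_empty_or_nonempty with hBe | ⟨x0, hx0⟩
  · rw [hBe, card_empty, Nat.cast_zero]; positivity
  -- the numbers of ones
  obtain ⟨-, y2, y3, y4, y5⟩ := hB x0 hx0
  have hspl : ∀ x : ℤ, wd k K x = wd k i x ++ (wd k (2 * m) ((T k)^[i] x) ++ wd k i ((T k)^[W] x)) := by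
    intro x
    have e4 : K = i + (2 * m + i) := by omega
    rw [e4, wd_append, wd_append, ← Function.iterate_add_apply]
    congr 3
    congr 1
    omega
  have hsplW : ∀ x : ℤ, wd k W x = wd k i x ++ wd k (2 * m) ((T k)^[i] x) := by
    intro x
    have e4 : W = i + 2 * m := by omega
    rw [e4, wd_append]
  have f1 : 2 ^ i ≤ Q * 3 ^ o1 := by rw [← y3]; exact y2 i (by omega)
  have f2 : 2 ^ W ≤ Q * 3 ^ (o1 + om) := by
    have := y2 W (by omega)
    rwa [hsplW, ones_append, y3, y4] at this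
  have f3 : 2 ^ K ≤ Q * 3 ^ (o1 + om + o2) := by
    have := y2 K le_rfl
    rwa [hspl, ones_append, ones_append, y3, y4, y5, ← add_assoc] at this
  have l1 : o1 ≤ i := by
    have := ones_le_length (wd k i x0)
    rwa [y3, wd_length] at this
  have l2 : om ≤ 2 * m := by
    have := ones_le_length (wd k (2 * m) ((T k)^[i] x0))
    rwa [y4, wd_length] at this
  have l3 : o2 ≤ i := by
    have := ones_le_length (wd k i ((T k)^[W] x0))
    rwa [y5, wd_length] at this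
  have dW := dev_ge hQ1 f2
  have dK := dev_ge hQ1 f3
  rw [← hD] at dW dK
  -- the sets
  set S1 := (words i).filter (fun v => ones v = o1 ∧ Pre Q v) with hS1
  set S2 := (words (2 * m)).filter (fun v => ones v = om) with hS2
  set S3 := (words i).filter (fun v => ones v = o2) with hS3
  have s1 : ∀ v ∈ S1, v.length = i ∧ ones v = o1 ∧ Pre Q v := by
    intro v hv
    rw [hS1, mem_filter, mem_words] at hv
    exact hv
  have s2 : ∀ v ∈ S2, v.length = 2 * m ∧ ones v = om := by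
    intro v hv
    rw [hS2, mem_filter, mem_words] at hv
    exact hv
  have s3 : ∀ v ∈ S3, v.length = i ∧ ones v = o2 := by
    intro v hv
    rw [hS3, mem_filter, mem_words] at hv
    exact hv
  have m1 : ∀ x ∈ B, wd k i x ∈ S1 := by
    intro x hx
    obtain ⟨-, b2, b3, -, -⟩ := hB x hx
    rw [hS1, mem_filter]
    refine ⟨wd_mem k i x, b3, ?_⟩
    intro j hj
    rw [wd_length] at hj
    rw [wd_take k hj]
    exact b2 j (by omega)
  have m2 : ∀ x ∈ B, wd k (2 * m) ((T k)^[i] x) ∈ S2 := by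
    intro x hx
    obtain ⟨-, -, -, b4, -⟩ := hB x hx
    rw [hS2, mem_filter]
    exact ⟨wd_mem k _ _, b4⟩
  have m3 : ∀ x ∈ B, wd k i ((T k)^[W] x) ∈ S3 := by
    intro x hx
    obtain ⟨-, -, -, -, b5⟩ := hB x hx
    rw [hS3, mem_filter]
    exact ⟨wd_mem k _ _, b5⟩
  have c1 := card_le_U S1 (fun v hv => ⟨(s1 v hv).1, (s1 v hv).2.1⟩) l1
  have c2 := card_le_U S2 s2 l2
  have c3 := card_le_U S3 s3 l3
  have hci : c * i ≤ δ / 3 * i := mul_le_mul_of_nonneg_right hc1 hii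
  have hci2 : c * i ≤ -Real.log gs * σ / 4 * i := mul_le_mul_of_nonneg_right hc2 hii
  have hci3 : c * i ≤ t * η / 2 * i := mul_le_mul_of_nonneg_right hc3 hii
  have hexpsplit : Real.exp (W * Hh - c * i) = Real.exp (W * Hh) * Real.exp (-(c * i)) := by
    rw [← Real.exp_add]; rfl
  set E3 : ℝ := Real.exp ((3 + lam) * μ * W) with hE3
  have hE30 : 0 < E3 := Real.exp_pos _
  rcases le_or_gt ((o1 : ℝ) - kap * i) (η * i) with htyp | htyp
  · -- typical
    set q : ℕ := Nat.clog 2 Q with hq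
    have hqQ : Q ≤ 2 ^ q := Nat.le_pow_clog (by norm_num) Q
    have hqQ2 : 2 ^ q ≤ 2 * Q := by
      rcases Nat.eq_zero_or_pos q with h | h
      · rw [h]; omega
      · have h1 : 1 < Q := by
          by_contra hcon
          have : Q = 1 := by omega
          rw [hq, this] at h
          simp at h
        have := Nat.pow_pred_clog_lt_self (b := 2) (by norm_num) h1
        rw [← hq] at this
        have e5 : 2 ^ q = 2 * 2 ^ (q - 1) := by rw [← pow_succ']; congr 1; omega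
        have e6 : 2 ^ q.pred = 2 ^ (q - 1) := rfl
        omega
    have hqi : 3 + q ≤ i := by
      have h5 : (q : ℝ) * Real.log 2 ≤ Real.log 2 + μ * W := by
        have h6 : ((2 : ℝ) ^ q) ≤ 2 * Q := by exact_mod_cast hqQ2
        have h7 := Real.log_le_log (by positivity) h6
        rw [Real.log_pow, Real.log_mul (by norm_num) hQ0.ne'] at h7
        linarith
      have h6 := Real.log_two_gt_d9
      have h7 : (q : ℝ) * (1 / 2) ≤ q * Real.log 2 :=
        mul_le_mul_of_nonneg_left (by linarith) (Nat.cast_nonneg q)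
      have h7' := Real.log_two_lt_d9
      have h8 : μ * W ≤ τ / 4 * W := mul_le_mul_of_nonneg_right hμ3 hW0
      have h9 : (3 + q : ℝ) ≤ i := by linarith
      exact_mod_cast h9
    set R : ℕ := 2 ^ (i - 3 - q) with hR
    have hR8 : 8 * 2 ^ q * R = 2 ^ i := by
      rw [hR, show (8 : ℕ) = 2 ^ 3 by norm_num, ← pow_add, ← pow_add]; congr 1; omega
    have hR8R : (8 : ℝ) * 2 ^ q * R = 2 ^ i := by exact_mod_cast hR8
    have hR0 : 0 < R := by rw [hR]; positivity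
    have hR8' : 8 * R ≤ 2 ^ i := by
      have h1q : 1 ≤ 2 ^ q := Nat.one_le_two_pow
      calc 8 * R = 8 * 1 * R := by ring
        _ ≤ 8 * 2 ^ q * R := by gcongr
        _ = 2 ^ i := hR8
    have hR3 : R ≤ 3 ^ o1 := by
      have h5 : 2 ^ q * (8 * R) ≤ 2 ^ q * 3 ^ o1 := by
        calc 2 ^ q * (8 * R) = 2 ^ i := by rw [← hR8]; ring
          _ ≤ Q * 3 ^ o1 := f1
          _ ≤ 2 ^ q * 3 ^ o1 := by gcongr
      have h6 := Nat.le_of_mul_le_mul_left h5 (by positivity)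
      omega
    have hRR : (R : ℝ) ≤ 2 ^ i := by
      have h5 : ((8 * R : ℕ) : ℝ) ≤ ((2 ^ i : ℕ) : ℝ) := by exact_mod_cast hR8'
      push_cast at h5
      have : (0 : ℝ) ≤ R := Nat.cast_nonneg R
      linarith
    set s : ℕ := ⌊σ * i⌋₊ with hs
    have hs1 : (s : ℝ) ≤ σ * i := Nat.floor_le (mul_nonneg hσ0.le hii)
    have hs2 : σ * i < s + 1 := Nat.lt_floor_add_one _
    have hm := m_bound hWi hτ0 hτ1 hδ0 hz2 hi2
    have hsm : ((2 : ℝ) ^ i) * (2 * Real.pi * R * |(k : ℝ)| * (Q * i)) ≤ 2 ^ K := by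
      have h5 := small_final (kk := Q * |(k : ℝ)|) hkQ0 hK hR8' hiW (by
        refine le_trans ?_ h2
        apply mul_le_mul_of_nonneg_left hkQ
        have := Real.pi_pos
        positivity)
      calc ((2 : ℝ) ^ i) * (2 * Real.pi * R * |(k : ℝ)| * (Q * i)) =
          ((2 : ℝ) ^ i) * (2 * Real.pi * R * (Q * |(k : ℝ)|) * i) := by ring
        _ ≤ _ := h5
    have h5 := type_bound hkp hq0 hpq hk (i := i) (m := m) (W := W) (K := K) (R := R) (Q := Q)
      (o1 := o1) (om := om) (o2 := o2) (s := s) (by omega) hWi hK hR0 hR8' hR3 l2 hsm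
      (hrid W hWN (o1 + om + 1) i R k (rid_cond3 dW (by
          have : μ * W ≤ 1 / 8 * W := mul_le_mul_of_nonneg_right hμ2 hW0
          linarith))
        (by
          have : o1 + om + 1 ≤ 4 * W := by omega
          exact_mod_cast this) (rid_cond1 hiW) (rid_cond2 hτ2 hRR hi1 (by
            refine hkμ.trans (Real.exp_le_exp.2 ?_)
            exact mul_le_mul_of_nonneg_right hμ1 hW0)))
      hz0 (by linarith) S1 S2 S3 s1 hS2 s3 (card_pos.2 ⟨_, m1 x0 hx0⟩) u B (by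
        intro x hx
        exact ⟨(hB x hx).1, _, m1 x hx, _, m2 x hx, _, m3 x hx, hspl x⟩)
    rw [← hgs, mul_add] at h5
    have h6 := good_le (k := k) (s := s) (Q := Q) (G := 2 ^ q) hgs0 hWi hR8 l2 S1 S2 S3 c1 c2 c3 dW dK
    have h7 := bad_le (G := 2 ^ q) (Y := (1 + 12 * z) ^ m / (gs ^ (s + 1) * z ^ (2 * s + 1))) hWi hR8
      S1 S2 S3 (by positivity) c1 c2 c3 dK
    refine h5.trans ((add_le_add h6 h7).trans ?_)
    have hgood := good_final (kk := Q * |(k : ℝ)|) hgs0 hgs1 hs2 hkQ0 hηe htyp hci2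
    have ekk : 4 * (Q * |(k : ℝ)|) * i + 4 = 4 * Q * |(k : ℝ)| * i + 4 := by ring
    rw [ekk] at hgood
    have hbad := bad_final hgs0 hgs1 hz0 (by linarith) hσe hs1 hm hci
    rw [← hC0, hδ] at hbad
    rw [hexpsplit]
    have hEW := Real.exp_pos (W * Hh)
    have hEc := Real.exp_pos (-(c * i))
    have hED := Real.exp_pos (D * lam)
    have hG : (((2 ^ q : ℕ)) : ℝ) ≤ 2 * Real.exp (μ * W) := by
      have : (((2 ^ q : ℕ)) : ℝ) ≤ 2 * Q := by exact_mod_cast hqQ2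
      linarith
    have hG0 : (0 : ℝ) ≤ ((2 ^ q : ℕ) : ℝ) := Nat.cast_nonneg _
    have hP : 0 ≤ 32 * (((2 ^ q : ℕ)) : ℝ) * Real.exp (D * lam) * Real.exp (W * Hh) := by positivity
    refine (add_le_add (mul_le_mul_of_nonneg_left hgood hP) (mul_le_mul_of_nonneg_left hbad hP)).trans ?_
    have hkQ2 : Q * |(k : ℝ)| + 1 ≤ 2 * Real.exp (2 * μ * W) := by
      have : 1 ≤ Real.exp (2 * μ * W) := Real.one_le_exp (by positivity)
      linarith
    have hGD : (((2 ^ q : ℕ)) : ℝ) * Real.exp (D * lam) ≤ 2 * Real.exp (μ * W) * Real.exp (lam * μ * W) :=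
      mul_le_mul hG hDl hED.le (by positivity)
    have hE3a : Real.exp (μ * W) * Real.exp (lam * μ * W) * Real.exp (2 * μ * W) = E3 := by
      rw [hE3, ← Real.exp_add, ← Real.exp_add]; congr 1; ring
    have hE3b : Real.exp (μ * W) * Real.exp (lam * μ * W) ≤ E3 := by
      rw [← hE3a]
      apply le_mul_of_one_le_right (by positivity)
      exact Real.one_le_exp (by positivity)
    have t1 : 32 * (((2 ^ q : ℕ)) : ℝ) * Real.exp (D * lam) * Real.exp (W * Hh) *
        (16 * (Q * |(k : ℝ)| + 1) * (i + 1) * Real.exp (-(c * i))) ≤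
        2048 * (i + 1) * E3 * (Real.exp (W * Hh) * Real.exp (-(c * i))) := by
      calc 32 * (((2 ^ q : ℕ)) : ℝ) * Real.exp (D * lam) * Real.exp (W * Hh) *
          (16 * (Q * |(k : ℝ)| + 1) * (i + 1) * Real.exp (-(c * i)))
          = 512 * ((((2 ^ q : ℕ)) : ℝ) * Real.exp (D * lam)) * (Q * |(k : ℝ)| + 1) *
            ((i + 1) * (Real.exp (W * Hh) * Real.exp (-(c * i)))) := by ring
        _ ≤ 512 * (2 * Real.exp (μ * W) * Real.exp (lam * μ * W)) * (2 * Real.exp (2 * μ * W)) *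
            ((i + 1) * (Real.exp (W * Hh) * Real.exp (-(c * i)))) := by
            apply mul_le_mul_of_nonneg_right _ (by positivity)
            exact mul_le_mul (mul_le_mul_of_nonneg_left hGD (by norm_num)) hkQ2 (by positivity)
              (by positivity)
        _ = 2048 * (Real.exp (μ * W) * Real.exp (lam * μ * W) * Real.exp (2 * μ * W)) *
            ((i + 1) * (Real.exp (W * Hh) * Real.exp (-(c * i)))) := by ring
        _ = _ := by rw [hE3a]; ring
    have t2 : 32 * (((2 ^ q : ℕ)) : ℝ) * Real.exp (D * lam) * Real.exp (W * Hh) *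
        (C0 * (i + 1) * Real.exp (-(c * i))) ≤
        64 * C0 * (i + 1) * E3 * (Real.exp (W * Hh) * Real.exp (-(c * i))) := by
      calc 32 * (((2 ^ q : ℕ)) : ℝ) * Real.exp (D * lam) * Real.exp (W * Hh) *
          (C0 * (i + 1) * Real.exp (-(c * i)))
          = 32 * ((((2 ^ q : ℕ)) : ℝ) * Real.exp (D * lam)) *
            (C0 * (i + 1) * (Real.exp (W * Hh) * Real.exp (-(c * i)))) := by ring
        _ ≤ 32 * (2 * Real.exp (μ * W) * Real.exp (lam * μ * W)) *
            (C0 * (i + 1) * (Real.exp (W * Hh) * Real.exp (-(c * i)))) := by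
            apply mul_le_mul_of_nonneg_right _ (by positivity)
            exact mul_le_mul_of_nonneg_left hGD (by norm_num)
        _ = 64 * (Real.exp (μ * W) * Real.exp (lam * μ * W)) *
            (C0 * (i + 1) * (Real.exp (W * Hh) * Real.exp (-(c * i)))) := by ring
        _ ≤ 64 * E3 * (C0 * (i + 1) * (Real.exp (W * Hh) * Real.exp (-(c * i)))) := by
            apply mul_le_mul_of_nonneg_right _ (by positivity)
            exact mul_le_mul_of_nonneg_left hE3b (by norm_num)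
        _ = _ := by ring
    have hX : 0 ≤ 5 * (i + 1) * E3 * (Real.exp (W * Hh) * Real.exp (-(c * i))) := by
      positivity
    calc _ ≤ 2048 * (i + 1) * E3 * (Real.exp (W * Hh) * Real.exp (-(c * i))) +
        64 * C0 * (i + 1) * E3 * (Real.exp (W * Hh) * Real.exp (-(c * i))) := add_le_add t1 t2
      _ ≤ _ := by linarith
  · -- atypical
    have h4 := trivial_count hk hWi S1 S2 u B (fun x hx => ⟨(hB x hx).1, m1 x hx, m2 x hx⟩)
    have h5 := card_cheb S1 (fun v hv => ⟨(s1 v hv).1, (s1 v hv).2.1⟩) ht0.le (by linarith) l1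
    have h6 := atyp_final hWi ht0 ht2 dW htyp hci3 (Nat.cast_nonneg S2.card) h5 c2
    have hE2 := Real.exp_pos (W * Hh - c * i)
    have hE3b : Real.exp (D * lam) ≤ E3 := by
      refine hDl.trans (Real.exp_le_exp.2 ?_)
      have : 0 ≤ 3 * μ * W := by positivity
      linarith
    calc (B.card : ℝ) ≤ 5 * (S1.card * S2.card) := h4
      _ ≤ 5 * (Real.exp (D * lam) * Real.exp (W * Hh - c * i)) := by linarith
      _ ≤ 5 * (E3 * Real.exp (W * Hh - c * i)) := by
          apply mul_le_mul_of_nonneg_left _ (by norm_num)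
          exact mul_le_mul_of_nonneg_right hE3b hE2.le
      _ = 5 * 1 * E3 * Real.exp (W * Hh - c * i) := by ring
      _ ≤ _ := by
          apply mul_le_mul_of_nonneg_right _ hE2.le
          apply mul_le_mul_of_nonneg_right _ hE30.le
          apply mul_le_mul _ (by linarith) (by norm_num) (by positivity)
          have : 0 ≤ 64 * (32 + C0) := by positivity
          linarith

theorem type_final : ∃ τ c C μ : ℝ, 0 < τ ∧ τ ≤ 1 / 4 ∧ 0 < c ∧ 0 < C ∧ 0 < μ ∧ μ ≤ 1 ∧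
    ∃ W1 : ℕ, ∀ μ' : ℝ, 0 < μ' → μ' ≤ μ → ∀ k : ℤ, Odd k → ∀ W Q : ℕ, W1 ≤ W → 1 ≤ Q →
      (Q : ℝ) ≤ Real.exp (μ' * W) →
      |(k : ℝ)| ≤ Real.exp (μ' * W) →
    ∃ i m : ℕ, W = 2 * m + i ∧ (i : ℝ) ≤ τ * W ∧ τ * W - 2 ≤ i ∧
    ∀ (o1 om o2 : ℕ) (u : ℤ) (B : Finset ℤ), (∀ x ∈ B, |x - u| ≤ 2 ^ W ∧
      (∀ j ≤ W + i, 2 ^ j ≤ Q * 3 ^ ones (wd k j x)) ∧ ones (wd k i x) = o1 ∧
      ones (wd k (2 * m) ((T k)^[i] x)) = om ∧ ones (wd k i ((T k)^[W] x)) = o2) →
      (B.card : ℝ) ≤ C * (i + 1) * Real.exp ((3 + lam) * μ' * W) * Real.exp (W * Hh - c * i) := by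
  classical
  obtain ⟨ε, hε, N0, hrid⟩ := no_conspiracy
  have hl2 := log2_pos
  have hl3 := log3_pos
  have hlam := lam_pos
  have hkp := kap_pos
  have hk1 := kap_lt_one
  have hlog2a := Real.log_two_gt_d9
  have hlog2b := Real.log_two_lt_d9
  have hq0 : 0 < 1 - kap := by linarith
  have hpq0 : 0 < kap * (1 - kap) := mul_pos hkp hq0
  have hpq1 : kap * (1 - kap) ≤ 1 := by nlinarith
  set τ : ℝ := min (1 / 4) ε with hτ
  have hτ0 : 0 < τ := lt_min (by norm_num) hε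
  have hτ1 : τ ≤ 1 / 4 := min_le_left _ _
  have hτ2 : τ ≤ ε := min_le_right _ _
  set gs : ℝ := 1 - kap * (1 - kap) / 32 with hgs
  have hgs0 : 0 < gs := by rw [hgs]; linarith
  have hgs1 : gs < 1 := by rw [hgs]; linarith
  have hlgs0 : 0 < -Real.log gs := by linarith [Real.log_neg hgs0 hgs1]
  set δ : ℝ := Real.log 2 - Hh with hδ
  have hδ0 : 0 < δ := by rw [hδ]; linarith [Hh_lt]
  set z : ℝ := min (1 / 2) (τ * δ / 18) with hz
  have hz0 : 0 < z := lt_min (by norm_num) (by positivity)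
  have hz1 : z ≤ 1 / 2 := min_le_left _ _
  have hz2 : z ≤ τ * δ / 18 := min_le_right _ _
  have hlz0 : 0 < -Real.log z := by linarith [Real.log_neg hz0 (by linarith)]
  set σ : ℝ := δ / (3 * (-Real.log gs + 2 * -Real.log z)) with hσ
  have hσd : 0 < 3 * (-Real.log gs + 2 * -Real.log z) := by linarith
  have hσ0 : 0 < σ := div_pos hδ0 hσd
  have hσe : σ * (-Real.log gs + 2 * -Real.log z) = δ / 3 := by
    rw [hσ, div_mul_eq_mul_div, div_eq_div_iff hσd.ne' (by norm_num)]; ring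
  set η : ℝ := -Real.log gs * σ / (2 * (lam + Real.log 3)) with hη
  have hη0 : 0 < η := by positivity
  have hηe : η * ((lam + Real.log 3) / 2) = -Real.log gs * σ / 4 := by
    rw [hη, div_mul_div_comm, div_eq_div_iff (by positivity) (by norm_num)]; ring
  set t : ℝ := min (1 / 2) (η / 2) with ht
  have ht0 : 0 < t := lt_min (by norm_num) (by positivity)
  have ht1 : t ≤ 1 / 2 := min_le_left _ _
  have ht2 : t ≤ η / 2 := min_le_right _ _
  set c : ℝ := min (δ / 3) (min (-Real.log gs * σ / 4) (t * η / 2)) with hc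
  have hc0 : 0 < c := lt_min (by positivity) (lt_min (by positivity) (by positivity))
  have hc1 : c ≤ δ / 3 := min_le_left _ _
  have hc2 : c ≤ -Real.log gs * σ / 4 := (min_le_right _ _).trans (min_le_left _ _)
  have hc3 : c ≤ t * η / 2 := (min_le_right _ _).trans (min_le_right _ _)
  set μ : ℝ := min (ε * (1 - Real.log 2)) (min (1 / 8) (τ / 4)) with hμ
  have hμ0 : 0 < μ := lt_min (by apply mul_pos hε; linarith) (lt_min (by norm_num) (by positivity))
  have hμ1 : μ ≤ ε * (1 - Real.log 2) := min_le_left _ _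
  have hμ2 : μ ≤ 1 / 8 := (min_le_right _ _).trans (min_le_left _ _)
  have hμ3 : μ ≤ τ / 4 := (min_le_right _ _).trans (min_le_right _ _)
  refine ⟨τ, c, 64 * (32 + Real.exp (2 * δ / 3 + -Real.log gs + -Real.log z)) + 5, μ,
    hτ0, hτ1, hc0, by positivity, hμ0, by linarith, ?_⟩
  -- large `W`
  have e2 := tendsto_exp_nat (a := 1 / 16) (by norm_num) (2 * Real.pi)
  have e3 : ∀ᶠ W : ℕ in Filter.atTop, 16 ≤ τ * (W : ℝ) := by
    have h1 : Filter.Tendsto (fun W : ℕ => τ * (W : ℝ)) Filter.atTop Filter.atTop :=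
      Filter.Tendsto.const_mul_atTop hτ0 tendsto_natCast_atTop_atTop
    exact h1.eventually_ge_atTop _
  obtain ⟨W1, hW1⟩ := Filter.eventually_atTop.1 (e2.and e3)
  refine ⟨max W1 N0, fun μ' hμ'0 hμ' k hk W Q hWW hQ1 hQ hkμ => ?_⟩
  obtain ⟨h2, h3⟩ := hW1 W ((le_max_left _ _).trans hWW)
  have hWN : N0 ≤ W := (le_max_right _ _).trans hWW
  have hW0 : (0 : ℝ) ≤ W := Nat.cast_nonneg W
  have h2' : 2 * Real.pi * Real.exp (2 * μ' * W) ≤ Real.exp (Real.log 2 / 2 * W) := by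
    calc 2 * Real.pi * Real.exp (2 * μ' * W) ≤ Real.exp (1 / 16 * W) * Real.exp (2 * μ' * W) :=
          mul_le_mul_of_nonneg_right h2 (Real.exp_pos _).le
      _ = Real.exp (1 / 16 * W + 2 * μ' * W) := by rw [← Real.exp_add]
      _ ≤ _ := by
          apply Real.exp_le_exp.2
          have h5 : μ' * W ≤ 1 / 8 * W := mul_le_mul_of_nonneg_right (by linarith) hW0
          have h6 : (1 / 3 : ℝ) * W ≤ Real.log 2 / 2 * W := mul_le_mul_of_nonneg_right (by linarith) hW0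
          linarith
  obtain ⟨i, m, hWi, hi1, hi2⟩ := exists_i (W := W) hτ0 hτ1 (by linarith)
  refine ⟨i, m, hWi, hi1, hi2, ?_⟩
  intro o1 om o2 u B hB
  exact type_step hk hτ0 hτ1 hτ2 hgs hgs0 hgs1 hδ hδ0 hz0 hz1 hz2 hσ0 hσe hηe ht0 ht1 ht2
    hc1 hc2 hc3 hμ'0 (by linarith) (by linarith) (by linarith) hWN hrid hQ1 hQ hkμ h2' h3 hWi hi1 hi2
    o1 om o2 u B hB

end Pool.Agent.TH930.EBQ
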