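import Mathlib

/-! Parity words of the maps `x ↦ x/2`, `(3x+k)/2`. -/

set_option autoImplicit false

namespace Pool.Agent.TH930.EBQ

open Finset

/-- number of ones -/
def ones (v : List Bool) : ℕ := v.count true

/-- the constant term of a parity word -/
def cw : List Bool → ℕ
  | [] => 0
  | (b :: v) => (if b then 3 ^ ones v else 0) + 2 * cw v

@[simp] lemma ones_nil : ones [] = 0 := rfl

@[simp] lemma ones_cons_true (v : List Bool) : ones (true :: v) = ones v + 1 := by
  simp [ones]

@[simp] lemma ones_cons_false (v : List Bool) : ones (false :: v) = ones v := by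
  simp [ones]

lemma ones_append (u v : List Bool) : ones (u ++ v) = ones u + ones v := by
  simp [ones]

lemma ones_le_length (v : List Bool) : ones v ≤ v.length := List.count_le_length

@[simp] lemma cw_nil : cw [] = 0 := rfl

@[simp] lemma cw_cons_true (v : List Bool) : cw (true :: v) = 3 ^ ones v + 2 * cw v := rfl

@[simp] lemma cw_cons_false (v : List Bool) : cw (false :: v) = 2 * cw v := by
  simp [cw]

lemma cw_append (u v : List Bool) : cw (u ++ v) = 3 ^ ones v * cw u + 2 ^ u.length * cw v := by
  induction u with
  | nil => simp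
  | cons b u ih =>
    cases b
    · rw [List.cons_append, cw_cons_false, ih, cw_cons_false, List.length_cons]; ring
    · rw [List.cons_append, cw_cons_true, ih, cw_cons_true, List.length_cons, ones_append]; ring

/-- all words of length `n` -/
def words : ℕ → Finset (List Bool)
  | 0 => {[]}
  | n + 1 => (words n).image (List.cons true) ∪ (words n).image (List.cons false)

lemma mem_words {n : ℕ} {v : List Bool} : v ∈ words n ↔ v.length = n := by
  induction n generalizing v with
  | zero => simp [words]
  | succ n ih =>
    simp only [words, mem_union, mem_image]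
    constructor
    · rintro (⟨u, hu, rfl⟩ | ⟨u, hu, rfl⟩) <;> simp [ih.1 hu]
    · intro h
      cases v with
      | nil => simp at h
      | cons b u =>
        have hu : u ∈ words n := ih.2 (by simpa using h)
        cases b
        · exact Or.inr ⟨u, hu, rfl⟩
        · exact Or.inl ⟨u, hu, rfl⟩

lemma sum_words_succ {α : Type*} [AddCommMonoid α] (n : ℕ) (f : List Bool → α) :
    ∑ v ∈ words (n + 1), f v = ∑ v ∈ words n, (f (true :: v) + f (false :: v)) := by
  have hd : Disjoint ((words n).image (List.cons true)) ((words n).image (List.cons false)) := by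
    rw [Finset.disjoint_left]
    intro v h1 h2
    rw [mem_image] at h1 h2
    obtain ⟨a, -, rfl⟩ := h1
    obtain ⟨b, -, hb⟩ := h2
    simp at hb
  rw [words, sum_union hd, sum_image (fun a _ b _ h => by simpa using h),
    sum_image (fun a _ b _ h => by simpa using h), sum_add_distrib]

lemma card_words (n : ℕ) : (words n).card = 2 ^ n := by
  induction n with
  | zero => simp [words]
  | succ n ih =>
    have h := sum_words_succ n (fun _ => (1 : ℕ))
    rw [← card_eq_sum_ones] at h
    rw [h]
    simp only [sum_const, smul_eq_mul]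
    rw [ih]; ring

lemma sum_words_add {α : Type*} [AddCommMonoid α] (a b : ℕ) (f : List Bool → α) :
    ∑ v ∈ words (a + b), f v = ∑ u ∈ words a, ∑ v ∈ words b, f (u ++ v) := by
  induction a generalizing f with
  | zero => simp [words]
  | succ a ih =>
    rw [show a + 1 + b = (a + b) + 1 by ring, sum_words_succ, sum_words_succ, ih]
    apply sum_congr rfl
    intro u _
    rw [sum_add_distrib]
    rfl

/-- the map -/
def T (k x : ℤ) : ℤ := if x % 2 = 0 then x / 2 else (3 * x + k) / 2

/-- the parity word -/
def wd (k : ℤ) : ℕ → ℤ → List Bool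
  | 0, _ => []
  | (n + 1), x => (decide (x % 2 = 1)) :: wd k n (T k x)

@[simp] lemma wd_length (k : ℤ) (n : ℕ) (x : ℤ) : (wd k n x).length = n := by
  induction n generalizing x with
  | zero => rfl
  | succ n ih => simp [wd, ih]

lemma wd_mem (k : ℤ) (n : ℕ) (x : ℤ) : wd k n x ∈ words n := mem_words.2 (wd_length k n x)

lemma two_T {k : ℤ} (hk : Odd k) (x : ℤ) :
    2 * T k x = if x % 2 = 1 then 3 * x + k else x := by
  obtain ⟨t, rfl⟩ := hk
  unfold T
  rcases Int.emod_two_eq_zero_or_one x with h | h
  · rw [if_pos h, if_neg (by omega)]; omega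
  · rw [if_neg (by omega), if_pos h]; omega

lemma wd_append (k : ℤ) (a b : ℕ) (x : ℤ) :
    wd k (a + b) x = wd k a x ++ wd k b ((T k)^[a] x) := by
  induction a generalizing x with
  | zero => simp [wd]
  | succ a ih =>
    rw [show a + 1 + b = (a + b) + 1 by ring]
    simp only [wd, ih, List.cons_append, Function.iterate_succ_apply]

lemma iter_eq {k : ℤ} (hk : Odd k) (n : ℕ) (x : ℤ) :
    2 ^ n * (T k)^[n] x = 3 ^ ones (wd k n x) * x + k * cw (wd k n x) := by
  induction n generalizing x with
  | zero => simp [wd]
  | succ n ih =>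
    rw [Function.iterate_succ_apply, pow_succ, mul_comm ((2 : ℤ) ^ n) 2, mul_assoc, ih]
    have h2 := two_T hk x
    simp only [wd]
    rcases Int.emod_two_eq_zero_or_one x with h | h
    · have hd : decide (x % 2 = 1) = false := by simp [h]
      rw [if_neg (by omega)] at h2
      rw [hd, ones_cons_false, cw_cons_false]
      push_cast
      linear_combination 3 ^ ones (wd k n (T k x)) * h2
    · have hd : decide (x % 2 = 1) = true := by simp [h]
      rw [if_pos h] at h2
      rw [hd, ones_cons_true, cw_cons_true]
      push_cast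
      linear_combination 3 ^ ones (wd k n (T k x)) * h2

lemma T_congr {k : ℤ} (hk : Odd k) {n : ℕ} {x y : ℤ} (h : (2 : ℤ) ^ (n + 1) ∣ x - y) :
    x % 2 = y % 2 ∧ (2 : ℤ) ^ n ∣ T k x - T k y := by
  have h1 : (2 : ℤ) ∣ x - y := dvd_trans (dvd_pow_self 2 (by omega)) h
  have h2 : x % 2 = y % 2 := by omega
  refine ⟨h2, ?_⟩
  have hx := two_T hk x
  have hy := two_T hk y
  rw [← h2] at hy
  have h3 : (2 : ℤ) * 2 ^ n ∣ 2 * (T k x - T k y) := by
    rw [mul_sub, hx, hy, ← pow_succ']
    split_ifs
    · have : 3 * x + k - (3 * y + k) = 3 * (x - y) := by ring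
      rw [this]
      exact Dvd.dvd.mul_left h 3
    · exact h
  exact (mul_dvd_mul_iff_left (by norm_num)).1 h3

lemma wd_congr {k : ℤ} (hk : Odd k) {n : ℕ} {x y : ℤ} (h : (2 : ℤ) ^ n ∣ x - y) :
    wd k n x = wd k n y := by
  induction n generalizing x y with
  | zero => rfl
  | succ n ih =>
    obtain ⟨h1, h2⟩ := T_congr hk h
    simp only [wd, ih h2, h1]

lemma wd_inj {k : ℤ} (hk : Odd k) {n : ℕ} {x y : ℤ} (h : wd k n x = wd k n y) :
    (2 : ℤ) ^ n ∣ x - y := by
  have hx := iter_eq hk n x
  have hy := iter_eq hk n y
  rw [h] at hx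
  have h1 : (2 : ℤ) ^ n ∣ 3 ^ ones (wd k n y) * (x - y) := by
    refine ⟨(T k)^[n] x - (T k)^[n] y, ?_⟩
    linear_combination hy - hx
  have hc : IsCoprime ((2 : ℤ) ^ n) (3 ^ ones (wd k n y)) := by
    apply IsCoprime.pow
    rw [Int.isCoprime_iff_gcd_eq_one]; norm_num
  exact hc.dvd_of_dvd_mul_left h1

/-- every word is the parity word of exactly one residue class -/
lemma image_wd {k : ℤ} (hk : Odd k) (n : ℕ) :
    (range (2 ^ n)).image (fun x : ℕ => wd k n (x : ℤ)) = words n := by
  apply Finset.eq_of_subset_of_card_le
  · intro v hv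
    rw [mem_image] at hv
    obtain ⟨x, -, rfl⟩ := hv
    exact wd_mem k n x
  · rw [card_words, card_image_of_injOn, card_range]
    intro x hx y hy hxy
    simp only [coe_range, Set.mem_Iio] at hx hy
    have h1 := wd_inj hk (n := n) hxy
    have h2 : ((x : ℤ) - y) = 0 := by
      apply Int.eq_zero_of_abs_lt_dvd h1
      have hx' : (x : ℤ) < 2 ^ n := by exact_mod_cast hx
      have hy' : (y : ℤ) < 2 ^ n := by exact_mod_cast hy
      have hx0 : (0 : ℤ) ≤ x := Int.natCast_nonneg x
      have hy0 : (0 : ℤ) ≤ y := Int.natCast_nonneg y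
      rw [abs_lt]; constructor <;> linarith
    omega

lemma sum_wd {α : Type*} [AddCommMonoid α] {k : ℤ} (hk : Odd k) (n : ℕ) (f : List Bool → α) :
    ∑ x ∈ range (2 ^ n), f (wd k n (x : ℤ)) = ∑ v ∈ words n, f v := by
  rw [← image_wd hk n, sum_image]
  intro x hx y hy hxy
  simp only [coe_range, Set.mem_Iio] at hx hy
  have h1 := wd_inj hk (n := n) hxy
  have h2 : ((x : ℤ) - y) = 0 := by
    apply Int.eq_zero_of_abs_lt_dvd h1
    have hx' : (x : ℤ) < 2 ^ n := by exact_mod_cast hx
    have hy' : (y : ℤ) < 2 ^ n := by exact_mod_cast hy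
    have hx0 : (0 : ℤ) ≤ x := Int.natCast_nonneg x
    have hy0 : (0 : ℤ) ≤ y := Int.natCast_nonneg y
    rw [abs_lt]; constructor <;> linarith
  omega

/-- words of the same length and the same number of ones whose constants agree mod `2 ^ n` -/
lemma cw_inj2 {n : ℕ} {u v : List Bool} (hu : u.length = n) (hv : v.length = n)
    (ho : ones u = ones v) (h : (2 : ℤ) ^ n ∣ (cw u : ℤ) - cw v) : u = v := by
  induction n generalizing u v with
  | zero =>
    rw [List.length_eq_zero_iff] at hu hv
    rw [hu, hv]
  | succ n ih =>
    cases u with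
    | nil => simp at hu
    | cons a u =>
      cases v with
      | nil => simp at hv
      | cons b v =>
        simp only [List.length_cons, Nat.add_right_cancel_iff] at hu hv
        have h2 : (2 : ℤ) ∣ (cw (a :: u) : ℤ) - cw (b :: v) := dvd_trans (dvd_pow_self 2 (by omega)) h
        have h3 : ∀ j : ℕ, ((3 : ℤ) ^ j) % 2 = 1 := by
          intro j
          induction j with
          | zero => rfl
          | succ j ih => rw [pow_succ]; omega
        have hu3 := h3 (ones u)
        have hv3 := h3 (ones v)
        cases a <;> cases b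
        · simp only [cw_cons_false, ones_cons_false] at h h2 ho
          push_cast at h
          rw [← mul_sub, pow_succ'] at h
          rw [ih hu hv ho ((mul_dvd_mul_iff_left (by norm_num)).1 h)]
        · exfalso
          simp only [cw_cons_false, cw_cons_true] at h2
          push_cast at h2
          omega
        · exfalso
          simp only [cw_cons_false, cw_cons_true] at h2
          push_cast at h2
          omega
        · simp only [cw_cons_true, ones_cons_true, Nat.add_right_cancel_iff] at h h2 ho
          rw [ho] at h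
          push_cast at h
          have e : (3 : ℤ) ^ ones v + 2 * (cw u : ℤ) - (3 ^ ones v + 2 * (cw v : ℤ)) =
            2 * ((cw u : ℤ) - cw v) := by ring
          rw [e, pow_succ'] at h
          rw [ih hu hv ho ((mul_dvd_mul_iff_left (by norm_num)).1 h)]

/-- the prefix condition -/
def Pre (Q : ℕ) (v : List Bool) : Prop := ∀ j ≤ v.length, 2 ^ j ≤ Q * 3 ^ ones (v.take j)

lemma cw_le {Q : ℕ} {v : List Bool} (h : Pre Q v) : cw v ≤ Q * v.length * 3 ^ ones v := by
  induction v using List.reverseRecOn with
  | nil => simp
  | append_singleton v b ih =>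
    have hv : Pre Q v := by
      intro j hj
      have h1 := h j (by rw [List.length_append]; omega)
      rwa [List.take_append_of_le_length hj] at h1
    have h1 := ih hv
    have h2 : 2 ^ v.length ≤ Q * 3 ^ ones v := by
      have := hv v.length le_rfl
      rwa [List.take_length] at this
    rw [cw_append, ones_append, List.length_append]
    cases b
    · simp
      refine h1.trans ?_
      gcongr
      omega
    · simp only [ones_cons_true, ones_nil, zero_add, pow_one, cw_cons_true, pow_zero, cw_nil,
        mul_zero, add_zero, mul_one, List.length_cons, List.length_nil]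
      calc 3 * cw v + 2 ^ v.length ≤ 3 * (Q * v.length * 3 ^ ones v) + Q * 3 ^ ones v := by
            gcongr
        _ ≤ 3 * (Q * v.length * 3 ^ ones v) + (3 * Q) * 3 ^ ones v := by
            gcongr
            omega
        _ = Q * (v.length + 1) * 3 ^ (ones v + 1) := by ring

end Pool.Agent.TH930.EBQ
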